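import Pool.Agent.CCO.Cubic1

set_option autoImplicit false

namespace Pool.Agent.CCP

open Finset Pool.Agent.CCO

/-- A universal core: a bridgeless graph without isolated vertices to which every bridgeless graph
maps, all of whose cc endomorphisms are bijective. -/
structure UCtx (a : FinGraph) : Prop where
  core : ∀ f : a.E → a.E, CC a a f → Function.Bijective f
  noniso : ∀ v : a.V, ∃ e, a.fst e = v ∨ a.snd e = v
  br : Bridgeless a
  univ : ∀ G : FinGraph, Bridgeless G → Le G a

/-- The Petersen graph: the outer vertices `(false, i)`, the inner vertices `(true, i)`, and for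
every `i : ZMod 5` the outer edge `(0, i)` joining `(false, i)` and `(false, i + 1)`, the inner
edge `(1, i)` joining `(true, i)` and `(true, i + 2)`, and the spoke `(2, i)` joining
`(false, i)` and `(true, i)`. -/
@[reducible] def Petersen : FinGraph where
  V := Bool × ZMod 5
  E := Fin 3 × ZMod 5
  fintypeV := inferInstance
  fintypeE := inferInstance
  decV := inferInstance
  decE := inferInstance
  fst := fun e => if e.1 = 1 then (true, e.2) else (false, e.2)
  snd := fun e => if e.1 = 0 then (false, e.2 + 1) else if e.1 = 1 then (true, e.2 + 2)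
    else (true, e.2)
  nonempty := ⟨(0, 0)⟩

/-- A presentation of the Petersen graph with spokes `Z`. -/
structure PStr (x y : ZMod 5 → Petersen.V) (X Y Z : ZMod 5 → Petersen.E) : Prop where
  xe : ∀ i, X i ∈ star Petersen (x i) ∧ X i ∈ star Petersen (x (i + 1))
  ye : ∀ i, Y i ∈ star Petersen (y i) ∧ Y i ∈ star Petersen (y (i + 2))
  ze : ∀ i, Z i ∈ star Petersen (x i) ∧ Z i ∈ star Petersen (y i)
  xx : ∀ i, X i ≠ X (i + 1)
  yy : ∀ i, Y i ≠ Y (i + 2)
  surj : ∀ v, ∃ i, v = x i ∨ v = y i
  surjE : ∀ e, ∃ i, e = X i ∨ e = Y i ∨ e = Z i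

end Pool.Agent.CCP
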