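import Pool.Agent.CCO.Univ
import Pool.Agent.CCO.Cubic3
import Pool.Agent.CCO.Pair
import Pool.Agent.CCP.Base

/-!
# CCP: classification of the empty intervals and of the intervals without infinite antichain in
terms of a greatest bridgeless graph
-/

set_option autoImplicit false

namespace Pool.Agent.CCP

open Pool.Agent.CCO

/-- The graph `K₂`: two vertices joined by one edge. -/
@[reducible] def K2 : FinGraph where
  V := Bool
  E := Unit
  fintypeV := inferInstance
  fintypeE := inferInstance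
  decV := inferInstance
  decE := inferInstance
  fst := fun _ => false
  snd := fun _ => true
  nonempty := ⟨()⟩

/-- The interval `(a, b)` contains an infinite antichain: graphs `c 0, c 1, ...` strictly between
`a` and `b`, no one of which maps to another. -/
def HasInfiniteAntichain (a b : FinGraph) : Prop :=
  ∃ c : ℕ → FinGraph, (∀ n, Lt a (c n) ∧ Lt (c n) b) ∧ ∀ m n, m ≠ n → ¬ Le (c m) (c n)

namespace Classif

theorem K2_bridge : ¬ Bridgeless K2 := by
  intro h
  rw [bridgeless_iff] at h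
  obtain ⟨φ, hφ, h1⟩ := h ()
  have h2 := hφ false
  unfold bd at h2
  rw [Fintype.sum_unique] at h2
  change φ () + 0 = 0 at h2
  rw [h1] at h2
  exact absurd h2 (by decide)

/-- A graph mapping to a bridgeless graph is bridgeless. -/
theorem bridgeless_of_le {G H : FinGraph} (h : Le G H) (hH : Bridgeless H) : Bridgeless G := by
  rw [bridgeless_iff] at hH ⊢
  obtain ⟨f, hf⟩ := h
  intro e
  obtain ⟨φ, hφ, h1⟩ := hH (f e)
  exact ⟨fun e => φ (f e), hf φ hφ, h1⟩

/-- The lower end of an empty interval receives a map from every bridgeless graph. -/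
theorem univ_of_gap (a b : FinGraph) (hab : Lt a b) (hgap : ¬ ∃ x, Lt a x ∧ Lt x b) :
    ∀ G, Bridgeless G → Le G a := by
  obtain ⟨a', h1, h2, hcore, hiso⟩ := exists_core a
  have hab' : Lt a' b := ⟨le_trans' h2 hab.1, fun h => hab.2 (le_trans' h h2)⟩
  have hgap' : ∀ x, ¬ (Lt a' x ∧ Lt x b) := by
    rintro x ⟨hx1, hx2⟩
    exact hgap ⟨x, ⟨le_trans' h1 hx1.1, fun h => hx1.2 (le_trans' h h1)⟩, hx2⟩
  obtain ⟨X, hX0, hXc⟩ := exists_common a' (fun H s t hst hH hc =>
    leak_of_gap a' b hab' hgap' H s t hst hH hc)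
  by_cases hX : ∃ e, X = ev a' e
  · obtain ⟨e, rfl⟩ := hX
    intro G hG
    exact le_trans' (univ_of_edge a' e hXc G hG) h2
  · push Not at hX
    exact (Ctx.absurd' ⟨hcore, hX0, hX, hXc, hiso⟩).elim

/-- For graphs `a < b` of the cc order the interval `(a, b)` is empty if and only if the graphs
mapping to `a` are exactly the bridgeless graphs and `b` is equivalent to `K₂`. -/
theorem gap_result (a b : FinGraph) (hab : Lt a b) :
    (¬ ∃ x : FinGraph, Lt a x ∧ Lt x b) ↔
      ((∀ G : FinGraph, Le G a ↔ Bridgeless G) ∧ (Le b K2 ∧ Le K2 b)) := by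
  constructor
  · intro hgap
    have hu := univ_of_gap a b hab hgap
    have ha : Bridgeless a := by
      by_contra h
      exact hab.2 (bridgeless_of_le_of_bridge h)
    have hb : ¬ Bridgeless b := fun h => hab.2 (hu b h)
    exact ⟨fun G => ⟨fun h => bridgeless_of_le h ha, hu G⟩,
      bridgeless_of_le_of_bridge K2_bridge, bridgeless_of_le_of_bridge hb⟩
  · rintro ⟨hu, hb, hb'⟩ ⟨x, hx1, hx2⟩
    have hx : ¬ Bridgeless x := fun h => hx1.2 ((hu x).mpr h)
    exact hx2.2 (bridgeless_of_le_of_bridge hx)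

theorem lt_of_le_lt {a b c : FinGraph} (h : Le a b) (h' : Lt b c) : Lt a c :=
  ⟨le_trans' h h'.1, fun hc => h'.2 (le_trans' hc h)⟩

theorem lt_of_lt_le {a b c : FinGraph} (h : Lt a b) (h' : Le b c) : Lt a c :=
  ⟨le_trans' h.1 h', fun hc => h.2 (le_trans' h' hc)⟩

/-- Density below bridgeless graphs. -/
theorem dense (a b : FinGraph) (hab : Lt a b) (hb : Bridgeless b) : ∃ x, Lt a x ∧ Lt x b := by
  by_contra h
  exact hab.2 (univ_of_empty a b hab h b hb)

/-- The situation of the recursion. -/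
structure State (l : ℕ) (p q : FinGraph) : Prop where
  lt : Lt p q
  br : Bridgeless q
  low : OG p l
  up : ∀ k, OG q k → l ≤ k

theorem step {l : ℕ} {p q : FinGraph} (h : State l p q) :
    ∃ x p' q' : FinGraph, State l p' q' ∧ Lt p x ∧ Lt x q ∧ Le p p' ∧ Le q' q ∧
      ∀ w, Le p' w → Le w q' → ¬ Le x w ∧ ¬ Le w x := by
  obtain ⟨x, y, ⟨hpx, hxq⟩, ⟨hpy, hyq⟩, hxy, hyx⟩ := exists_pair p q h.lt h.br l h.low h.up
  have hz : Lt y (union x y) :=
    ⟨le_union_right x y, fun hc => hxy (le_trans' (le_union_left x y) hc)⟩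
  have hzq : Le (union x y) q := union_le hxq.1 hyq.1
  obtain ⟨y', h1, h2⟩ := dense y (union x y) hz (bridgeless_mono hzq h.br)
  have hy'q : Le y' q := le_trans' h2.1 hzq
  refine ⟨x, y, y', ⟨h1, bridgeless_mono hy'q h.br, h.low.mono hpy.1,
    fun k hk => h.up k (hk.mono hy'q)⟩, hpx, hxq, hpy.1, hy'q, ?_⟩
  intro w hw1 hw2
  refine ⟨fun hc => ?_, fun hc => hyx (le_trans' hw1 hc)⟩
  exact h2.2 (union_le (le_trans' hc hw2) h1.1)

theorem antichain_of_state {l : ℕ} {p q : FinGraph} (h : State l p q) :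
    HasInfiniteAntichain p q := by
  have hstep : ∀ s : {s : FinGraph × FinGraph // State l s.1 s.2}, ∃ (x : FinGraph)
      (s' : {s : FinGraph × FinGraph // State l s.1 s.2}), Lt s.1.1 x ∧ Lt x s.1.2 ∧
      Le s.1.1 s'.1.1 ∧ Le s'.1.2 s.1.2 ∧
      ∀ w, Le s'.1.1 w → Le w s'.1.2 → ¬ Le x w ∧ ¬ Le w x := by
    rintro ⟨⟨p, q⟩, h⟩
    obtain ⟨x, p', q', h', h1, h2, h3, h4, h5⟩ := step h
    exact ⟨x, ⟨⟨p', q'⟩, h'⟩, h1, h2, h3, h4, h5⟩
  choose X N h1 h2 h3 h4 h5 using hstep
  set sq : ℕ → {s : FinGraph × FinGraph // State l s.1 s.2} :=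
    fun n => N^[n] ⟨⟨p, q⟩, h⟩ with hsq
  have hsucc : ∀ n, sq (n + 1) = N (sq n) := fun n => Function.iterate_succ_apply' N n _
  have hmono : ∀ m n, m ≤ n → Le (sq m).1.1 (sq n).1.1 ∧ Le (sq n).1.2 (sq m).1.2 := by
    intro m n hmn
    induction n, hmn using Nat.le_induction with
    | base => exact ⟨le_refl _, le_refl _⟩
    | succ n _ ih =>
      rw [hsucc]
      exact ⟨le_trans' ih.1 (h3 _), le_trans' (h4 _) ih.2⟩
  refine ⟨fun n => X (sq n), fun n => ?_, ?_⟩
  · have h6 := hmono 0 n (Nat.zero_le n)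
    exact ⟨lt_of_le_lt h6.1 (h1 _), lt_of_lt_le (h2 _) h6.2⟩
  · have hlt : ∀ m n, m < n → ¬ Le (X (sq m)) (X (sq n)) ∧ ¬ Le (X (sq n)) (X (sq m)) := by
      intro m n hmn
      have h6 := hmono (m + 1) n hmn
      rw [hsucc] at h6
      exact h5 (sq m) (X (sq n)) (le_trans' h6.1 (h1 _).1) (le_trans' (h2 _).1 h6.2)
    intro m n hmn
    rcases lt_or_gt_of_ne hmn with h6 | h6
    · exact (hlt m n h6).1
    · exact (hlt n m h6).2

theorem antichain_bridgeless (a b : FinGraph) (hab : Lt a b) (hb : Bridgeless b) :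
    HasInfiniteAntichain a b := by
  classical
  have hex : ∃ k : ℕ, ∃ x : FinGraph, (Lt a x ∧ Lt x b) ∧ OG x k := by
    obtain ⟨x, h1, h2⟩ := dense a b hab hb
    obtain ⟨k, hk⟩ := exists_OG x a h1.2
    exact ⟨k, x, ⟨h1, h2⟩, hk⟩
  obtain ⟨x, ⟨hax, hxb⟩, hx⟩ := Nat.find_spec hex
  obtain ⟨y, hxy, hyb⟩ := dense x b hxb hb
  have hay : Lt a y := lt_of_le_lt hax.1 hxy
  obtain ⟨c, hc1, hc2⟩ := antichain_of_state (l := Nat.find hex) (p := x) (q := y)
    ⟨hxy, bridgeless_mono hyb.1 hb, hx, fun k hk => Nat.find_min' hex ⟨y, ⟨hay, hyb⟩, hk⟩⟩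
  exact ⟨c, fun n => ⟨lt_of_le_lt hax.1 (hc1 n).1, lt_of_lt_le (hc1 n).2 hyb.1⟩, hc2⟩

theorem bridgeless_union {G H : FinGraph} (hG : Bridgeless G) (hH : Bridgeless H) :
    Bridgeless (union G H) := by
  rw [bridgeless_iff] at hG hH ⊢
  rintro (e | e)
  · obtain ⟨φ, hφ, h1⟩ := hG e
    exact ⟨Sum.elim φ (fun _ => 0), (isFlow_union G H _).mpr ⟨hφ, isFlow_zero H⟩, h1⟩
  · obtain ⟨φ, hφ, h1⟩ := hH e
    exact ⟨Sum.elim (fun _ => 0) φ, (isFlow_union G H _).mpr ⟨isFlow_zero G, hφ⟩, h1⟩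

/-- A nonempty interval does not end in `K₂` and start in a greatest bridgeless graph. -/
theorem not_special (a b : FinGraph) (h : ∃ x : FinGraph, Lt a x ∧ Lt x b) :
    ¬ ((∀ G : FinGraph, Le G a ↔ Bridgeless G) ∧ (Le b K2 ∧ Le K2 b)) := by
  obtain ⟨x, hx1, hx2⟩ := h
  rintro ⟨hu, hb, hb'⟩
  have hx : ¬ Bridgeless x := fun h => hx1.2 ((hu x).mpr h)
  exact hx2.2 (bridgeless_of_le_of_bridge hx)

/-- For graphs `a < b` of the cc order the interval `(a, b)` contains an infinite antichain,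
unless the graphs mapping to `a` are exactly the bridgeless graphs and `b` is equivalent
to `K₂` (and in that case the interval is empty). -/
theorem anti_result (a b : FinGraph) (hab : Lt a b) :
    HasInfiniteAntichain a b ↔
      ¬ ((∀ G : FinGraph, Le G a ↔ Bridgeless G) ∧ (Le b K2 ∧ Le K2 b)) := by
  constructor
  · rintro ⟨c, hc, _⟩
    exact not_special a b ⟨c 0, hc 0⟩
  · intro h
    by_cases hb : Bridgeless b
    · exact antichain_bridgeless a b hab hb
    · have ha : Bridgeless a := by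
        by_contra hcon
        exact hab.2 (bridgeless_of_le_of_bridge hcon)
      have hG : ∃ G : FinGraph, Bridgeless G ∧ ¬ Le G a := by
        by_contra hcon
        push Not at hcon
        exact h ⟨fun G => ⟨fun hG => bridgeless_mono hG ha, hcon G⟩,
          bridgeless_of_le_of_bridge K2_bridge, bridgeless_of_le_of_bridge hb⟩
      obtain ⟨G, hG1, hG2⟩ := hG
      obtain ⟨c, hc1, hc2⟩ := antichain_bridgeless a (union a G)
        ⟨le_union_left a G, fun hc => hG2 (le_trans' (le_union_right a G) hc)⟩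
        (bridgeless_union ha hG1)
      exact ⟨c, fun n => ⟨(hc1 n).1, lt_of_lt_le (hc1 n).2 (bridgeless_of_le_of_bridge hb)⟩,
        hc2⟩

end Classif

end Pool.Agent.CCP
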