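import Pool.Agent.CCP.Split

set_option autoImplicit false

namespace Pool.Agent.CCP

open Finset Pool.Agent.CCO

variable {a : FinGraph}

/-- A relation is a cut; the side not containing `x` is the set of the vertices with `W`. -/
theorem exists_side (a : FinGraph) (s : Finset a.E) (hs : ∑ e ∈ s, ev a e = 0) (x : a.V) :
    ∃ W : a.V → Prop, ¬ W x ∧ ∀ e, (e ∈ s ↔ ¬ (W (a.fst e) ↔ W (a.snd e))) := by
  obtain ⟨w, hw⟩ := exists_cut0 a s hs
  refine ⟨fun y => w y ≠ w x, by simp, fun e => ?_⟩
  rw [hw e]
  rcases zmod2_cases (w (a.fst e)) with h | h <;> rcases zmod2_cases (w (a.snd e)) with h' | h' <;>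
    rcases zmod2_cases (w x) with h'' | h'' <;> simp [h, h', h'']

theorem side_rel (a : FinGraph) (W : a.V → Prop) (s : Finset a.E)
    (hs : ∀ e, (e ∈ s ↔ ¬ (W (a.fst e) ↔ W (a.snd e)))) : ∑ e ∈ s, ev a e = 0 := by
  classical
  apply cut_rel0 a (fun v => if W v then 1 else 0)
  intro e
  rw [hs e]
  by_cases h1 : W (a.fst e) <;> by_cases h2 : W (a.snd e) <;> simp [h1, h2]

/-- The other end. -/
theorem exists_oth {e : a.E} {x : a.V} (he : e ∈ star a x) :
    ∃ y, ∀ W : a.V → Prop, ((¬ (W (a.fst e) ↔ W (a.snd e))) ↔ ¬ (W x ↔ W y)) := by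
  rw [mem_star] at he
  rcases he with h | h
  · exact ⟨a.snd e, fun W => by rw [h]⟩
  · refine ⟨a.fst e, fun W => ?_⟩
    rw [h]
    tauto

namespace UCtx

theorem sub3 (h : UCtx a) {p q r : a.E} (hpq : p ≠ q) (hpr : p ≠ r) (hqr : q ≠ r)
    (s : Finset a.E) (hs : ∀ e ∈ s, e = p ∨ e = q ∨ e = r) (hp : p ∈ s)
    (h0 : ∑ e ∈ s, ev a e = 0) : ev a p + ev a q + ev a r = 0 := by
  by_cases hq : q ∈ s
  · by_cases hr : r ∈ s
    · have : s = {p, q, r} := by
        ext x
        simp only [mem_insert, mem_singleton]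
        exact ⟨hs x, by rintro (rfl | rfl | rfl) <;> assumption⟩
      rw [this, sum_insert (by simp [hpq, hpr]), sum_insert (by simp [hqr]), sum_singleton,
        ← add_assoc] at h0
      exact h0
    · exfalso
      have : s = {p, q} := by
        ext x
        simp only [mem_insert, mem_singleton]
        constructor
        · intro hx
          rcases hs x hx with rfl | rfl | rfl
          · exact Or.inl rfl
          · exact Or.inr rfl
          · exact absurd hx hr
        · rintro (rfl | rfl) <;> assumption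
      rw [this, sum_pair hpq] at h0
      exact hpq (h.ev_inj (z2_eq h0))
  · exfalso
    by_cases hr : r ∈ s
    · have : s = {p, r} := by
        ext x
        simp only [mem_insert, mem_singleton]
        constructor
        · intro hx
          rcases hs x hx with rfl | rfl | rfl
          · exact Or.inl rfl
          · exact absurd hx hq
          · exact Or.inr rfl
        · rintro (rfl | rfl) <;> assumption
      rw [this, sum_pair hpr] at h0
      exact hpr (h.ev_inj (z2_eq h0))
    · have : s = {p} := by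
        ext x
        simp only [mem_singleton]
        constructor
        · intro hx
          rcases hs x hx with rfl | rfl | rfl
          · rfl
          · exact absurd hx hq
          · exact absurd hx hr
        · rintro rfl; assumption
      rw [this, sum_singleton] at h0
      exact h.ev_ne p h0

theorem rel_ne (h : UCtx a) {p q r : a.E} (h0 : ev a p + ev a q + ev a r = 0) :
    p ≠ q ∧ p ≠ r ∧ q ≠ r := by
  refine ⟨?_, ?_, ?_⟩
  · rintro rfl
    rw [z2_self, zero_add] at h0
    exact h.ev_ne _ h0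
  · rintro rfl
    rw [add_comm (ev a p), add_assoc, z2_self, add_zero] at h0
    exact h.ev_ne _ h0
  · rintro rfl
    rw [add_assoc, z2_self, add_zero] at h0
    exact h.ev_ne _ h0

theorem rel_sum (h : UCtx a) {p q r : a.E} (h0 : ev a p + ev a q + ev a r = 0) :
    ∑ e ∈ ({p, q, r} : Finset a.E), ev a e = 0 := by
  obtain ⟨h1, h2, h3⟩ := h.rel_ne h0
  rw [sum_insert (by simp [h1, h2]), sum_insert (by simp [h3]), sum_singleton, ← add_assoc]
  exact h0

/-- One half of the crossing argument. -/
theorem crossing (h : UCtx a) {x : a.V} {e1 e2 e3 g2 g3 : a.E}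
    (m1 : e1 ∈ star a x) (m2 : e2 ∈ star a x) (m3 : e3 ∈ star a x)
    (r2 : ev a e1 + ev a e2 + ev a g2 = 0) (r3 : ev a e1 + ev a e3 + ev a g3 = 0)
    (h23 : e2 ≠ e3) (n2 : e3 ≠ g2) (n3 : e2 ≠ g3) :
    ev a e2 + ev a g2 + ev a g3 = 0 := by
  classical
  obtain ⟨d1, d2, d3⟩ := h.rel_ne r2
  obtain ⟨c1, c2, c3⟩ := h.rel_ne r3
  have hg : g2 ≠ g3 := by
    rintro rfl
    apply h23
    apply h.ev_inj
    have h1 := z2_eq r2
    have h2 := z2_eq r3
    rw [← h2] at h1
    exact add_left_cancel h1
  obtain ⟨W, hWx, hW⟩ := exists_side a _ (h.rel_sum r2) x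
  obtain ⟨W', hWx', hW'⟩ := exists_side a _ (h.rel_sum r3) x
  have hs := side_rel a (fun y => W y ∧ ¬ W' y)
    (Finset.univ.filter (fun e => ¬ ((W (a.fst e) ∧ ¬ W' (a.fst e)) ↔ (W (a.snd e) ∧ ¬ W' (a.snd e)))))
    (fun e => by simp)
  apply h.sub3 d3 n3 hg _ _ _ hs
  · intro e he
    simp only [mem_filter, mem_univ, true_and] at he
    have k1 := hW e
    have k2 := hW' e
    simp only [mem_insert, mem_singleton] at k1 k2
    by_cases q1 : e = e1
    · exfalso
      subst q1
      obtain ⟨y, hy⟩ := exists_oth m1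
      have a1 := hy W
      have a2 := hy W'
      have a3 := hy (fun y => W y ∧ ¬ W' y)
      simp only [true_or, true_iff] at k1 k2
      rw [a1] at k1
      rw [a2] at k2
      rw [a3] at he
      have wy' : W' y := by
        by_contra hh
        exact k2 ⟨fun h => absurd h hWx', fun h => absurd h hh⟩
      exact he ⟨fun h => absurd h.1 hWx, fun h => absurd wy' h.2⟩
    by_cases q3 : e = e3
    · exfalso
      subst q3
      obtain ⟨y, hy⟩ := exists_oth m3
      have a1 := hy W
      have a3 := hy (fun y => W y ∧ ¬ W' y)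
      have b1 : ¬ (e = e1 ∨ e = e2 ∨ e = g2) := by
        rintro (h1 | h1 | h1)
        · exact q1 h1
        · exact h23 h1.symm
        · exact n2 h1
      rw [k1, a1] at b1
      rw [a3] at he
      have wy : ¬ W y := fun hh => hWx ((not_not.mp b1).mpr hh)
      exact he ⟨fun h => absurd h.1 hWx, fun h => absurd h.1 wy⟩
    by_cases q2 : e = e2
    · exact Or.inl q2
    by_cases q4 : e = g2
    · exact Or.inr (Or.inl q4)
    by_cases q5 : e = g3
    · exact Or.inr (Or.inr q5)
    exfalso
    have b1 : ¬ (e = e1 ∨ e = e2 ∨ e = g2) := by tauto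
    have b2 : ¬ (e = e1 ∨ e = e3 ∨ e = g3) := by tauto
    rw [k1, not_not] at b1
    rw [k2, not_not] at b2
    exact he (by rw [b1, b2])
  · simp only [mem_filter, mem_univ, true_and]
    have k1 := hW e2
    have k2 := hW' e2
    simp only [mem_insert, mem_singleton] at k1 k2
    obtain ⟨y, hy⟩ := exists_oth m2
    have a1 := hy W
    have a2 := hy W'
    have a3 := hy (fun y => W y ∧ ¬ W' y)
    have b2 : ¬ (e2 = e1 ∨ e2 = e3 ∨ e2 = g3) := by
      rintro (h1 | h1 | h1)
      · exact d1 h1.symm
      · exact h23 h1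
      · exact n3 h1
    simp only [true_or, or_true, true_iff] at k1
    rw [a1] at k1
    rw [k2, a2] at b2
    rw [a3]
    have wy : W y := by
      by_contra hh
      exact k1 ⟨fun h => absurd h hWx, fun h => absurd h hh⟩
    have wy' : ¬ W' y := fun hh => hWx' ((not_not.mp b2).mpr hh)
    intro hcon
    exact hWx (hcon.mpr ⟨wy, wy'⟩).1

/-- Three edges at a vertex have sum zero. -/
theorem three (h : UCtx a) {x : a.V} {e1 e2 e3 : a.E} (m1 : e1 ∈ star a x)
    (m2 : e2 ∈ star a x) (m3 : e3 ∈ star a x) (h12 : e1 ≠ e2) (h13 : e1 ≠ e3) (h23 : e2 ≠ e3) :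
    ev a e1 + ev a e2 + ev a e3 = 0 := by
  obtain ⟨g2, r2⟩ := h.split_third h12 m1 m2
  obtain ⟨g3, r3⟩ := h.split_third h13 m1 m3
  by_cases n2 : e3 = g2
  · rw [n2]; exact r2
  by_cases n3 : e2 = g3
  · rw [n3, add_assoc, add_comm (ev a g3), ← add_assoc]; exact r3
  exfalso
  have k2 := h.crossing m1 m2 m3 r2 r3 h23 n2 n3
  have k3 := h.crossing m1 m3 m2 r3 r2 h23.symm n3 n2
  apply h23
  apply h.ev_inj
  rw [add_assoc] at k2 k3
  rw [add_comm (ev a g3)] at k3
  exact (z2_eq k2).trans (z2_eq k3).symm

/-- A universal core is cubic. -/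
theorem cubic (h : UCtx a) (v : a.V) : (star a v).card = 3 := by
  obtain ⟨e1, he1⟩ := h.noniso v
  rw [← mem_star] at he1
  have hs := h.star_sum v
  -- a second edge
  have h2 : ∃ e2 ∈ star a v, e2 ≠ e1 := by
    by_contra hcon
    push Not at hcon
    have : star a v = {e1} := by
      ext x
      rw [mem_singleton]
      exact ⟨hcon x, fun hx => by rw [hx]; exact he1⟩
    rw [this, sum_singleton] at hs
    exact h.ev_ne _ hs
  obtain ⟨e2, he2, h12⟩ := h2
  have h3 : ∃ e3 ∈ star a v, e3 ≠ e1 ∧ e3 ≠ e2 := by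
    by_contra hcon
    push Not at hcon
    have : star a v = {e1, e2} := by
      ext x
      simp only [mem_insert, mem_singleton]
      constructor
      · intro hx
        by_cases hx1 : x = e1
        · exact Or.inl hx1
        · exact Or.inr (hcon x hx hx1)
      · rintro (rfl | rfl) <;> assumption
    rw [this, sum_pair h12.symm] at hs
    exact h12 (h.ev_inj (z2_eq hs)).symm
  obtain ⟨e3, he3, h13, h23⟩ := h3
  have k3 := h.three he1 he2 he3 h12.symm h13.symm h23.symm
  have : star a v = {e1, e2, e3} := by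
    ext x
    simp only [mem_insert, mem_singleton]
    constructor
    · intro hx
      by_cases hx1 : x = e1
      · exact Or.inl hx1
      by_cases hx2 : x = e2
      · exact Or.inr (Or.inl hx2)
      have k4 := h.three he1 he2 hx h12.symm (Ne.symm hx1) (Ne.symm hx2)
      right; right
      apply h.ev_inj
      exact (z2_eq k4).symm.trans (z2_eq k3)
    · rintro (rfl | rfl | rfl) <;> assumption
  rw [this, card_insert_of_notMem (by simp [h12.symm, h13.symm]),
    card_insert_of_notMem (by simp [h23.symm]), card_singleton]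

end UCtx

end Pool.Agent.CCP
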