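import Pool.Agent.CCP.Base

/-!
# CCP: a universal core is cubic
-/

set_option autoImplicit false

namespace Pool.Agent.CCP.CU65

open Finset Pool.Agent.CCO

variable {a : FinGraph}

/-! ### Splitting off two edges at a vertex -/

/-- `a` with the ends at `v` of the edges `p`, `q` moved to a new vertex `none`, which is joined
to `v` by the new edge `none`. -/
@[reducible] def split (a : FinGraph) (v : a.V) (p q : a.E) : FinGraph where
  V := Option a.V
  E := Option a.E
  fintypeV := inferInstance
  fintypeE := inferInstance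
  decV := inferInstance
  decE := inferInstance
  fst := fun e => match e with
    | none => some v
    | some e => if (e = p ∨ e = q) ∧ a.fst e = v then none else some (a.fst e)
  snd := fun e => match e with
    | none => none
    | some e => if (e = p ∨ e = q) ∧ a.snd e = v then none else some (a.snd e)
  nonempty := ⟨none⟩

theorem bd_split_other (v : a.V) (p q : a.E) (φ : Option a.E → ZMod 2) (u : a.V) (hu : u ≠ v) :
    bd (split a v p q) φ (some u) = bd a (fun e => φ (some e)) u := by
  unfold bd
  rw [Fintype.sum_option]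
  have h1 : (if (split a v p q).fst none = some u then φ none else 0) = 0 := by
    rw [if_neg]
    show ¬ (some v = some u)
    intro h
    exact hu (Option.some.inj h).symm
  have h2 : (if (split a v p q).snd none = some u then φ none else 0) = 0 := by
    rw [if_neg]
    show ¬ ((none : Option a.V) = some u)
    intro h
    cases h
  rw [h1, h2, add_zero, zero_add]
  apply sum_congr rfl
  intro e _
  have k1 : ((split a v p q).fst (some e) = some u) ↔ a.fst e = u := by
    show (if (e = p ∨ e = q) ∧ a.fst e = v then none else some (a.fst e)) = some u ↔ _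
    by_cases h : (e = p ∨ e = q) ∧ a.fst e = v
    · rw [if_pos h]
      constructor
      · intro h'; cases h'
      · intro h'; exact absurd (h'.symm.trans h.2) hu
    · rw [if_neg h, Option.some.injEq]
  have k2 : ((split a v p q).snd (some e) = some u) ↔ a.snd e = u := by
    show (if (e = p ∨ e = q) ∧ a.snd e = v then none else some (a.snd e)) = some u ↔ _
    by_cases h : (e = p ∨ e = q) ∧ a.snd e = v
    · rw [if_pos h]
      constructor
      · intro h'; cases h'
      · intro h'; exact absurd (h'.symm.trans h.2) hu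
    · rw [if_neg h, Option.some.injEq]
  simp only [k1, k2]

theorem bd_split_none (hl : ∀ e : a.E, a.fst e ≠ a.snd e) {v : a.V} {p q : a.E} (hpq : p ≠ q)
    (hp : p ∈ star a v) (hq : q ∈ star a v) (φ : Option a.E → ZMod 2) :
    bd (split a v p q) φ none = φ none + (φ (some p) + φ (some q)) := by
  unfold bd
  rw [Fintype.sum_option]
  have h1 : (if (split a v p q).fst none = none then φ none else 0) = 0 := by
    rw [if_neg]
    show ¬ (some v = none)
    intro h
    cases h
  have h2 : (if (split a v p q).snd none = none then φ none else 0) = φ none := by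
    rw [if_pos]
    rfl
  rw [h1, h2, zero_add]
  congr 1
  have h3 : ∀ e : a.E, ((if (split a v p q).fst (some e) = none then φ (some e) else 0) +
      (if (split a v p q).snd (some e) = none then φ (some e) else 0)) =
      if e ∈ ({p, q} : Finset a.E) then φ (some e) else 0 := by
    intro e
    have k1 : ((split a v p q).fst (some e) = none) ↔ (e = p ∨ e = q) ∧ a.fst e = v := by
      show (if (e = p ∨ e = q) ∧ a.fst e = v then none else some (a.fst e)) = none ↔ _
      by_cases h : (e = p ∨ e = q) ∧ a.fst e = v
      · rw [if_pos h]; exact ⟨fun _ => h, fun _ => rfl⟩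
      · rw [if_neg h]; exact ⟨fun h' => (by cases h'), fun h' => absurd h' h⟩
    have k2 : ((split a v p q).snd (some e) = none) ↔ (e = p ∨ e = q) ∧ a.snd e = v := by
      show (if (e = p ∨ e = q) ∧ a.snd e = v then none else some (a.snd e)) = none ↔ _
      by_cases h : (e = p ∨ e = q) ∧ a.snd e = v
      · rw [if_pos h]; exact ⟨fun _ => h, fun _ => rfl⟩
      · rw [if_neg h]; exact ⟨fun h' => (by cases h'), fun h' => absurd h' h⟩
    simp only [k1, k2, mem_insert, mem_singleton]
    by_cases hepq : e = p ∨ e = q
    · have hstar : a.fst e = v ∨ a.snd e = v := by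
        rcases hepq with rfl | rfl
        · exact mem_star.1 hp
        · exact mem_star.1 hq
      have hne := hl e
      rcases hstar with h | h
      · have h' : a.snd e ≠ v := fun h' => hne (h.trans h'.symm)
        simp [hepq, h, h']
      · have h' : a.fst e ≠ v := fun h' => hne (h'.trans h.symm)
        simp [hepq, h, h']
    · simp [hepq]
  simp only [h3]
  rw [Finset.sum_ite_mem, univ_inter, sum_pair hpq]

/-- the sum of the boundaries at `v` and at the new vertex -/
theorem bd_split_some (v : a.V) (p q : a.E) (φ : Option a.E → ZMod 2) :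
    bd (split a v p q) φ (some v) + bd (split a v p q) φ none =
      bd a (fun e => φ (some e)) v := by
  have h := sum_bd (split a v p q) φ
  have h' := sum_bd a (fun e => φ (some e))
  rw [Fintype.sum_option, Fintype.sum_eq_add_sum_compl v] at h
  rw [Fintype.sum_eq_add_sum_compl v] at h'
  have h2 : ∑ u ∈ ({v}ᶜ : Finset a.V), bd (split a v p q) φ (some u) =
      ∑ u ∈ ({v}ᶜ : Finset a.V), bd a (fun e => φ (some e)) u := by
    apply sum_congr rfl
    intro u hu
    rw [mem_compl, mem_singleton] at hu
    exact bd_split_other v p q φ u hu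
  rw [h2] at h
  have h3 : (bd (split a v p q) φ (some v) + bd (split a v p q) φ none) +
      bd a (fun e => φ (some e)) v = 0 := by
    set S := ∑ u ∈ ({v}ᶜ : Finset a.V), bd a (fun e => φ (some e)) u
    have h4 : (bd (split a v p q) φ (some v) + bd (split a v p q) φ none) +
      bd a (fun e => φ (some e)) v = (bd (split a v p q) φ none +
        (bd (split a v p q) φ (some v) + S)) + (bd a (fun e => φ (some e)) v + S) + (S + S) := by
      have hSS : S + S = 0 := z2_self S
      have : (bd (split a v p q) φ none + (bd (split a v p q) φ (some v) + S)) +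
        (bd a (fun e => φ (some e)) v + S) + (S + S) =
        (bd (split a v p q) φ (some v) + bd (split a v p q) φ none) +
        bd a (fun e => φ (some e)) v + (S + S) + (S + S) := by ring
      rw [this, hSS, add_zero, add_zero]
    rw [h4, h, h', z2_self S]
    simp
  exact z2_eq h3

/-- flows extend to the split graph -/
theorem flow_split (hl : ∀ e : a.E, a.fst e ≠ a.snd e) {v : a.V} {p q : a.E} (hpq : p ≠ q)
    (hp : p ∈ star a v) (hq : q ∈ star a v) {φ : a.E → ZMod 2} (hφ : IsFlow a φ) :
    IsFlow (split a v p q) (fun e => Option.elim e (φ p + φ q) φ) := by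
  have hn : bd (split a v p q) (fun e => Option.elim e (φ p + φ q) φ) none = 0 := by
    rw [bd_split_none hl hpq hp hq]
    exact z2_self _
  intro u
  cases u with
  | none => exact hn
  | some u =>
    by_cases hu : u = v
    · subst hu
      have h := bd_split_some u p q (fun e => Option.elim e (φ p + φ q) φ)
      rw [hn, add_zero] at h
      rw [h]
      exact hφ u
    · rw [bd_split_other v p q _ u hu]
      exact hφ u

/-- flows of the split graph restrict to flows -/
theorem flow_of_split {v : a.V} {p q : a.E} {φ : Option a.E → ZMod 2}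
    (hφ : IsFlow (split a v p q) φ) : IsFlow a (fun e => φ (some e)) := by
  intro u
  by_cases hu : u = v
  · subst hu
    rw [← bd_split_some u p q φ, hφ, hφ, add_zero]
  · rw [← bd_split_other v p q φ u hu]
    exact hφ _

/-! ### Basic facts on the universal core -/

/-- three parallel edges -/
@[reducible] def theta3 : FinGraph where
  V := Bool
  E := Fin 3
  fintypeV := inferInstance
  fintypeE := inferInstance
  decV := inferInstance
  decE := inferInstance
  fst := fun _ => false
  snd := fun _ => true
  nonempty := ⟨0⟩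

theorem theta3_bridgeless : Bridgeless theta3 := by
  rw [bridgeless_iff]
  intro e
  refine ⟨fun x => if x = e + 1 then 0 else 1, ?_, ?_⟩
  · intro v
    revert v e
    decide
  · revert e
    decide

theorem exists_flow (h : UCtx a) (e : a.E) : ∃ φ, IsFlow a φ ∧ φ e = 1 :=
  (bridgeless_iff a).1 h.br e

theorem not_single (h : UCtx a) (e : a.E) : ∃ e', e' ≠ e := by
  by_contra hcon
  push Not at hcon
  obtain ⟨φ, hφ, hφe⟩ := exists_flow h e
  obtain ⟨f, hf⟩ := h.univ theta3 theta3_bridgeless
  have h1 := hf φ hφ false
  have h2 : ∀ x, φ (f x) = 1 := fun x => by rw [hcon (f x), hφe]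
  unfold bd at h1
  simp only [h2] at h1
  revert h1
  decide

theorem ev_ne (h : UCtx a) (e : a.E) : ev a e ≠ 0 := by
  intro he
  obtain ⟨φ, hφ, hφe⟩ := exists_flow h e
  have := congrArg (fun T : D a => T ⟨φ, hφ⟩) he
  simp only [ev_apply, LinearMap.zero_apply] at this
  rw [hφe] at this
  exact one_ne_zero this

theorem ev_inj (h : UCtx a) {e e' : a.E} (hee : ev a e = ev a e') : e = e' := by
  by_contra hne
  have hcc : CC a a (fun x => if x = e then e' else x) := by
    rw [cc_iff]
    intro v
    have : (fun x => ev a (if x = e then e' else x)) = ev a := by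
      funext x
      by_cases hx : x = e
      · rw [if_pos hx, hx, hee]
      · rw [if_neg hx]
    rw [this]
    exact bd_ev v
  have := (h.core _ hcc).1 (a₁ := e) (a₂ := e') (by simp [Ne.symm hne])
  exact hne this

theorem loopless (h : UCtx a) (e : a.E) : a.fst e ≠ a.snd e := by
  intro he
  obtain ⟨e', he'⟩ := not_single h e
  have hcc : CC a a (fun x => if x = e then e' else x) := by
    rw [cc_iff]
    intro v
    have h2 : (fun x => ev a (if x = e then e' else x)) =
        fun x => ev a x + (if x = e then ev a e + ev a e' else 0) := by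
      funext x
      by_cases hx : x = e
      · rw [if_pos hx, if_pos hx, hx, ← add_assoc, z2_self, zero_add]
      · rw [if_neg hx, if_neg hx, add_zero]
    rw [h2, bd_add, bd_ev, bd_ite, he, zero_add]
    exact z2_self _
  have := (h.core _ hcc).1 (a₁ := e) (a₂ := e') (by simp [he'])
  exact he' this.symm

/-- A cc map is invertible. -/
theorem exists_inv (h : UCtx a) {σ : a.E → a.E} (hσ : CC a a σ) :
    ∃ τ : a.E → a.E, CC a a τ ∧ (∀ e, τ (σ e) = e) ∧ ∀ e, σ (τ e) = e := by
  have hb := h.core σ hσ
  obtain ⟨τ, h1, h2⟩ := Function.bijective_iff_has_inverse.mp hb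
  refine ⟨τ, ?_, h1, h2⟩
  have hfin : Finite (Fl a) := inferInstance
  set T : Fl a → Fl a := fun φ => ⟨fun e => φ.1 (σ e), hσ φ.1 φ.2⟩ with hT
  have hinj : Function.Injective T := by
    intro φ ψ hφψ
    apply Subtype.ext
    funext e
    have h3 := congrArg (fun χ : Fl a => χ.1 (τ e)) hφψ
    simp only [hT] at h3
    rw [h2 e] at h3
    exact h3
  have hsurj := Finite.surjective_of_injective hinj
  intro φ hφ
  obtain ⟨ψ, hψ⟩ := hsurj ⟨φ, hφ⟩
  have h3 : (fun e => φ (τ e)) = ψ.1 := by
    funext e
    have h4 := congrArg (fun χ : Fl a => χ.1 (τ e)) hψ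
    simp only [hT] at h4
    rw [h2 e] at h4
    exact h4.symm
  rw [h3]
  exact ψ.2

/-- any two edges at a vertex are completed by a third edge to a cut -/
theorem exists_third (h : UCtx a) {v : a.V} {p q : a.E} (hpq : p ≠ q) (hp : p ∈ star a v)
    (hq : q ∈ star a v) : ∃ g, ev a p + ev a q + ev a g = 0 := by
  have hl := loopless h
  have hbr : Bridgeless (split a v p q) := by
    rw [bridgeless_iff]
    intro e
    cases e with
    | some e =>
      obtain ⟨φ, hφ, hφe⟩ := exists_flow h e
      exact ⟨_, flow_split hl hpq hp hq hφ, hφe⟩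
    | none =>
      have hex : ∃ φ : Fl a, φ.1 p + φ.1 q ≠ 0 := by
        by_contra hcon
        push Not at hcon
        apply hpq
        apply ev_inj h
        apply LinearMap.ext
        intro φ
        rw [ev_apply, ev_apply]
        exact z2_eq (hcon φ)
      obtain ⟨φ, hφ⟩ := hex
      refine ⟨_, flow_split hl hpq hp hq φ.2, ?_⟩
      show φ.1 p + φ.1 q = 1
      rcases zmod2_cases (φ.1 p + φ.1 q) with h1 | h1
      · exact absurd h1 hφ
      · exact h1
  obtain ⟨f, hf⟩ := h.univ _ hbr
  have hσ : CC a a (fun e => f (some e)) := by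
    intro φ hφ
    exact flow_of_split (hf φ hφ)
  obtain ⟨τ, hτ, hτ1, _⟩ := exists_inv h hσ
  refine ⟨τ (f none), ?_⟩
  apply LinearMap.ext
  intro φ
  have h1 := hf _ (hτ φ.1 φ.2) none
  rw [bd_split_none hl hpq hp hq] at h1
  simp only [hτ1] at h1
  rw [LinearMap.add_apply, LinearMap.add_apply, ev_apply, ev_apply, ev_apply,
    LinearMap.zero_apply, add_comm]
  exact h1

/-- the potential of a relation between three edges, vanishing at a given vertex -/
theorem exists_pot (p q g : a.E) (hpq : p ≠ q) (hpg : p ≠ g) (hqg : q ≠ g)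
    (hs : ev a p + ev a q + ev a g = 0) (x : a.V) :
    ∃ w : a.V → ZMod 2, w x = 0 ∧ ∀ e, w (a.fst e) + w (a.snd e) =
      if e = p ∨ e = q ∨ e = g then 1 else 0 := by
  obtain ⟨w, hw⟩ := exists_potential a (fun e => if e = p ∨ e = q ∨ e = g then 1 else 0) (by
    intro φ hφ
    have h1 := congrArg (fun T : D a => T ⟨φ, hφ⟩) hs
    simp only [LinearMap.add_apply, ev_apply, LinearMap.zero_apply] at h1
    have h2 : ∀ e, (if e = p ∨ e = q ∨ e = g then (1 : ZMod 2) else 0) * φ e =
        if e ∈ ({p, q, g} : Finset a.E) then φ e else 0 := by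
      intro e
      simp only [mem_insert, mem_singleton, ite_mul, one_mul, zero_mul]
    simp only [h2]
    rw [Finset.sum_ite_mem, univ_inter, sum_insert (by simp [hpq, hpg]), sum_pair hqg, ← h1]
    ring)
  refine ⟨fun v => w v + w x, z2_self _, fun e => ?_⟩
  rw [hw e]
  have := z2_self (w x)
  calc w (a.fst e) + w x + (w (a.snd e) + w x) = w (a.fst e) + w (a.snd e) + (w x + w x) := by ring
    _ = _ := by rw [this, add_zero]

/-- three edges at a vertex sum to zero -/
theorem three_sum (h : UCtx a) {x : a.V} {e1 e2 e3 : a.E} (h12 : e1 ≠ e2) (h13 : e1 ≠ e3)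
    (h23 : e2 ≠ e3) (m1 : e1 ∈ star a x) (m2 : e2 ∈ star a x) (m3 : e3 ∈ star a x) :
    ev a e1 + ev a e2 + ev a e3 = 0 := by
  obtain ⟨g, hg⟩ := exists_third h h12 m1 m2
  obtain ⟨g', hg'⟩ := exists_third h h13 m1 m3
  by_cases c1 : g = e3
  · rw [c1] at hg; exact hg
  by_cases c2 : g' = e2
  · rw [c2] at hg'
    rw [← hg']
    abel
  exfalso
  have key : ∀ {p q r : a.E}, ev a p + ev a q + ev a r = 0 → p ≠ r ∧ q ≠ r := by
    intro p q r hs
    constructor
    · rintro rfl
      apply ev_ne h q
      have : ev a p + ev a q + ev a p = ev a q + (ev a p + ev a p) := by abel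
      rw [this, z2_self, add_zero] at hs
      exact hs
    · rintro rfl
      apply ev_ne h p
      rw [add_assoc, z2_self, add_zero] at hs
      exact hs
  obtain ⟨k1, k2⟩ := key hg
  obtain ⟨k3, k4⟩ := key hg'
  obtain ⟨w, hwx, hw⟩ := exists_pot e1 e2 g h12 k1 k2 hg x
  obtain ⟨w', hwx', hw'⟩ := exists_pot e1 e3 g' h13 k3 k4 hg' x
  set c : a.E → ZMod 2 := fun e => w (a.fst e) * (1 + w' (a.fst e)) +
    w (a.snd e) * (1 + w' (a.snd e)) with hc
  have hrel : ∑ e, c e • ev a e = 0 := by
    rw [← bd_pair a (ev a) (fun v => w v * (1 + w' v))]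
    apply sum_eq_zero
    intro v _
    rw [bd_ev, smul_zero]
  -- the value of `c` at an edge of `x`
  have hcx : ∀ e ∈ star a x, c e = (if e = e1 ∨ e = e2 ∨ e = g then 1 else 0) *
      (1 + if e = e1 ∨ e = e3 ∨ e = g' then 1 else 0) := by
    intro e he
    rw [← hw e, ← hw' e, hc]
    rcases mem_star.1 he with h1 | h1
    · simp only [h1, hwx, hwx']; ring
    · simp only [h1, hwx, hwx']; ring
  have hc1 : c e1 = 0 := by
    rw [hcx e1 m1, if_pos (Or.inl rfl), if_pos (Or.inl rfl)]; decide
  have hc2 : c e2 = 1 := by
    rw [hcx e2 m2, if_pos (Or.inr (Or.inl rfl)), if_neg (by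
      push Not; exact ⟨h12.symm, h23, fun h => c2 h.symm⟩)]; decide
  have hc3 : c e3 = 0 := by
    rw [hcx e3 m3, if_neg (by
      push Not; exact ⟨h13.symm, h23.symm, fun h => c1 h.symm⟩)]; ring
  have hc0 : ∀ e, e ∉ ({e2, g, g'} : Finset a.E) → c e = 0 := by
    intro e he
    simp only [mem_insert, mem_singleton, not_or] at he
    by_cases a1 : e = e1
    · rw [a1]; exact hc1
    by_cases a3 : e = e3
    · rw [a3]; exact hc3
    have b1 := hw e
    have b2 := hw' e
    rw [if_neg (by push Not; exact ⟨a1, he.1, he.2.1⟩)] at b1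
    rw [if_neg (by push Not; exact ⟨a1, a3, he.2.2⟩)] at b2
    rw [hc]
    simp only [z2_eq b1, z2_eq b2]
    exact z2_self _
  have hsum : ∑ e ∈ ({e2, g, g'} : Finset a.E), c e • ev a e = 0 := by
    rw [← hrel]
    apply sum_subset (subset_univ _)
    intro e _ he
    rw [hc0 e he, zero_smul]
  have d2 : e2 ≠ g' := fun h => c2 h.symm
  by_cases hgg : g = g'
  · subst hgg
    rw [insert_eq_self.2 (by simp : g ∈ ({g} : Finset a.E)), sum_pair k2, hc2, one_smul] at hsum
    rcases zmod2_cases (c g) with h0 | h0
    · rw [h0, zero_smul, add_zero] at hsum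
      exact ev_ne h _ hsum
    · rw [h0, one_smul] at hsum
      exact k2 (ev_inj h (z2_eq hsum))
  · rw [sum_insert (by simp [k2, d2]), sum_pair hgg, hc2, one_smul] at hsum
    rcases zmod2_cases (c g) with h0 | h0 <;> rcases zmod2_cases (c g') with h0' | h0'
    · rw [h0, h0', zero_smul, zero_smul, add_zero, add_zero] at hsum
      exact ev_ne h _ hsum
    · rw [h0, h0', zero_smul, one_smul, zero_add] at hsum
      exact d2 (ev_inj h (z2_eq hsum))
    · rw [h0, h0', zero_smul, one_smul, add_zero] at hsum
      exact k2 (ev_inj h (z2_eq hsum))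
    · rw [h0, h0', one_smul, one_smul] at hsum
      apply ev_ne h e3
      have e1' : ev a e3 = (ev a e2 + (ev a g + ev a g')) + (ev a e1 + ev a e2 + ev a g) +
          (ev a e1 + ev a e3 + ev a g') + (ev a e1 + ev a e1) + (ev a e2 + ev a e2) +
          (ev a g + ev a g) + (ev a g' + ev a g') + (ev a e1 + ev a e1) + (ev a e1 + ev a e1) +
          (ev a e2 + ev a e2) := by
        simp only [z2_self, add_zero]
        have t1 : (ev a e2 + (ev a g + ev a g')) + (ev a e1 + ev a e2 + ev a g) +
          (ev a e1 + ev a e3 + ev a g') = ev a e3 + (ev a e2 + ev a e2) + (ev a g + ev a g) +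
            (ev a g' + ev a g') + (ev a e1 + ev a e1) := by abel
        rw [t1]
        simp only [z2_self, add_zero]
      rw [e1', hsum, hg, hg']
      simp only [z2_self, add_zero]

/-- **A universal core is cubic.** -/
theorem cubic (h : UCtx a) (v : a.V) : (star a v).card = 3 := by
  have hsum : ∑ e ∈ star a v, ev a e = 0 := by
    rw [← bd_eq_star (loopless h)]
    exact bd_ev v
  have hle : (star a v).card ≤ 3 := by
    by_contra hcon
    push Not at hcon
    obtain ⟨T, hT, hTc⟩ := exists_subset_card_eq (s := star a v) (n := 4) (by omega)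
    rw [card_eq_succ] at hTc
    obtain ⟨p, T', hpT, rfl, hT'⟩ := hTc
    rw [card_eq_three] at hT'
    obtain ⟨q, r, s, hqr, hqs, hrs, rfl⟩ := hT'
    simp only [mem_insert, mem_singleton, not_or] at hpT
    have m : ∀ e ∈ ({p, q, r, s} : Finset a.E), e ∈ star a v := fun e he => hT he
    have s1 := three_sum h hpT.1 hpT.2.1 hqr (m p (by simp)) (m q (by simp)) (m r (by simp))
    have s2 := three_sum h hpT.1 hpT.2.2 hqs (m p (by simp)) (m q (by simp)) (m s (by simp))
    apply hrs
    apply ev_inj h
    apply z2_eq
    have t1 : ev a r + ev a s = (ev a p + ev a q + ev a r) + (ev a p + ev a q + ev a s) +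
        (ev a p + ev a p) + (ev a q + ev a q) := by
      have t2 : (ev a p + ev a q + ev a r) + (ev a p + ev a q + ev a s) +
        (ev a p + ev a p) + (ev a q + ev a q) = ev a r + ev a s + (ev a p + ev a p) +
        (ev a q + ev a q) + (ev a p + ev a p) + (ev a q + ev a q) := by abel
      rw [t2]
      simp only [z2_self, add_zero]
    rw [t1, s1, s2]
    simp only [z2_self, add_zero]
  obtain ⟨e0, he0⟩ := h.noniso v
  have he0' : e0 ∈ star a v := mem_star.2 he0
  have hpos : 0 < (star a v).card := card_pos.2 ⟨e0, he0'⟩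
  have h1 : (star a v).card ≠ 1 := by
    intro hc
    obtain ⟨e, he⟩ := card_eq_one.1 hc
    rw [he, sum_singleton] at hsum
    exact ev_ne h e hsum
  have h2 : (star a v).card ≠ 2 := by
    intro hc
    obtain ⟨e, e', hne, he⟩ := card_eq_two.1 hc
    rw [he, sum_pair hne] at hsum
    exact hne (ev_inj h (z2_eq hsum))
  omega

end Pool.Agent.CCP.CU65
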