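import Pool.Agent.CCP.Seven
import Pool.Agent.CCP.Base

/-!
# [CCP-Eight] the end of the proof: `C → Petersen` (helper33)
-/

set_option autoImplicit false
set_option maxRecDepth 20000

namespace Pool.Agent.CCP

open Finset Pool.Agent.CCO

theorem pet_fst (e : Fin 3 × Fin 5) : e = pa (Pet.fst e) ∨ e = pb (Pet.fst e) ∨ e = pn (Pet.fst e) := by
  revert e
  decide

theorem pet_snd (e : Fin 3 × Fin 5) : e = pa (Pet.snd e) ∨ e = pb (Pet.snd e) ∨ e = pn (Pet.snd e) := by
  revert e
  decide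

/-- standard position of the matching -/
theorem le_of_std {C : FinGraph} (hC : Nice C) (M : C.E → Prop) (f : Fin 3 × Fin 5 → C.E) (Φ : Fin 2 × Fin 5 → C.V)
    (hf : ∀ x, Tri C (Φ x) (f (pa x)) (f (pb x)) (f (pn x))) (hM : ∀ e, M (f e) ↔ e.1 = 1) : Le C Pet := by
  have hinj := inj_of hC M f Φ hf hM
  have hfst : ∀ e, f e ∈ star C (Φ (Pet.fst e)) := by
    intro e
    have h := hf (Pet.fst e)
    rcases pet_fst e with h1 | h1 | h1
    · have := h.mem1
      rwa [← h1] at this
    · have := h.mem2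
      rwa [← h1] at this
    · have := h.mem3
      rwa [← h1] at this
  have hsnd : ∀ e, f e ∈ star C (Φ (Pet.snd e)) := by
    intro e
    have h := hf (Pet.snd e)
    rcases pet_snd e with h1 | h1 | h1
    · have := h.mem1
      rwa [← h1] at this
    · have := h.mem2
      rwa [← h1] at this
    · have := h.mem3
      rwa [← h1] at this
  have hne : ∀ e, Φ (Pet.fst e) ≠ Φ (Pet.snd e) := fun e h => pet_noloop e (hinj h)
  have hfi : Function.Injective f := by
    intro e e' h
    refine pet_simple e e' ?_ ?_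
    · have h1 := hfst e
      rw [h] at h1
      rcases ends2 (hne e') (hfst e') (hsnd e') h1 with h2 | h2
      · exact Or.inl (hinj h2)
      · exact Or.inr (hinj h2)
    · have h1 := hsnd e
      rw [h] at h1
      rcases ends2 (hne e') (hfst e') (hsnd e') h1 with h2 | h2
      · exact Or.inl (hinj h2)
      · exact Or.inr (hinj h2)
  have hcov : ∀ x e, e ∈ star C (Φ x) → ∃ ε, e = f ε := by
    intro x e he
    rcases (hf x).cases he with h | h | h
    · exact ⟨_, h⟩
    · exact ⟨_, h⟩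
    · exact ⟨_, h⟩
  have hW : ∀ ε u, f ε ∈ star C u → ∃ x, u = Φ x := by
    intro ε u hu
    rcases ends2 (hne ε) (hfst ε) (hsnd ε) hu with h | h
    · exact ⟨_, h⟩
    · exact ⟨_, h⟩
  have h0 : cut C (univ.image Φ) = ∅ := by
    rw [eq_empty_iff_forall_notMem]
    intro e he
    simp only [cut, mem_filter, mem_univ, true_and, mem_image] at he
    apply he
    constructor
    · rintro ⟨x, hx⟩
      obtain ⟨ε, rfl⟩ := hcov x e (by rw [hx]; exact fst_mem_star e)
      obtain ⟨y, hy⟩ := hW ε _ (snd_mem_star _)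
      exact ⟨y, hy.symm⟩
    · rintro ⟨x, hx⟩
      obtain ⟨ε, rfl⟩ := hcov x e (by rw [hx]; exact snd_mem_star e)
      obtain ⟨y, hy⟩ := hW ε _ (fst_mem_star _)
      exact ⟨y, hy.symm⟩
  have hsurj : Function.Surjective f := by
    intro e
    rcases hC.conn _ h0 with h | h
    · have h1 := h e
      simp only [mem_image, mem_univ, true_and] at h1
      obtain ⟨x, hx⟩ := h1
      obtain ⟨ε, hε⟩ := hcov x e (by rw [hx]; exact fst_mem_star e)
      exact ⟨ε, hε.symm⟩
    · exfalso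
      apply h (f (0, 0))
      obtain ⟨y, hy⟩ := hW (0, 0) _ (fst_mem_star _)
      rw [hy]
      exact mem_image_of_mem Φ (mem_univ y)
  obtain ⟨g, hg⟩ := hsurj.hasRightInverse
  have hg2 : ∀ ε, g (f ε) = ε := fun ε => hfi (hg (f ε))
  refine ⟨g, fun φ hφ v => ?_⟩
  rw [bd_eq_star hC.noloop]
  by_cases hv : ∃ x, v = Φ x
  · obtain ⟨x, rfl⟩ := hv
    rw [(hf x).sum, hg2, hg2, hg2]
    have := hφ x
    rwa [bd_pet] at this
  · apply sum_eq_zero
    intro e he
    obtain ⟨ε, rfl⟩ := hsurj e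
    exact absurd (hW ε v he) hv

theorem one3_of_card {C : FinGraph} {v : C.V} {p q r : C.E} (h : Tri C v p q r) (M : Finset C.E)
    (hM : (M ∩ star C v).card = 1) : one3 (decide (p ∈ M)) (decide (q ∈ M)) (decide (r ∈ M)) = true := by
  obtain ⟨e, he⟩ := card_eq_one.1 hM
  have h0 : ∀ x, (x ∈ M ∧ x ∈ star C v) ↔ x = e := by
    intro x
    rw [← mem_inter, he, mem_singleton]
  have h1 : e ∈ star C v := ((h0 e).2 rfl).2
  have hp := h0 p
  have hq := h0 q
  have hr := h0 r
  have m1 := h.mem1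
  have m2 := h.mem2
  have m3 := h.mem3
  have n1 := h.2.1
  have n2 := h.2.2.1
  have n3 := h.2.2.2
  rcases h.cases h1 with rfl | rfl | rfl
  · have a1 : e ∈ M := (hp.2 rfl).1
    have a2 : q ∉ M := fun h => n1 (hq.1 ⟨h, m2⟩).symm
    have a3 : r ∉ M := fun h => n2 (hr.1 ⟨h, m3⟩).symm
    simp [one3, a1, a2, a3]
  · have a1 : e ∈ M := (hq.2 rfl).1
    have a2 : p ∉ M := fun h => n1 (hp.1 ⟨h, m1⟩)
    have a3 : r ∉ M := fun h => n3 (hr.1 ⟨h, m3⟩).symm
    simp [one3, a1, a2, a3]
  · have a1 : e ∈ M := (hr.2 rfl).1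
    have a2 : p ∉ M := fun h => n2 (hp.1 ⟨h, m1⟩)
    have a3 : q ∉ M := fun h => n3 (hq.1 ⟨h, m2⟩)
    simp [one3, a1, a2, a3]

/-- the images of the stars of the Petersen graph -/
theorem exists_Phi {C : FinGraph} (hC : Nice C) {f : Pet.E → C.E} (hf : CC Pet C f) :
    ∃ Φ : Fin 2 × Fin 5 → C.V, ∀ x, Tri C (Φ x) (f (pa x)) (f (pb x)) (f (pn x)) := by
  have h : ∀ x : Fin 2 × Fin 5, ∃ v, Tri C v (f (pa x)) (f (pb x)) (f (pn x)) := by
    intro x
    refine img3 hC fun φ hφ => ?_
    have h1 := hf φ hφ x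
    rwa [bd_pet (fun e => φ (f e)) x] at h1
  choose Φ hΦ using h
  exact ⟨Φ, hΦ⟩

/-- **Step 7.** -/
theorem seven {C : FinGraph} (hC : Nice C) (M : Finset C.E) (hM : ∀ v, (star C v).Nonempty → (M ∩ star C v).card = 1)
    (hf : Le Pet C) : Le C Pet := by
  obtain ⟨f, hf⟩ := hf
  obtain ⟨Φ, hΦ⟩ := exists_Phi hC hf
  obtain ⟨σ, h1, -, h3⟩ := pm_std (fun e => decide (f e ∈ M)) (fun x =>
    one3_of_card (hΦ x) M (hM _ ⟨_, (hΦ x).mem1⟩))
  have hf' : CC Pet C (fun e => f (σ e)) := @cc_comp Pet Pet C f σ hf h1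
  obtain ⟨Ψ, hΨ⟩ := exists_Phi hC hf'
  have h4 : ∀ e : Fin 3 × Fin 5, (f (σ e) ∈ M) ↔ e.1 = 1 := by
    intro e
    have h5 : decide (f (σ e) ∈ M) = decide (e.1 = 1) := h3 e
    exact decide_eq_decide.1 h5
  exact le_of_std hC (· ∈ M) (fun e => f (σ e)) Ψ hΨ h4

/-! ### The Petersen graph of `Base` -/

/-- the isomorphism on the edges -/
def isoE (e : Fin 3 × Fin 5) : Fin 3 × ZMod 5 := (if e.1 = 0 then 0 else if e.1 = 1 then 2 else 1, e.2)

/-- the isomorphism on the edges -/
def isoE' (e : Fin 3 × ZMod 5) : Fin 3 × Fin 5 := (if e.1 = 0 then 0 else if e.1 = 1 then 2 else 1, e.2)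

theorem zz_a : ∀ i j : ZMod 5, j + 1 = i ↔ j = i + 4 := by decide
theorem zz_b : ∀ i j : ZMod 5, j + 2 = i ↔ j = i + 3 := by decide
theorem zz_c : ∀ i : ZMod 5, i + 4 ≠ i := by decide
theorem zz_d : ∀ i : ZMod 5, i + 3 ≠ i := by decide

theorem pet_loopless : ∀ e : Fin 3 × ZMod 5, Petersen.fst e ≠ Petersen.snd e := by decide

/-- the three edges at an outer vertex -/
theorem tri_outer (i : ZMod 5) : Tri Petersen (false, i) (0, i + 4) (0, i) (2, i) := by
  refine ⟨?_, ?_, ?_, ?_⟩
  · ext ⟨c, j⟩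
    rw [mem_star]
    fin_cases c
    · have := zz_a i j
      simp [or_comm, this]
    · simp
    · simp
  · intro h
    exact zz_c i (congrArg Prod.snd h)
  · intro h
    have := congrArg Prod.fst h
    simp at this
  · intro h
    have := congrArg Prod.fst h
    simp at this

/-- the three edges at an inner vertex -/
theorem tri_inner (i : ZMod 5) : Tri Petersen (true, i) (1, i + 3) (1, i) (2, i) := by
  refine ⟨?_, ?_, ?_, ?_⟩
  · ext ⟨c, j⟩
    rw [mem_star]
    fin_cases c
    · simp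
    · have := zz_b i j
      simp [or_comm, this]
    · simp
  · intro h
    exact zz_d i (congrArg Prod.snd h)
  · intro h
    have := congrArg Prod.fst h
    simp at this
  · intro h
    have := congrArg Prod.fst h
    simp at this

theorem le_pet_petersen : Le Pet Petersen := by
  unfold Le
  use isoE
  intro φ hφ x
  rw [bd_pet (fun e => φ (isoE e)) x]
  obtain ⟨s, i⟩ := x
  fin_cases s
  · have h := hφ (false, i)
    rw [bd_eq_star pet_loopless, (tri_outer i).sum] at h
    exact h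
  · have h := hφ (true, i)
    rw [bd_eq_star pet_loopless, (tri_inner i).sum] at h
    exact h

theorem le_petersen_pet : Le Petersen Pet := by
  unfold Le
  use isoE'
  intro φ hφ x
  obtain ⟨s, i⟩ := x
  rw [bd_eq_star pet_loopless]
  cases s
  · have h := (bd_pet φ (0, i)).symm.trans (hφ ((0 : Fin 2), i))
    rw [(tri_outer i).sum]
    exact h
  · have h := (bd_pet φ (1, i)).symm.trans (hφ ((1 : Fin 2), i))
    rw [(tri_inner i).sum]
    exact h

/-- **Step 7** for the Petersen graph of `Base` -/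
theorem le_petersen {C : FinGraph} (hC : Nice C) (M : Finset C.E)
    (hM : ∀ v, (star C v).Nonempty → (M ∩ star C v).card = 1) (hf : Le Petersen C) : Le C Petersen :=
  le_trans' (seven hC M hM (le_trans' le_pet_petersen hf)) le_pet_petersen

end Pool.Agent.CCP
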