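import Pool.Agent.CCP.Cubic65

/-!
# CCP: relations and cuts, the gluing theorem, connectedness
-/

set_option autoImplicit false

namespace Pool.Agent.CCP.CU65

open Finset Pool.Agent.CCO

variable {a : FinGraph}

theorem star_sum (h : UCtx a) (v : a.V) : ∑ e ∈ star a v, ev a e = 0 := by
  rw [← bd_eq_star (loopless h)]
  exact bd_ev v

theorem tri_ev (h : UCtx a) {v : a.V} {p q r : a.E} (ht : Tri a v p q r) :
    ev a p + ev a q + ev a r = 0 := by
  rw [← star_sum h v]
  exact (ht.sum (ev a)).symm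

/-- relations between edges are preserved by cc maps -/
theorem push (h : UCtx a) {σ : a.E → a.E} (hσ : CC a a σ) (s : Finset a.E)
    (hs : ∑ e ∈ s, ev a e = 0) : ∑ e ∈ s, ev a (σ e) = 0 := by
  apply LinearMap.ext
  intro φ
  rw [ev_sum_apply s σ φ, LinearMap.zero_apply]
  have h1 := congrArg (fun T : D a => T ⟨fun e => φ.1 (σ e), hσ φ.1 φ.2⟩) hs
  simp only [LinearMap.zero_apply] at h1
  rw [ev_sum_apply s (fun e => e)] at h1
  exact h1

/-- a relation is a cut -/
theorem exists_cut (h : UCtx a) (s : Finset a.E) (hs : ∑ e ∈ s, ev a e = 0) :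
    ∃ w : a.V → ZMod 2, ∀ e, (e ∈ s ↔ w (a.fst e) ≠ w (a.snd e)) := by
  obtain ⟨w, hw⟩ := exists_potential a (fun e => if e ∈ s then 1 else 0) (by
    intro φ hφ
    have h1 := congrArg (fun T : D a => T ⟨φ, hφ⟩) hs
    simp only [LinearMap.zero_apply] at h1
    rw [ev_sum_apply s (fun e => e)] at h1
    simp only [ite_mul, one_mul, zero_mul]
    rw [Finset.sum_ite_mem, univ_inter]
    exact h1)
  refine ⟨w, fun e => ?_⟩
  have h1 := hw e
  by_cases he : e ∈ s
  · rw [if_pos he] at h1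
    refine ⟨fun _ h2 => ?_, fun _ => he⟩
    rw [h2, z2_self] at h1
    exact one_ne_zero h1
  · rw [if_neg he] at h1
    exact ⟨fun h' => absurd h' he, fun h2 => absurd (z2_eq h1.symm) h2⟩

/-- a cut is a relation -/
theorem cut_rel (h : UCtx a) (w : a.V → ZMod 2) (s : Finset a.E)
    (hs : ∀ e, (e ∈ s ↔ w (a.fst e) ≠ w (a.snd e))) : ∑ e ∈ s, ev a e = 0 := by
  have h1 := bd_pair a (ev a) w
  have h2 : ∑ v, w v • bd a (ev a) v = 0 := by
    apply sum_eq_zero
    intro v _
    rw [bd_ev, smul_zero]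
  rw [h2] at h1
  rw [h1, ← univ_inter s, ← Finset.sum_ite_mem]
  apply sum_congr rfl
  intro e _
  have h3 := hs e
  by_cases he : e ∈ s
  · rw [if_pos he]
    have h4 := h3.1 he
    have h5 : w (a.fst e) + w (a.snd e) = 1 := by
      rcases zmod2_cases (w (a.fst e)) with k1 | k1 <;>
        rcases zmod2_cases (w (a.snd e)) with k2 | k2 <;> rw [k1, k2] at h4 ⊢ <;>
        first | exact absurd rfl h4 | decide
    rw [h5, one_smul]
  · rw [if_neg he]
    have h4 : w (a.fst e) = w (a.snd e) := by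
      by_contra hne
      exact he (h3.2 hne)
    rw [h4, z2_self, zero_smul]

/-! ### Opening a vertex of degree three -/

/-- where the end `x` of the edge `e` goes -/
def rl (G : FinGraph) (w : G.V) (t : Fin 3 → G.E) (x : G.V) (e : G.E) : G.V ⊕ Fin 3 :=
  if x = w then (if e = t 0 then Sum.inr 0 else if e = t 1 then Sum.inr 1 else
    if e = t 2 then Sum.inr 2 else Sum.inl w) else Sum.inl x

/-- `G` with the ends at `w` of `t 0`, `t 1`, `t 2` moved to three new vertices -/
@[reducible] def open3 (G : FinGraph) (w : G.V) (t : Fin 3 → G.E) : FinGraph where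
  V := G.V ⊕ Fin 3
  E := G.E
  fintypeV := inferInstance
  fintypeE := inferInstance
  decV := inferInstance
  decE := inferInstance
  fst := fun e => rl G w t (G.fst e) e
  snd := fun e => rl G w t (G.snd e) e
  nonempty := G.nonempty

theorem rl_inl {G : FinGraph} {w : G.V} {t : Fin 3 → G.E} {x u : G.V} {e : G.E} (hu : u ≠ w) :
    rl G w t x e = Sum.inl u ↔ x = u := by
  unfold rl
  by_cases hx : x = w
  · rw [if_pos hx]
    have hxu : ¬ x = u := fun h => hu (h ▸ hx)
    split_ifs <;> simp [hxu, Ne.symm hu]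
  · rw [if_neg hx, Sum.inl.injEq]

theorem rl_inr {G : FinGraph} {w : G.V} {t : Fin 3 → G.E} (ht : Function.Injective t) {x : G.V}
    {i : Fin 3} {e : G.E} : rl G w t x e = Sum.inr i ↔ x = w ∧ e = t i := by
  unfold rl
  by_cases hx : x = w
  · rw [if_pos hx]
    have h01 : t 0 ≠ t 1 := fun h => absurd (ht h) (by decide)
    have h02 : t 0 ≠ t 2 := fun h => absurd (ht h) (by decide)
    have h12 : t 1 ≠ t 2 := fun h => absurd (ht h) (by decide)
    by_cases e0 : e = t 0
    · rw [if_pos e0]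
      fin_cases i <;> simp [hx, e0, h01, h02]
    · rw [if_neg e0]
      by_cases e1 : e = t 1
      · rw [if_pos e1]
        fin_cases i <;> simp [hx, e1, h01.symm, h12]
      · rw [if_neg e1]
        by_cases e2 : e = t 2
        · rw [if_pos e2]
          fin_cases i <;> simp [hx, e2, h02.symm, h12.symm]
        · rw [if_neg e2]
          fin_cases i <;> simp [e0, e1, e2]
  · rw [if_neg hx]
    simp [hx]

theorem bd_open_inl {G : FinGraph} {w : G.V} {t : Fin 3 → G.E} (φ : G.E → ZMod 2) {u : G.V}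
    (hu : u ≠ w) : bd (open3 G w t) φ (Sum.inl u) = bd G φ u := by
  unfold bd
  apply sum_congr rfl
  intro e _
  have k1 : (open3 G w t).fst e = Sum.inl u ↔ G.fst e = u := rl_inl hu
  have k2 : (open3 G w t).snd e = Sum.inl u ↔ G.snd e = u := rl_inl hu
  simp only [k1, k2]

theorem bd_open_inr {G : FinGraph} {w : G.V} {t : Fin 3 → G.E} (ht : Function.Injective t)
    (hw : ∀ e, (¬ (G.fst e = w ↔ G.snd e = w)) ↔ ∃ i, e = t i) (φ : G.E → ZMod 2) (i : Fin 3) :
    bd (open3 G w t) φ (Sum.inr i) = φ (t i) := by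
  unfold bd
  rw [sum_eq_single (t i)]
  · have k1 : (open3 G w t).fst (t i) = Sum.inr i ↔ G.fst (t i) = w := by
      refine (rl_inr ht).trans ?_
      simp
    have k2 : (open3 G w t).snd (t i) = Sum.inr i ↔ G.snd (t i) = w := by
      refine (rl_inr ht).trans ?_
      simp
    simp only [k1, k2]
    have h1 := (hw (t i)).2 ⟨i, rfl⟩
    by_cases h2 : G.fst (t i) = w
    · have h3 : ¬ G.snd (t i) = w := fun h3 => h1 ⟨fun _ => h3, fun _ => h2⟩
      rw [if_pos h2, if_neg h3, add_zero]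
    · have h3 : G.snd (t i) = w := by
        by_contra h3
        exact h1 ⟨fun h => absurd h h2, fun h => absurd h h3⟩
      rw [if_neg h2, if_pos h3, zero_add]
  · intro e _ he
    have k1 : ¬ (open3 G w t).fst e = Sum.inr i := fun h => he ((rl_inr ht).1 h).2
    have k2 : ¬ (open3 G w t).snd e = Sum.inr i := fun h => he ((rl_inr ht).1 h).2
    rw [if_neg k1, if_neg k2, add_zero]
  · intro h
    exact absurd (mem_univ _) h

theorem sum_split {V : Type} [Fintype V] [DecidableEq V] (f : V → ZMod 2) (w : V) :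
    ∑ u, f u = f w + ∑ u ∈ ({w}ᶜ : Finset V), f u := Fintype.sum_eq_add_sum_compl w f

theorem bd_open_w {G : FinGraph} {w : G.V} {t : Fin 3 → G.E} (ht : Function.Injective t)
    (hw : ∀ e, (¬ (G.fst e = w ↔ G.snd e = w)) ↔ ∃ i, e = t i) (φ : G.E → ZMod 2) :
    bd (open3 G w t) φ (Sum.inl w) = bd G φ w + (φ (t 0) + φ (t 1) + φ (t 2)) := by
  have h1 := sum_bd (open3 G w t) φ
  have h2 := sum_bd G φ
  rw [Fintype.sum_sum_type, sum_split _ w, Fin.sum_univ_three, bd_open_inr ht hw,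
    bd_open_inr ht hw, bd_open_inr ht hw] at h1
  rw [sum_split _ w] at h2
  have h3 : ∑ u ∈ ({w}ᶜ : Finset G.V), bd (open3 G w t) φ (Sum.inl u) =
      ∑ u ∈ ({w}ᶜ : Finset G.V), bd G φ u := by
    apply sum_congr rfl
    intro u hu
    rw [mem_compl, mem_singleton] at hu
    exact bd_open_inl φ hu
  rw [h3] at h1
  apply z2_eq
  set S := ∑ u ∈ ({w}ᶜ : Finset G.V), bd G φ u
  have hSS : S + S = 0 := z2_self S
  calc bd (open3 G w t) φ (Sum.inl w) + (bd G φ w + (φ (t 0) + φ (t 1) + φ (t 2)))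
      = (bd (open3 G w t) φ (Sum.inl w) + S + (φ (t 0) + φ (t 1) + φ (t 2))) +
        (bd G φ w + S) - (S + S) := by ring
    _ = 0 := by rw [h1, h2, hSS]; simp

/-- the flows at a vertex of degree three of a bridgeless graph -/
theorem even_ext {G : FinGraph} (hG : Bridgeless G) {w : G.V} {t : Fin 3 → G.E}
    (ht : Function.Injective t)
    (hw : ∀ e, (¬ (G.fst e = w ↔ G.snd e = w)) ↔ ∃ i, e = t i) :
    (∀ ψ, IsFlow G ψ → ψ (t 0) + ψ (t 1) + ψ (t 2) = 0) ∧
    ∀ c : Fin 3 → ZMod 2, c 0 + c 1 + c 2 = 0 → ∃ ψ, IsFlow G ψ ∧ ∀ i, ψ (t i) = c i := by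
  have hl : ∀ ψ, IsFlow G ψ → ψ (t 0) + ψ (t 1) + ψ (t 2) = 0 := by
    intro ψ hψ
    have h1 := bd_pair G ψ (fun v => if v = w then 1 else 0)
    have h2 : ∑ v, (if v = w then (1 : ZMod 2) else 0) • bd G ψ v = 0 := by
      apply sum_eq_zero
      intro v _
      rw [hψ v, smul_zero]
    rw [h2] at h1
    rw [h1]
    have h3 : ∀ e, ((if G.fst e = w then (1 : ZMod 2) else 0) + if G.snd e = w then 1 else 0) •
        ψ e = if e ∈ univ.image t then ψ e else 0 := by
      intro e
      have h4 : e ∈ univ.image t ↔ ¬ (G.fst e = w ↔ G.snd e = w) := by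
        rw [hw e, mem_image]
        constructor
        · rintro ⟨i, _, hi⟩; exact ⟨i, hi.symm⟩
        · rintro ⟨i, hi⟩; exact ⟨i, mem_univ _, hi.symm⟩
      have h11 : (1 : ZMod 2) + 1 = 0 := by decide
      by_cases k1 : G.fst e = w <;> by_cases k2 : G.snd e = w <;> simp [h4, k1, k2, h11]
    simp only [h3]
    rw [Finset.sum_ite_mem, univ_inter, sum_image (fun i _ j _ h => ht h), Fin.sum_univ_three]
  refine ⟨hl, ?_⟩
  have hf : ∀ i, ∃ ψ, IsFlow G ψ ∧ ψ (t i) = 1 := fun i => (bridgeless_iff G).1 hG (t i)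
  obtain ⟨f0, hf0, k0⟩ := hf 0
  obtain ⟨f1, hf1, k1⟩ := hf 1
  obtain ⟨f2, hf2, k2⟩ := hf 2
  have s0 := hl f0 hf0
  have s1 := hl f1 hf1
  have s2 := hl f2 hf2
  rw [k0] at s0
  rw [k1] at s1
  rw [k2] at s2
  -- two of the three vectors (1,1,0), (1,0,1), (0,1,1) are attained
  have hz : ∃ ψ, IsFlow G ψ ∧ ψ (t 0) = 0 ∧ ψ (t 1) = 0 ∧ ψ (t 2) = 0 :=
    ⟨_, isFlow_zero G, rfl, rfl, rfl⟩
  have hA : ∃ ψ, IsFlow G ψ ∧ ψ (t 0) = 1 ∧ ψ (t 1) = 1 ∧ ψ (t 2) = 0 := by
    rcases zmod2_cases (f0 (t 1)) with u | u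
    · rcases zmod2_cases (f1 (t 0)) with u' | u'
      · refine ⟨_, isFlow_add hf0 hf1, ?_, ?_, ?_⟩
        · show f0 (t 0) + f1 (t 0) = 1
          rw [k0, u', add_zero]
        · show f0 (t 1) + f1 (t 1) = 1
          rw [u, k1, zero_add]
        · show f0 (t 2) + f1 (t 2) = 0
          rw [u] at s0; rw [u'] at s1
          revert s0 s1
          generalize f0 (t 2) = A; generalize f1 (t 2) = B
          revert A B; decide
      · refine ⟨f1, hf1, u', k1, ?_⟩
        rw [u'] at s1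
        revert s1
        generalize f1 (t 2) = B
        revert B; decide
    · refine ⟨f0, hf0, k0, u, ?_⟩
      rw [u] at s0
      revert s0
      generalize f0 (t 2) = B
      revert B; decide
  obtain ⟨A, hA, A0, A1, A2⟩ := hA
  have hB : ∃ ψ, IsFlow G ψ ∧ ψ (t 0) = 1 ∧ ψ (t 1) = 0 ∧ ψ (t 2) = 1 := by
    rcases zmod2_cases (f2 (t 0)) with u | u
    · refine ⟨_, isFlow_add hA hf2, ?_, ?_, ?_⟩
      · show A (t 0) + f2 (t 0) = 1
        rw [A0, u, add_zero]
      · show A (t 1) + f2 (t 1) = 0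
        rw [A1]
        rw [u] at s2
        revert s2
        generalize f2 (t 1) = B
        revert B; decide
      · show A (t 2) + f2 (t 2) = 1
        rw [A2, k2, zero_add]
    · refine ⟨f2, hf2, u, ?_, k2⟩
      rw [u] at s2
      revert s2
      generalize f2 (t 1) = B
      revert B; decide
  obtain ⟨B, hB, B0, B1, B2⟩ := hB
  intro c hc
  rcases zmod2_cases (c 1) with u1 | u1 <;> rcases zmod2_cases (c 2) with u2 | u2
  · obtain ⟨ψ, hψ, z0, z1, z2⟩ := hz
    refine ⟨ψ, hψ, fun i => ?_⟩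
    rw [u1, u2, add_zero, add_zero] at hc
    fin_cases i
    · exact z0.trans hc.symm
    · exact z1.trans u1.symm
    · exact z2.trans u2.symm
  · refine ⟨B, hB, fun i => ?_⟩
    rw [u1, u2, add_zero] at hc
    fin_cases i
    · exact B0.trans (z2_eq hc).symm
    · exact B1.trans u1.symm
    · exact B2.trans u2.symm
  · refine ⟨A, hA, fun i => ?_⟩
    rw [u1, u2, add_zero] at hc
    fin_cases i
    · exact A0.trans (z2_eq hc).symm
    · exact A1.trans u1.symm
    · exact A2.trans u2.symm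
  · refine ⟨_, isFlow_add hA hB, fun i => ?_⟩
    rw [u1, u2] at hc
    fin_cases i
    · show A (t 0) + B (t 0) = c 0
      rw [A0, B0]
      revert hc
      generalize c 0 = C
      revert C; decide
    · show A (t 1) + B (t 1) = c 1
      rw [A1, B1, u1]; decide
    · show A (t 2) + B (t 2) = c 2
      rw [A2, B2, u2]; decide

end Pool.Agent.CCP.CU65
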