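import Pool.Agent.CCP.Glue

set_option autoImplicit false

namespace Pool.Agent.CCP

open Finset Pool.Agent.CCO

variable {a : FinGraph}

/-- The non-loop edges at `v` are `t 0, t 1, t 2`. -/
def AtV (H : FinGraph) (v : H.V) (t : Fin 3 → H.E) : Prop :=
  Function.Injective t ∧ ∀ e, (¬ (H.fst e = v ↔ H.snd e = v)) ↔ ∃ i, e = t i

theorem bd_cutoff_n {A : Type} [AddCommMonoid A] (H : FinGraph) (v : H.V) (t : Fin 3 → H.E)
    (ht : AtV H v t) (i : H.E → Fin 3) (hi : ∀ k, i (t k) = k) (φ : H.E → A) (n : Fin 3) :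
    bd (cutoff H v i) φ (Sum.inr n) = φ (t n) := by
  rw [bd_cutoff_inr, sum_eq_single (t n)]
  · rw [if_pos ⟨(ht.2 _).mpr ⟨n, rfl⟩, hi n⟩]
  · intro e _ he
    rw [if_neg]
    rintro ⟨h1, h2⟩
    obtain ⟨k, rfl⟩ := (ht.2 e).mp h1
    rw [hi k] at h2
    exact he (by rw [h2])
  · intro h
    exact absurd (mem_univ _) h

theorem bd_atV (H : FinGraph) (v : H.V) (t : Fin 3 → H.E) (ht : AtV H v t) (φ : H.E → ZMod 2) :
    bd H φ v = φ (t 0) + φ (t 1) + φ (t 2) := by
  have h1 : ∀ e, ((if H.fst e = v then φ e else 0) + (if H.snd e = v then φ e else 0)) =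
      if (¬ (H.fst e = v ↔ H.snd e = v)) then φ e else 0 := by
    intro e
    by_cases h1 : H.fst e = v <;> by_cases h2 : H.snd e = v <;> simp [h1, h2, z2_self]
  unfold bd
  rw [sum_congr rfl (fun e _ => h1 e), ← sum_filter]
  have h2 : univ.filter (fun e => ¬ (H.fst e = v ↔ H.snd e = v)) = {t 0, t 1, t 2} := by
    ext e
    simp only [mem_filter, mem_univ, true_and, mem_insert, mem_singleton]
    rw [ht.2 e]
    constructor
    · rintro ⟨k, rfl⟩
      fin_cases k
      · exact Or.inl rfl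
      · exact Or.inr (Or.inl rfl)
      · exact Or.inr (Or.inr rfl)
    · rintro (h | h | h)
      · exact ⟨_, h⟩
      · exact ⟨_, h⟩
      · exact ⟨_, h⟩
  have h01 : t 0 ≠ t 1 := fun h => absurd (ht.1 h) (by decide)
  have h02 : t 0 ≠ t 2 := fun h => absurd (ht.1 h) (by decide)
  have h12 : t 1 ≠ t 2 := fun h => absurd (ht.1 h) (by decide)
  rw [h2, sum_insert (by simp [h01, h02]), sum_insert (by simp [h12]), sum_singleton, add_assoc]

/-- The flows attain all even patterns at a vertex with three non-loop edges. -/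
theorem ext3 (H : FinGraph) (hb : Bridgeless H) (v : H.V) (t : Fin 3 → H.E) (ht : AtV H v t)
    (c : Fin 3 → ZMod 2) (hc : c 0 + c 1 + c 2 = 0) :
    ∃ χ, IsFlow H χ ∧ ∀ k, χ (t k) = c k := by
  have hsum : ∀ χ, IsFlow H χ → χ (t 0) + χ (t 1) + χ (t 2) = 0 := by
    intro χ hχ
    rw [← bd_atV H v t ht]
    exact hχ v
  set P : ZMod 2 → ZMod 2 → Prop := fun x y => ∃ χ, IsFlow H χ ∧ χ (t 0) = x ∧ χ (t 1) = y with hP
  have hadd : ∀ x y x' y', P x y → P x' y' → P (x + x') (y + y') := by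
    rintro x y x' y' ⟨χ, h1, h2, h3⟩ ⟨χ', h1', h2', h3'⟩
    exact ⟨_, isFlow_add h1 h1', by rw [h2, h2'], by rw [h3, h3']⟩
  have h00 : P 0 0 := ⟨_, isFlow_zero H, rfl, rfl⟩
  obtain ⟨x, hx⟩ : ∃ x, P 1 x := by
    obtain ⟨χ, h1, h2⟩ := (bridgeless_iff H).mp hb (t 0)
    exact ⟨_, χ, h1, h2, rfl⟩
  obtain ⟨y, hy⟩ : ∃ y, P y 1 := by
    obtain ⟨χ, h1, h2⟩ := (bridgeless_iff H).mp hb (t 1)
    exact ⟨_, χ, h1, rfl, h2⟩
  obtain ⟨z, hz⟩ : ∃ z, P z (1 + z) := by
    obtain ⟨χ, h1, h2⟩ := (bridgeless_iff H).mp hb (t 2)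
    refine ⟨χ (t 0), χ, h1, rfl, ?_⟩
    have h3 := hsum χ h1
    rw [h2] at h3
    have h4 := z2_eq h3
    rw [← h4, add_comm (χ (t 0)), add_assoc, z2_self, add_zero]
  have key : P 0 1 ∧ P 1 0 := by
    rcases zmod2_cases x with hx0 | hx0 <;> rcases zmod2_cases y with hy0 | hy0 <;>
      rcases zmod2_cases z with hz0 | hz0 <;> rw [hx0] at hx <;> rw [hy0] at hy <;>
      rw [hz0] at hz
    · exact ⟨hy, hx⟩
    · exact ⟨hy, hx⟩
    · exact ⟨by simpa [z2_self] using hadd _ _ _ _ hx hy, hx⟩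
    · exact ⟨by simpa [z2_self] using hadd _ _ _ _ hx hy, hx⟩
    · exact ⟨hy, by simpa [z2_self] using hadd _ _ _ _ hx hy⟩
    · exact ⟨hy, by simpa [z2_self] using hadd _ _ _ _ hx hy⟩
    · have hz' : P 0 1 := by simpa using hz
      exact ⟨hz', by simpa [z2_self] using hadd _ _ _ _ hx hz'⟩
    · have hz' : P 1 0 := by simpa [z2_self] using hz
      exact ⟨by simpa [z2_self] using hadd _ _ _ _ hx hz', hz'⟩
  obtain ⟨h01, h10⟩ := key
  have h11 : P 1 1 := by simpa using hadd _ _ _ _ h01 h10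
  have hall : P (c 0) (c 1) := by
    rcases zmod2_cases (c 0) with h0 | h0 <;> rcases zmod2_cases (c 1) with h1 | h1 <;>
      rw [h0, h1] <;> assumption
  obtain ⟨χ, h1, h2, h3⟩ := hall
  refine ⟨χ, h1, fun k => ?_⟩
  have h4 := hsum χ h1
  fin_cases k
  · exact h2
  · exact h3
  · change χ (t 2) = c 2
    rw [h2, h3] at h4
    exact (z2_eq h4).symm.trans (z2_eq hc)

theorem glue_flow {H K : FinGraph} {v : H.V} {w : K.V} {s : Fin 3 → H.E} {t : Fin 3 → K.E}
    (hs : AtV H v s) (ht : AtV K w t) {i : H.E → Fin 3} {j : K.E → Fin 3}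
    (hi : ∀ k, i (s k) = k) (hj : ∀ k, j (t k) = k) {φ : H.E → ZMod 2} {χ : K.E → ZMod 2}
    (hφ : IsFlow H φ) (hχ : IsFlow K χ) (hk : ∀ k, φ (s k) = χ (t k)) :
    IsFlow (glue H K v w i j) (Sum.elim φ χ) := by
  rintro ((x | y) | n)
  · rw [bd_glue_l]
    simp only [Sum.elim_inl]
    by_cases hx : x = v
    · rw [hx, bd_cutoff_v]
    · rw [bd_cutoff_inl H v i φ x hx]; exact hφ x
  · rw [bd_glue_r]
    simp only [Sum.elim_inr]
    by_cases hy : y = w
    · rw [hy, bd_cutoff_v]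
    · rw [bd_cutoff_inl K w j χ y hy]; exact hχ y
  · rw [bd_glue_n, bd_cutoff_n H v s hs i hi, bd_cutoff_n K w t ht j hj]
    simp only [Sum.elim_inl, Sum.elim_inr]
    rw [hk n]
    exact z2_self _

theorem glue_bridgeless {H K : FinGraph} (hH : Bridgeless H) (hK : Bridgeless K) {v : H.V}
    {w : K.V} {s : Fin 3 → H.E} {t : Fin 3 → K.E} (hs : AtV H v s) (ht : AtV K w t)
    {i : H.E → Fin 3} {j : K.E → Fin 3} (hi : ∀ k, i (s k) = k) (hj : ∀ k, j (t k) = k) :
    Bridgeless (glue H K v w i j) := by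
  rw [bridgeless_iff]
  rintro (e | e)
  · obtain ⟨φ, hφ, he⟩ := (bridgeless_iff H).mp hH e
    obtain ⟨χ, hχ, hk⟩ := ext3 K hK w t ht (fun k => φ (s k)) (by
      have := bd_atV H v s hs φ
      rw [hφ v] at this
      exact this.symm)
    exact ⟨_, glue_flow hs ht hi hj hφ hχ (fun k => (hk k).symm), he⟩
  · obtain ⟨χ, hχ, he⟩ := (bridgeless_iff K).mp hK e
    obtain ⟨φ, hφ, hk⟩ := ext3 H hH v s hs (fun k => χ (t k)) (by
      have := bd_atV K w t ht χ
      rw [hχ w] at this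
      exact this.symm)
    exact ⟨_, glue_flow hs ht hi hj hφ hχ hk, he⟩

theorem exists_index {H : FinGraph} {t : Fin 3 → H.E} (ht : Function.Injective t) :
    ∃ i : H.E → Fin 3, ∀ k, i (t k) = k := by
  have h01 : t 0 ≠ t 1 := fun h => absurd (ht h) (by decide)
  have h02 : t 0 ≠ t 2 := fun h => absurd (ht h) (by decide)
  have h12 : t 1 ≠ t 2 := fun h => absurd (ht h) (by decide)
  refine ⟨fun e => if e = t 0 then 0 else if e = t 1 then 1 else 2, fun k => ?_⟩
  fin_cases k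
  · simp
  · simp [h01.symm]
  · simp [h02.symm, h12.symm]

namespace UCtx

theorem atV (h : UCtx a) {v : a.V} {p : Fin 3 → a.E} (hp : Tri a v (p 0) (p 1) (p 2)) :
    AtV a v p := by
  constructor
  · intro k l hkl
    fin_cases k <;> fin_cases l
    · rfl
    · exact absurd hkl hp.2.1
    · exact absurd hkl hp.2.2.1
    · exact absurd hkl.symm hp.2.1
    · rfl
    · exact absurd hkl hp.2.2.2
    · exact absurd hkl.symm hp.2.2.1
    · exact absurd hkl.symm hp.2.2.2
    · rfl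
  · intro e
    have h1 : (¬ (a.fst e = v ↔ a.snd e = v)) ↔ e ∈ star a v := by
      rw [mem_star]
      have := h.loopless e
      constructor
      · intro h2
        by_cases h3 : a.fst e = v
        · exact Or.inl h3
        · right
          by_contra h4
          exact h2 ⟨fun h => absurd h h3, fun h => absurd h h4⟩
      · rintro (h3 | h3) h4
        · exact this (h3.trans (h4.mp h3).symm)
        · exact this ((h4.mpr h3).trans h3.symm)
    rw [h1]
    constructor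
    · intro h2
      rcases hp.cases h2 with h3 | h3 | h3
      · exact ⟨_, h3⟩
      · exact ⟨_, h3⟩
      · exact ⟨_, h3⟩
    · rintro ⟨k, rfl⟩
      fin_cases k
      · exact hp.mem1
      · exact hp.mem2
      · exact hp.mem3

/-- The gluing theorem: for a bridgeless graph `G` with exactly three non-loop edges at `w`, every
bijection to the star of a vertex of `a` extends to a cc map. -/
theorem extend (h : UCtx a) (G : FinGraph) (hG : Bridgeless G) (w : G.V) (t : Fin 3 → G.E)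
    (hinj : Function.Injective t)
    (ht : ∀ e, (¬ (G.fst e = w ↔ G.snd e = w)) ↔ ∃ i, e = t i) (v : a.V) (p : Fin 3 → a.E)
    (hp : Tri a v (p 0) (p 1) (p 2)) : ∃ f : G.E → a.E, CC G a f ∧ ∀ i, f (t i) = p i := by
  have hp' := h.atV hp
  have ht' : AtV G w t := ⟨hinj, ht⟩
  obtain ⟨i, hi⟩ := exists_index hp'.1
  obtain ⟨j, hj⟩ := exists_index hinj
  obtain ⟨f, hf⟩ := h.univ _ (glue_bridgeless h.br hG hp' ht' hi hj)
  have hσ : CC a a (fun e => f (Sum.inl e)) := by
    intro φ hφ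
    apply isFlow_of_off v
    intro x hx
    have h1 := hf φ hφ (Sum.inl (Sum.inl x))
    rw [bd_glue_l, bd_cutoff_inl _ _ _ _ _ hx] at h1
    exact h1
  have hθ : CC G a (fun e => f (Sum.inr e)) := by
    intro φ hφ
    apply isFlow_of_off w
    intro x hx
    have h1 := hf φ hφ (Sum.inl (Sum.inr x))
    rw [bd_glue_r, bd_cutoff_inl _ _ _ _ _ hx] at h1
    exact h1
  obtain ⟨τ, hτ, ht1, _⟩ := h.exists_inv hσ
  refine ⟨fun e => τ (f (Sum.inr e)), cc_comp hτ hθ, fun k => ?_⟩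
  have h1 := cc_iff.mp hf (Sum.inr k)
  rw [bd_glue_n, bd_cutoff_n a v p hp' i hi, bd_cutoff_n G w t ht' j hj] at h1
  have h2 := h.ev_inj (z2_eq h1)
  change τ (f (Sum.inr (t k))) = p k
  rw [← h2]
  exact ht1 (p k)

theorem exists_tri (h : UCtx a) (v : a.V) : ∃ p : Fin 3 → a.E, Tri a v (p 0) (p 1) (p 2) := by
  obtain ⟨x, y, z, h1, h2, h3, h4⟩ := card_eq_three.mp (h.cubic v)
  exact ⟨![x, y, z], h4, h1, h2, h3⟩

theorem bd_congr (h : UCtx a) {A : Type} [AddCommMonoid A] {ξ η : a.E → A} {x : a.V}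
    (hx : ∀ e ∈ star a x, ξ e = η e) : bd a ξ x = bd a η x := by
  rw [bd_eq_star h.loopless, bd_eq_star h.loopless]
  exact sum_congr rfl hx

/-- A universal core is connected. -/
theorem conn (h : UCtx a) (z : a.V → ZMod 2) (hz : ∀ e, z (a.fst e) = z (a.snd e)) :
    ∀ u v, z u = z v := by
  intro u v
  by_contra huv
  obtain ⟨t, ht⟩ := h.exists_tri u
  obtain ⟨p, hp⟩ := h.exists_tri v
  obtain ⟨f, hf, hfp⟩ := h.extend a h.br u t (h.atV ht).1 (h.atV ht).2 v p hp
  have hz' : ∀ x e, e ∈ star a x → z (a.fst e) = z x := by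
    intro x e he
    rw [mem_star] at he
    rcases he with h1 | h1
    · rw [h1]
    · rw [hz, h1]
  have hcc : CC a a (fun e => if z (a.fst e) = z v then e else f e) := by
    rw [cc_iff]
    intro x
    by_cases hx : z x = z v
    · rw [← bd_ev (a := a) x]
      apply h.bd_congr
      intro e he
      rw [if_pos ((hz' x e he).trans hx)]
    · rw [← cc_iff.mp hf x]
      apply h.bd_congr
      intro e he
      rw [if_neg (fun h1 => hx ((hz' x e he).symm.trans h1))]
  have h1 : z (a.fst (p 0)) = z v := hz' v _ hp.mem1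
  have h2 : ¬ z (a.fst (t 0)) = z v := fun h3 => huv ((hz' u _ ht.mem1).symm.trans h3)
  have h3 : t 0 = p 0 := by
    apply (h.core _ hcc).1
    change (if z (a.fst (t 0)) = z v then t 0 else f (t 0)) =
      (if z (a.fst (p 0)) = z v then p 0 else f (p 0))
    rw [if_neg h2, if_pos h1, hfp 0]
  rw [h3] at h2
  exact h2 h1

end UCtx

end Pool.Agent.CCP
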