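import Mathlib
import Pool.Agent.CCO.Defs

/-!
# CCP: Petersen's theorem (perfect matchings in bridgeless cubic multigraphs)
-/

set_option autoImplicit false

namespace Pool.Agent.CCP.PM65

open Finset Pool.Agent.CCO
open scoped Classical

theorem mem_cut {C : FinGraph} {W : Finset C.V} {e : C.E} :
    e ∈ cut C W ↔ ¬ (C.fst e ∈ W ↔ C.snd e ∈ W) := by
  simp [cut]

theorem mem_scut {C : FinGraph} {v : C.V} {e : C.E} :
    e ∈ cut C {v} ↔ ¬ (C.fst e = v ↔ C.snd e = v) := by
  rw [mem_cut, mem_singleton, mem_singleton]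

/-- the parity of a cut is the sum of the parities of the stars of its vertices -/
theorem card_cut_parity (C : FinGraph) (W : Finset C.V) :
    ((cut C W).card : ZMod 2) = ∑ v ∈ W, ((cut C {v}).card : ZMod 2) := by
  have h1 : ∀ W : Finset C.V, ((cut C W).card : ZMod 2) =
      ∑ e, ((if C.fst e ∈ W then (1 : ZMod 2) else 0) + (if C.snd e ∈ W then 1 else 0)) := by
    intro W
    rw [card_eq_sum_ones, Nat.cast_sum]
    rw [← Finset.sum_filter_add_sum_filter_not univ (fun e => e ∈ cut C W)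
      (fun e => (if C.fst e ∈ W then (1 : ZMod 2) else 0) + (if C.snd e ∈ W then 1 else 0))]
    have h2 : ∑ e ∈ univ.filter (fun e => ¬ e ∈ cut C W),
        ((if C.fst e ∈ W then (1 : ZMod 2) else 0) + (if C.snd e ∈ W then 1 else 0)) = 0 := by
      apply sum_eq_zero
      intro e he
      rw [mem_filter, mem_cut, not_not] at he
      have h11 : (1 : ZMod 2) + 1 = 0 := by decide
      by_cases h : C.snd e ∈ W
      · rw [if_pos (he.2.2 h), if_pos h, h11]
      · rw [if_neg (fun h' => h (he.2.1 h')), if_neg h, add_zero]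
    rw [h2, add_zero]
    have h3 : univ.filter (fun e => e ∈ cut C W) = cut C W := by
      ext e; simp
    rw [h3]
    apply sum_congr rfl
    intro e he
    rw [mem_cut] at he
    by_cases h : C.snd e ∈ W <;> by_cases h' : C.fst e ∈ W <;> simp [h, h'] at he ⊢
  rw [h1 W]
  simp_rw [h1]
  rw [sum_comm]
  apply sum_congr rfl
  intro e _
  rw [sum_add_distrib]
  simp only [mem_singleton]
  rw [Finset.sum_ite_eq, Finset.sum_ite_eq]

/-- the vertices of degree `3` -/
abbrev V3 (C : FinGraph) : Type := {v : C.V // (cut C {v}).card = 3}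

/-- the simple graph on the vertices of degree `3` -/
def sg (C : FinGraph) : SimpleGraph (V3 C) where
  Adj v w := v ≠ w ∧ ∃ e, (C.fst e = v.1 ∧ C.snd e = w.1) ∨ (C.fst e = w.1 ∧ C.snd e = v.1)
  symm := ⟨by
    rintro v w ⟨h, e, he⟩
    exact ⟨h.symm, e, he.symm⟩⟩
  loopless := ⟨fun v h => h.1 rfl⟩

theorem no_violator (C : FinGraph) (hbr : Bridgeless C)
    (hdeg : ∀ v, (cut C {v}).card = 0 ∨ (cut C {v}).card = 3) (u : Set (V3 C)) :
    ¬ (sg C).IsTutteViolator u := by
  unfold SimpleGraph.IsTutteViolator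
  rw [not_lt]
  set H := ((⊤ : (sg C).Subgraph).deleteVerts u).coe with hH
  -- the vertex set of a component
  let W : H.ConnectedComponent → Finset C.V := fun K =>
    univ.filter (fun x => ∃ t, H.connectedComponentMk t = K ∧ (t.1.1 : C.V) = x)
  have hnu : ∀ t : ((⊤ : (sg C).Subgraph).deleteVerts u).verts, t.1 ∉ u := by
    intro t
    have : t.1 ∈ (⊤ : (sg C).Subgraph).verts \ u := t.2
    exact this.2
  have hWcard : ∀ K, (W K).card = K.supp.ncard := by
    intro K
    have h1 : W K = K.supp.toFinset.image (fun t => (t.1.1 : C.V)) := by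
      ext x
      simp only [W, mem_filter, mem_univ, true_and, mem_image, Set.mem_toFinset,
        SimpleGraph.ConnectedComponent.mem_supp_iff]
    rw [h1, card_image_of_injective _ (fun a b h => Subtype.ext (Subtype.ext h)),
      Set.ncard_eq_toFinset_card']
  have hodd : ∀ K ∈ H.oddComponents, 3 ≤ (cut C (W K)).card := by
    intro K hK
    have hK' : Odd K.supp.ncard := hK
    rw [← hWcard] at hK'
    have h1 := card_cut_parity C (W K)
    have h2 : ∑ v ∈ W K, ((cut C {v}).card : ZMod 2) = ∑ v ∈ W K, (1 : ZMod 2) := by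
      apply sum_congr rfl
      intro v hv
      obtain ⟨t, _, rfl⟩ := (mem_filter.1 hv).2
      rw [t.1.2]
      decide
    rw [h2, sum_const, nsmul_eq_mul, mul_one] at h1
    have h3 : Odd (cut C (W K)).card := by
      rw [← ZMod.natCast_eq_one_iff_odd] at hK' ⊢
      rw [h1, hK']
    have h4 := hbr (W K)
    obtain ⟨m, hm⟩ := h3
    omega
  have hend : ∀ K, ∀ e ∈ cut C (W K), ∃ x ∈ W K, ∃ y : V3 C, y ∈ u ∧
      ((C.fst e = x ∧ C.snd e = y.1) ∨ (C.fst e = y.1 ∧ C.snd e = x)) := by
    intro K e he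
    have key : ∀ x y : C.V, ((C.fst e = x ∧ C.snd e = y) ∨ (C.fst e = y ∧ C.snd e = x)) →
        x ∈ W K → y ∉ W K → ∃ y' : V3 C, y' ∈ u ∧ y'.1 = y := by
      intro x y hxy hx hy
      have hne : x ≠ y := fun h => hy (h ▸ hx)
      have hy3 : (cut C {y}).card = 3 := by
        rcases hdeg y with h0 | h0
        · rw [card_eq_zero] at h0
          have : e ∈ cut C {y} := by
            rw [mem_scut]
            rcases hxy with ⟨a, b⟩ | ⟨a, b⟩
            · rw [a, b]; simp [hne]
            · rw [a, b]; simp [hne]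
          rw [h0] at this
          simp at this
        · exact h0
      refine ⟨⟨y, hy3⟩, ?_, rfl⟩
      by_contra hyu
      apply hy
      obtain ⟨t, ht, htx⟩ := (mem_filter.1 hx).2
      have hyT : (⟨y, hy3⟩ : V3 C) ∈ ((⊤ : (sg C).Subgraph).deleteVerts u).verts := by
        rw [SimpleGraph.Subgraph.deleteVerts_verts]
        exact ⟨Set.mem_univ _, hyu⟩
      refine mem_filter.2 ⟨mem_univ _, ⟨⟨y, hy3⟩, hyT⟩, ?_, rfl⟩
      rw [← ht]
      apply SimpleGraph.ConnectedComponent.sound
      apply SimpleGraph.Adj.reachable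
      rw [hH, SimpleGraph.Subgraph.coe_adj, SimpleGraph.Subgraph.deleteVerts_adj]
      refine ⟨Set.mem_univ _, hyu, Set.mem_univ _, hnu t, ?_⟩
      rw [SimpleGraph.Subgraph.top_adj]
      refine ⟨fun h => hne ?_, e, ?_⟩
      · rw [← htx, ← h]
      · rw [htx]
        rcases hxy with h | h
        · exact Or.inr h
        · exact Or.inl h
    rw [mem_cut] at he
    by_cases hf : C.fst e ∈ W K
    · have hs : C.snd e ∉ W K := fun h => he ⟨fun _ => h, fun _ => hf⟩
      obtain ⟨y, hy, hy'⟩ := key _ _ (Or.inl ⟨rfl, rfl⟩) hf hs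
      exact ⟨_, hf, y, hy, Or.inl ⟨rfl, hy'.symm⟩⟩
    · have hs : C.snd e ∈ W K := by
        by_contra h
        exact he ⟨fun h' => absurd h' hf, fun h' => absurd h' h⟩
      obtain ⟨y, hy, hy'⟩ := key _ _ (Or.inr ⟨rfl, rfl⟩) hs hf
      exact ⟨_, hs, y, hy, Or.inr ⟨hy'.symm, rfl⟩⟩
  have hdisj : ∀ K K', K ≠ K' → Disjoint (cut C (W K)) (cut C (W K')) := by
    intro K K' hKK
    rw [Finset.disjoint_left]
    intro e he he'
    obtain ⟨x, hx, y, hy, hxy⟩ := hend K e he
    obtain ⟨x', hx', y', hy', hxy'⟩ := hend K' e he'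
    obtain ⟨t, ht, rfl⟩ := (mem_filter.1 hx).2
    obtain ⟨t', ht', rfl⟩ := (mem_filter.1 hx').2
    have hu : ∀ (s : ((⊤ : (sg C).Subgraph).deleteVerts u).verts) (z : V3 C), z ∈ u →
        s.1.1 ≠ z.1 := fun s z hz h => hnu s ((Subtype.ext h : s.1 = z) ▸ hz)
    apply hKK
    rw [← ht, ← ht']
    congr 1
    apply Subtype.ext
    apply Subtype.ext
    rcases hxy with ⟨a, b⟩ | ⟨a, b⟩ <;> rcases hxy' with ⟨a', b'⟩ | ⟨a', b'⟩
    · rw [← a, ← a']
    · exact absurd (a.symm.trans a') (hu t y' hy')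
    · exact absurd (b.symm.trans b') (hu t y' hy')
    · rw [← b, ← b']
  -- counting
  have hfin : (H.oddComponents).Finite := Set.toFinite _
  have hle : 3 * (H.oddComponents).ncard ≤ 3 * u.ncard := by
    calc 3 * (H.oddComponents).ncard = ∑ K ∈ hfin.toFinset, 3 := by
          rw [sum_const, smul_eq_mul, mul_comm, Set.ncard_eq_toFinset_card _ hfin]
      _ ≤ ∑ K ∈ hfin.toFinset, (cut C (W K)).card := by
          apply sum_le_sum
          intro K hK
          exact hodd K (hfin.mem_toFinset.1 hK)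
      _ = (hfin.toFinset.biUnion (fun K => cut C (W K))).card := by
          rw [card_biUnion]
          intro K _ K' _ h
          exact hdisj K K' h
      _ ≤ (u.toFinset.biUnion (fun y => cut C {y.1})).card := by
          apply card_le_card
          intro e he
          obtain ⟨K, _, hK⟩ := mem_biUnion.1 he
          obtain ⟨x, hx, y, hy, hxy⟩ := hend K e hK
          refine mem_biUnion.2 ⟨y, Set.mem_toFinset.2 hy, ?_⟩
          obtain ⟨t, ht, rfl⟩ := (mem_filter.1 hx).2
          have hne : t.1.1 ≠ y.1 := fun h => hnu t ((Subtype.ext h : t.1 = y) ▸ hy)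
          rw [mem_scut]
          rcases hxy with ⟨a, b⟩ | ⟨a, b⟩
          · rw [a, b]; simp [hne]
          · rw [a, b]; simp [hne]
      _ ≤ ∑ y ∈ u.toFinset, (cut C {y.1}).card := card_biUnion_le
      _ = ∑ y ∈ u.toFinset, 3 := sum_congr rfl (fun y _ => y.2)
      _ = 3 * u.ncard := by
          rw [sum_const, smul_eq_mul, mul_comm, Set.ncard_eq_toFinset_card']
  omega

/-- **Petersen's theorem**: in a finite bridgeless multigraph in which every vertex has `0` or
`3` non-loop edges, some set of edges meets the star of every vertex of degree `3` in exactly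
one edge. -/
theorem petersen_pm (C : FinGraph) (hbr : Bridgeless C)
    (hdeg : ∀ v, (cut C {v}).card = 0 ∨ (cut C {v}).card = 3) :
    ∃ M : Finset C.E, ∀ v, (cut C {v}).card = 3 → (M ∩ cut C {v}).card = 1 := by
  obtain ⟨N, hN⟩ := SimpleGraph.tutte.2 (no_violator C hbr hdeg)
  rw [SimpleGraph.Subgraph.isPerfectMatching_iff] at hN
  choose p hp hp' using hN
  have hpp : ∀ x, p (p x) = x := fun x => (hp' (p x) x (hp x).symm).symm
  have hex : ∀ x : V3 C, ∃ e, s(C.fst e, C.snd e) = s(x.1, (p x).1) := by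
    intro x
    obtain ⟨_, e, he⟩ := N.adj_sub (hp x)
    refine ⟨e, ?_⟩
    rcases he with ⟨a, b⟩ | ⟨a, b⟩
    · rw [a, b]
    · rw [a, b, Sym2.eq_swap]
  let ed : Sym2 C.V → C.E := fun z =>
    if h : ∃ e, s(C.fst e, C.snd e) = z then h.choose else Classical.arbitrary _
  have hed : ∀ x : V3 C, s(C.fst (ed s(x.1, (p x).1)), C.snd (ed s(x.1, (p x).1))) =
      s(x.1, (p x).1) := by
    intro x
    have h := hex x
    simp only [ed, dif_pos h]
    exact h.choose_spec
  have hne : ∀ x : V3 C, x.1 ≠ (p x).1 := fun x h =>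
    (N.adj_sub (hp x)).1 (Subtype.ext h)
  refine ⟨univ.image (fun x : V3 C => ed s(x.1, (p x).1)), fun v hv => ?_⟩
  rw [card_eq_one]
  refine ⟨ed s(v, (p ⟨v, hv⟩).1), ?_⟩
  ext e
  rw [mem_inter, mem_image, mem_singleton]
  constructor
  · rintro ⟨⟨x, _, rfl⟩, he⟩
    rw [mem_scut] at he
    have h1 := hed x
    rw [Sym2.eq_iff] at h1
    have hx : x.1 = v ∨ (p x).1 = v := by
      by_contra hcon
      push Not at hcon
      apply he
      rcases h1 with ⟨a, b⟩ | ⟨a, b⟩
      · rw [a, b]; simp [hcon.1, hcon.2]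
      · rw [a, b]; simp [hcon.1, hcon.2]
    rcases hx with hx | hx
    · subst hx; rfl
    · subst hx
      have : p ⟨(p x).1, hv⟩ = x := hpp x
      rw [this, Sym2.eq_swap]
  · rintro rfl
    refine ⟨⟨⟨v, hv⟩, mem_univ _, rfl⟩, ?_⟩
    rw [mem_scut]
    have h1 := hed ⟨v, hv⟩
    have h2 := hne ⟨v, hv⟩
    rw [Sym2.eq_iff] at h1
    rcases h1 with ⟨a, b⟩ | ⟨a, b⟩
    · rw [a, b]; simp only [true_iff]; exact fun h => h2 h.symm
    · rw [a, b]; simp only [iff_true]; exact fun h => h2 h.symm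

end Pool.Agent.CCP.PM65
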