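import Pool.Agent.CCP.Base
import Pool.Agent.CCP.Match65

set_option autoImplicit false

namespace Pool.Agent.CCP

open Finset Pool.Agent.CCO

theorem star_eq_cut65 (a : FinGraph) (hl : ∀ e, a.fst e ≠ a.snd e) (v : a.V) :
    star a v = cut a {v} := by
  ext e
  have := hl e
  rw [mem_star, cut, mem_filter, mem_singleton, mem_singleton]
  refine ⟨fun h0 => ⟨mem_univ _, ?_⟩, fun h0 => ?_⟩
  · revert h0
    rintro (h | h) h'
    · exact this (h.trans (h'.1 h).symm)
    · exact this ((h'.2 h).trans h.symm)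
  · have h := h0.2
    by_contra hcon
    push Not at hcon
    exact h ⟨fun h1 => absurd h1 hcon.1, fun h1 => absurd h1 hcon.2⟩

/-- A loopless bridgeless cubic graph has a perfect matching. -/
theorem exists_matching (a : FinGraph) (hl : ∀ e, a.fst e ≠ a.snd e)
    (h3 : ∀ v, (star a v).card = 3)
    (_hs : ∀ e e' : a.E, ∀ u v : a.V, u ≠ v → e ∈ star a u → e ∈ star a v → e' ∈ star a u →
      e' ∈ star a v → e = e')
    (hb : Bridgeless a) : ∃ M : Finset a.E, ∀ v, (M ∩ star a v).card = 1 := by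
  obtain ⟨M, hM⟩ := PM65.petersen_pm a hb (fun v => Or.inr (by rw [← star_eq_cut65 a hl, h3]))
  refine ⟨M, fun v => ?_⟩
  have h := hM v (by rw [← star_eq_cut65 a hl, h3])
  rw [← star_eq_cut65 a hl] at h
  convert h

end Pool.Agent.CCP
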