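import Pool.Agent.CCP.Fold42

set_option autoImplicit false

namespace Pool.Agent.CCP

open Finset Pool.Agent.CCO

/-- The value of a function on `ZMod 5` from its table. -/
def sel5 (p0 p1 p2 p3 p4 i : ZMod 5) : ZMod 5 :=
  if i = 0 then p0 else if i = 1 then p1 else if i = 2 then p2 else if i = 3 then p3 else p4

theorem no_inv5 : ∀ p0 p2 : ZMod 5, (p2 = p0 + 1 ∨ p2 = p0 - 1) →
    ∀ p4 : ZMod 5, (p4 = p2 + 1 ∨ p4 = p2 - 1) → ∀ p1 : ZMod 5, (p1 = p4 + 1 ∨ p1 = p4 - 1) →
    ∀ p3 : ZMod 5, (p3 = p1 + 1 ∨ p3 = p1 - 1) → (p0 = p3 + 1 ∨ p0 = p3 - 1) →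
    ¬ (sel5 p0 p1 p2 p3 p4 p0 = 0 ∧ sel5 p0 p1 p2 p3 p4 p1 = 1 ∧ sel5 p0 p1 p2 p3 p4 p2 = 2 ∧
      sel5 p0 p1 p2 p3 p4 p3 = 3 ∧ sel5 p0 p1 p2 p3 p4 p4 = 4) := by
  decide

theorem sel5_eq (π : ZMod 5 → ZMod 5) (i : ZMod 5) :
    sel5 (π 0) (π 1) (π 2) (π 3) (π 4) i = π i := by
  have : ∀ i : ZMod 5, i = 0 ∨ i = 1 ∨ i = 2 ∨ i = 3 ∨ i = 4 := by decide
  rcases this i with rfl | rfl | rfl | rfl | rfl
  · rfl
  · rfl
  · rfl
  · rfl
  · rfl

theorem no_invol (π : ZMod 5 → ZMod 5) (h : ∀ j, π (j + 2) = π j + 1 ∨ π (j + 2) = π j - 1)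
    (hi : ∀ i, π (π i) = i) : False := by
  have h0 := h 0
  have h2 := h 2
  have h4 := h 4
  have h1 := h 1
  have h3 := h 3
  have e0 : (0 : ZMod 5) + 2 = 2 := by decide
  have e2 : (2 : ZMod 5) + 2 = 4 := by decide
  have e4 : (4 : ZMod 5) + 2 = 1 := by decide
  have e1 : (1 : ZMod 5) + 2 = 3 := by decide
  have e3 : (3 : ZMod 5) + 2 = 0 := by decide
  rw [e0] at h0
  rw [e2] at h2
  rw [e4] at h4
  rw [e1] at h1
  rw [e3] at h3
  apply no_inv5 (π 0) (π 2) h0 (π 4) h2 (π 1) h4 (π 3) h1 h3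
  simp only [sel5_eq]
  exact ⟨hi 0, hi 1, hi 2, hi 3, hi 4⟩

/-- The vertex map of a star-preserving map from the Petersen graph is injective. -/
theorem pet_inj42 (a : FinGraph) (R : a.E → Prop)
    (h2 : ∀ v e e' e'', R e → R e' → R e'' → e ∈ star a v → e' ∈ star a v → e'' ∈ star a v →
      e = e' ∨ e = e'' ∨ e' = e'')
    (h1 : ∀ v e e', ¬ R e → ¬ R e' → e ∈ star a v → e' ∈ star a v → e = e')
    (htri : ∀ u v w p q r, u ≠ v → u ≠ w → v ≠ w → R p → R q → R r → p ∈ star a u → p ∈ star a v →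
      q ∈ star a v → q ∈ star a w → r ∈ star a w → r ∈ star a u → False)
    (f : Petersen.E → a.E) (g : Petersen.V → a.V)
    (hfg : ∀ v e, e ∈ star Petersen v → f e ∈ star a (g v))
    (hinj : ∀ v e e', e ∈ star Petersen v → e' ∈ star Petersen v → f e = f e' → e = e')
    (x y : ZMod 5 → Petersen.V) (X Y Z : ZMod 5 → Petersen.E) (hs : PStr x y X Y Z)
    (hZ : ∀ i, ¬ R (f (Z i))) (hX : ∀ i, R (f (X i))) (hY : ∀ i, R (f (Y i))) :
    Function.Injective g := by
  have hxi : Function.Injective (fun i => g (x i)) := by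
    apply five_inj a R h2 htri (fun i => g (x i)) (fun i => f (X i))
    · exact fun i => ⟨hfg _ _ (hs.xe i).1, hfg _ _ (hs.xe i).2⟩
    · intro i h
      exact hs.xx i (hinj _ _ _ (hs.xe i).2 (hs.xe (i + 1)).1 h)
    · exact hX
  have hyi' : Function.Injective (fun k => g (y (2 * k))) := by
    have hq : ∀ k : ZMod 5, 2 * (k + 1) = 2 * k + 2 := fun k => by ring
    apply five_inj a R h2 htri (fun k => g (y (2 * k))) (fun k => f (Y (2 * k)))
    · intro k
      refine ⟨hfg _ _ (hs.ye _).1, ?_⟩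
      simp only [hq]
      exact hfg _ _ (hs.ye _).2
    · intro k h
      simp only [hq] at h
      exact hs.yy _ (hinj _ _ _ (hs.ye _).2 (hs.ye (2 * k + 2)).1 h)
    · exact fun k => hY _
  have hyi : Function.Injective (fun k => g (y k)) := by
    intro i j hij
    have hq : ∀ k : ZMod 5, 2 * (3 * k) = k := by decide
    have : 3 * i = 3 * j := by
      apply hyi'
      simp only [hq]
      exact hij
    rw [← hq i, ← hq j, this]
  -- the images do not meet
  have hxy : ∀ i j, g (x i) ≠ g (y j) := by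
    intro i0 j0 hij0
    have hp1 : ∀ i : ZMod 5, i - 1 + 1 = i := fun i => by ring
    have hne1 : ∀ i : ZMod 5, i ≠ i + 1 := by decide
    have hne2 : ∀ i : ZMod 5, i ≠ i + 2 := by decide
    have step : ∀ i j, g (x i) = g (y j) →
        g (x (i + 1)) = g (y (j + 2)) ∨ g (x (i - 1)) = g (y (j + 2)) := by
      intro i j hij
      have m1 : f (Y j) ∈ star a (g (x i)) := by rw [hij]; exact hfg _ _ (hs.ye j).1
      have m2 : f (Y j) ∈ star a (g (y (j + 2))) := hfg _ _ (hs.ye j).2
      have m3 : f (X i) ∈ star a (g (x i)) := hfg _ _ (hs.xe i).1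
      have m4 : f (X (i - 1)) ∈ star a (g (x i)) := by
        have := hfg _ _ (hs.xe (i - 1)).2
        rw [hp1] at this
        exact this
      have hne : f (X (i - 1)) ≠ f (X i) := by
        intro h
        have h3 := hs.xx (i - 1)
        rw [hp1] at h3
        have h4 := (hs.xe (i - 1)).2
        rw [hp1] at h4
        exact h3 (hinj _ _ _ h4 (hs.xe i).1 h)
      rcases h2 _ _ _ _ (hY j) (hX i) (hX (i - 1)) m1 m3 m4 with h | h | h
      · left
        rw [h] at m2
        rcases ends3 a m3 (hfg _ _ (hs.xe i).2) m2 with k | k | k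
        · exact absurd (hxi k) (hne1 i)
        · exact absurd (hyi (hij.symm.trans k)) (hne2 j)
        · exact k
      · right
        rw [h] at m2
        rcases ends3 a m4 (hfg _ _ (hs.xe (i - 1)).1) m2 with k | k | k
        · have := hxi k
          have h5 := hne1 (i - 1)
          rw [hp1] at h5
          exact absurd this.symm h5
        · exact absurd (hyi (hij.symm.trans k)) (hne2 j)
        · exact k
      · exact absurd h.symm hne
    have hall : ∀ k : ℕ, ∃ i, g (x i) = g (y (j0 + 2 * k)) := by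
      intro k
      induction k with
      | zero => exact ⟨i0, by simpa using hij0⟩
      | succ k ih =>
        obtain ⟨i, hi⟩ := ih
        have e1 : j0 + 2 * ((k + 1 : ℕ) : ZMod 5) = j0 + 2 * (k : ZMod 5) + 2 := by
          push_cast; ring
        rw [e1]
        rcases step i _ hi with h | h
        · exact ⟨_, h⟩
        · exact ⟨_, h⟩
    have hall' : ∀ j, ∃ i, g (x i) = g (y j) := by
      intro j
      obtain ⟨i, hi⟩ := hall (3 * (j - j0)).val
      refine ⟨i, ?_⟩
      rw [hi]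
      congr 2
      rw [ZMod.natCast_val, ZMod.cast_id]
      have hq : ∀ k : ZMod 5, 2 * (3 * k) = k := by decide
      rw [hq]
      ring
    choose π hπ using hall'
    apply no_invol π
    · intro j
      rcases step _ _ (hπ j) with h | h
      · left
        exact hxi ((hπ (j + 2)).trans h.symm)
      · right
        exact hxi ((hπ (j + 2)).trans h.symm)
    · intro i
      have n1 : f (Z i) ∈ star a (g (x i)) := hfg _ _ (hs.ze i).1
      have n2 : f (Z i) ∈ star a (g (x (π i))) := by rw [hπ]; exact hfg _ _ (hs.ze i).2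
      have n3 : f (Z (π i)) ∈ star a (g (x (π i))) := hfg _ _ (hs.ze _).1
      have n4 : f (Z (π i)) ∈ star a (g (x (π (π i)))) := by
        rw [hπ]; exact hfg _ _ (hs.ze _).2
      have h3 := h1 _ _ _ (hZ i) (hZ (π i)) n2 n3
      rw [← h3] at n4
      rcases ends3 a n1 n2 n4 with h | h | h
      · have h4 := hxi h
        rw [← h4, ← h4]
      · exact (hxi h).symm
      · have h4 := hxi h
        have h5 : π i = i := by
          apply hyi
          change g (y (π i)) = g (y i)
          rw [← hπ i, ← hπ (π i)]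
          rw [← h4]
        rw [h5, h5]
  intro u v huv
  obtain ⟨i, hi⟩ := hs.surj u
  obtain ⟨j, hj⟩ := hs.surj v
  rcases hi with rfl | rfl <;> rcases hj with rfl | rfl
  · rw [hxi huv]
  · exact absurd huv (hxy _ _)
  · exact absurd huv.symm (hxy _ _)
  · rw [hyi huv]

end Pool.Agent.CCP
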