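import Pool.Agent.CCP.Base

/-!
# Finite facts on the Petersen graph
-/

set_option autoImplicit false

namespace Pool.Agent.CCP

open Finset Pool.Agent.CCO

theorem petersen_star (v : Petersen.V) : (star Petersen v).card = 3 := by
  revert v
  decide

/-- the outer circuit, the inner circuit, a circuit through two spokes -/
private theorem flow0 : IsFlow Petersen (fun e => if e.1 = 0 then 1 else 0) := by
  unfold IsFlow
  decide

private theorem flow1 : IsFlow Petersen (fun e => if e.1 = 1 then 1 else 0) := by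
  unfold IsFlow
  decide

private theorem flow2 (i : ZMod 5) : IsFlow Petersen (fun e => if e = (0, i) ∨ e = (2, i) ∨ e = (2, i + 1) ∨
    e = (1, i) ∨ e = (1, i + 2) ∨ e = (1, i + 4) then 1 else 0) := by
  unfold IsFlow
  revert i
  decide

theorem petersen_bridgeless : Bridgeless Petersen := by
  rw [bridgeless_iff]
  rintro ⟨a, i⟩
  fin_cases a
  · exact ⟨_, flow0, by simp⟩
  · exact ⟨_, flow1, by simp⟩
  · exact ⟨_, flow2 i, by simp⟩

/-- exactly one of three -/
private def ex1 (a b c : Bool) : Bool := (a && !b && !c) || (!a && b && !c) || (!a && !b && c)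

/-- the values of the `k`-th perfect matching; `none` are the spokes -/
private def pat : Option (ZMod 5) → Fin 3 × ZMod 5 → Bool
  | none, e => e.1 = 2
  | some k, e => e = (2, k) ∨ e = (0, k + 1) ∨ e = (0, k + 3) ∨ e = (1, k + 1) ∨ e = (1, k + 2)

/-- the values `o`, `n`, `s` on the outer edges, the inner edges and the spokes are those of `pat k` -/
private def isPat (o0 o1 o2 o3 o4 n0 n1 n2 n3 n4 s0 s1 s2 s3 s4 : Bool) (k : Option (ZMod 5)) : Bool :=
  (o0 == pat k (0, 0)) && (o1 == pat k (0, 1)) && (o2 == pat k (0, 2)) && (o3 == pat k (0, 3)) &&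
  (o4 == pat k (0, 4)) && (n0 == pat k (1, 0)) && (n1 == pat k (1, 1)) && (n2 == pat k (1, 2)) &&
  (n3 == pat k (1, 3)) && (n4 == pat k (1, 4)) && (s0 == pat k (2, 0)) && (s1 == pat k (2, 1)) &&
  (s2 == pat k (2, 2)) && (s3 == pat k (2, 3)) && (s4 == pat k (2, 4))

private def ks : List (Option (ZMod 5)) := [none, some 0, some 1, some 2, some 3, some 4]

set_option synthInstance.maxSize 4000 in
set_option synthInstance.maxHeartbeats 4000000 in
set_option maxRecDepth 100000 in
private theorem six0 : ∀ o0 o4 s0 : Bool, ex1 o0 o4 s0 = true → ∀ o1 s1 : Bool, ex1 o1 o0 s1 = true →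
    ∀ o2 s2 : Bool, ex1 o2 o1 s2 = true → ∀ o3 s3 : Bool, ex1 o3 o2 s3 = true →
    ∀ s4 : Bool, ex1 o4 o3 s4 = true → ∀ n0 n3 : Bool, ex1 n0 n3 s0 = true → ∀ n2 : Bool, ex1 n2 n0 s2 = true →
    ∀ n4 : Bool, ex1 n4 n2 s4 = true → ∀ n1 : Bool, ex1 n1 n4 s1 = true → ex1 n3 n1 s3 = true →
    ks.any (isPat o0 o1 o2 o3 o4 n0 n1 n2 n3 n4 s0 s1 s2 s3 s4) = true := by
  decide

private theorem six {o0 o1 o2 o3 o4 n0 n1 n2 n3 n4 s0 s1 s2 s3 s4 : Bool}
    (h : ks.any (isPat o0 o1 o2 o3 o4 n0 n1 n2 n3 n4 s0 s1 s2 s3 s4) = true) :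
    ∃ k : Option (ZMod 5), o0 = pat k (0, 0) ∧ o1 = pat k (0, 1) ∧ o2 = pat k (0, 2) ∧ o3 = pat k (0, 3) ∧
      o4 = pat k (0, 4) ∧ n0 = pat k (1, 0) ∧ n1 = pat k (1, 1) ∧ n2 = pat k (1, 2) ∧ n3 = pat k (1, 3) ∧
      n4 = pat k (1, 4) ∧ s0 = pat k (2, 0) ∧ s1 = pat k (2, 1) ∧ s2 = pat k (2, 2) ∧ s3 = pat k (2, 3) ∧
      s4 = pat k (2, 4) := by
  obtain ⟨k, -, hk⟩ := List.any_eq_true.1 h
  refine ⟨k, ?_⟩
  simp only [isPat, Bool.and_eq_true, beq_iff_eq] at hk
  tauto

private theorem ex1_of {N : Petersen.E → Prop} {v : Petersen.V} {a b c : Petersen.E}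
    (h : ∃ e ∈ star Petersen v, N e ∧ ∀ e' ∈ star Petersen v, N e' → e' = e) [DecidablePred N]
    (hs : ∀ e, e ∈ star Petersen v ↔ e = a ∨ e = b ∨ e = c) (hab : a ≠ b) (hac : a ≠ c) (hbc : b ≠ c) :
    ex1 (decide (N a)) (decide (N b)) (decide (N c)) = true := by
  obtain ⟨e, he, hN, hu⟩ := h
  have ha := hu a ((hs a).2 (Or.inl rfl))
  have hb := hu b ((hs b).2 (Or.inr (Or.inl rfl)))
  have hc := hu c ((hs c).2 (Or.inr (Or.inr rfl)))
  rcases (hs e).1 he with rfl | rfl | rfl
  · have h1 : ¬ N b := fun h => hab (hb h).symm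
    have h2 : ¬ N c := fun h => hac (hc h).symm
    simp [ex1, hN, h1, h2]
  · have h1 : ¬ N a := fun h => hab (ha h)
    have h2 : ¬ N c := fun h => hbc (hc h).symm
    simp [ex1, hN, h1, h2]
  · have h1 : ¬ N a := fun h => hac (ha h)
    have h2 : ¬ N b := fun h => hbc (hb h)
    simp [ex1, hN, h1, h2]

private theorem star_out : ∀ (i : ZMod 5) (e : Petersen.E), e ∈ star Petersen (false, i) ↔
    e = (0, i) ∨ e = (0, i + 4) ∨ e = (2, i) := by
  decide

private theorem star_in : ∀ (i : ZMod 5) (e : Petersen.E), e ∈ star Petersen (true, i) ↔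
    e = (1, i) ∨ e = (1, i + 3) ∨ e = (2, i) := by
  decide

/-- a perfect matching is one of six -/
private theorem exists_pat (N : Petersen.E → Prop) [DecidablePred N]
    (hN : ∀ v, ∃ e ∈ star Petersen v, N e ∧ ∀ e' ∈ star Petersen v, N e' → e' = e) :
    ∃ k, ∀ e, decide (N e) = pat k e := by
  have ho : ∀ i : ZMod 5, ex1 (decide (N (0, i))) (decide (N (0, i + 4))) (decide (N (2, i))) = true := fun i =>
    ex1_of (hN (false, i)) (star_out i) (by revert i; decide) (by revert i; decide) (by revert i; decide)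
  have hi : ∀ i : ZMod 5, ex1 (decide (N (1, i))) (decide (N (1, i + 3))) (decide (N (2, i))) = true := fun i =>
    ex1_of (hN (true, i)) (star_in i) (by revert i; decide) (by revert i; decide) (by revert i; decide)
  obtain ⟨k, h⟩ := six <| six0 (decide (N (0, 0))) (decide (N (0, 4))) (decide (N (2, 0))) (ho 0) (decide (N (0, 1)))
    (decide (N (2, 1))) (ho 1) (decide (N (0, 2))) (decide (N (2, 2))) (ho 2) (decide (N (0, 3))) (decide (N (2, 3)))
    (ho 3) (decide (N (2, 4))) (ho 4) (decide (N (1, 0))) (decide (N (1, 3))) (hi 0) (decide (N (1, 2))) (hi 2)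
    (decide (N (1, 4))) (hi 4) (decide (N (1, 1))) (hi 1) (hi 3)
  obtain ⟨h1, h2, h3, h4, h5, h6, h7, h8, h9, h10, h11, h12, h13, h14, h15⟩ := h
  refine ⟨k, ?_⟩
  rintro ⟨a, b⟩
  fin_cases a <;> fin_cases b
  · exact h1
  · exact h2
  · exact h3
  · exact h4
  · exact h5
  · exact h6
  · exact h7
  · exact h8
  · exact h9
  · exact h10
  · exact h11
  · exact h12
  · exact h13
  · exact h14
  · exact h15

/-- the presentation with the spokes `pat (some k)` -/
private def px (k : ZMod 5) : ZMod 5 → Petersen.V := fun i =>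
  if i = 0 then (false, k) else if i = 1 then (false, k + 1) else if i = 2 then (true, k + 1) else
    if i = 3 then (true, k + 4) else (false, k + 4)

private def py (k : ZMod 5) : ZMod 5 → Petersen.V := fun i =>
  if i = 0 then (true, k) else if i = 1 then (false, k + 2) else if i = 2 then (true, k + 3) else
    if i = 3 then (true, k + 2) else (false, k + 3)

private def pX (k : ZMod 5) : ZMod 5 → Petersen.E := fun i =>
  if i = 0 then (0, k) else if i = 1 then (2, k + 1) else if i = 2 then (1, k + 4) else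
    if i = 3 then (2, k + 4) else (0, k + 4)

private def pY (k : ZMod 5) : ZMod 5 → Petersen.E := fun i =>
  if i = 0 then (1, k + 3) else if i = 1 then (2, k + 2) else if i = 2 then (2, k + 3) else
    if i = 3 then (1, k) else (0, k + 2)

private def pZ (k : ZMod 5) : ZMod 5 → Petersen.E := fun i =>
  if i = 0 then (2, k) else if i = 1 then (0, k + 1) else if i = 2 then (1, k + 1) else
    if i = 3 then (1, k + 2) else (0, k + 3)

private theorem pstr_some (k : ZMod 5) : PStr (px k) (py k) (pX k) (pY k) (pZ k) := by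
  refine ⟨?_, ?_, ?_, ?_, ?_, ?_, ?_⟩ <;> revert k <;> decide

private theorem pstr_none : PStr (fun i => (false, i)) (fun i => (true, i)) (fun i => (0, i)) (fun i => (1, i))
    (fun i => (2, i)) := by
  refine ⟨?_, ?_, ?_, ?_, ?_, ?_, ?_⟩ <;> decide

/-- every perfect matching is the set of spokes of a presentation -/
theorem exists_pstr (N : Petersen.E → Prop)
    (hN : ∀ v, ∃ e ∈ star Petersen v, N e ∧ ∀ e' ∈ star Petersen v, N e' → e' = e) :
    ∃ (x y : ZMod 5 → Petersen.V) (X Y Z : ZMod 5 → Petersen.E), PStr x y X Y Z ∧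
      (∀ i, N (Z i)) ∧ (∀ i, ¬ N (X i)) ∧ (∀ i, ¬ N (Y i)) := by
  classical
  obtain ⟨k, hk⟩ := exists_pat N hN
  have hpos : ∀ e, pat k e = true → N e := fun e he => by
    have := hk e
    rw [he] at this
    exact of_decide_eq_true this
  have hneg : ∀ e, pat k e = false → ¬ N e := fun e he => by
    have := hk e
    rw [he] at this
    exact of_decide_eq_false this
  cases k with
  | none =>
    exact ⟨_, _, _, _, _, pstr_none, fun i => hpos _ (by revert i; decide), fun i => hneg _ (by revert i; decide),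
      fun i => hneg _ (by revert i; decide)⟩
  | some k =>
    exact ⟨_, _, _, _, _, pstr_some k, fun i => hpos _ (by clear hk hpos hneg; revert i k; decide),
      fun i => hneg _ (by clear hk hpos hneg; revert i k; decide),
      fun i => hneg _ (by clear hk hpos hneg; revert i k; decide)⟩

end Pool.Agent.CCP
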