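import Pool.Agent.CCP.ThreeCut
import Pool.Agent.CCP.Matching
import Pool.Agent.CCP.PetFin
import Pool.Agent.CCP.Pet42

/-!
# A bridgeless graph to which all bridgeless graphs map is equivalent to the Petersen graph
-/

set_option autoImplicit false

namespace Pool.Agent.CCP

open Finset Pool.Agent.CCO

variable {a : FinGraph}

theorem petersen_loopless : ∀ e : Petersen.E, Petersen.fst e ≠ Petersen.snd e := by
  decide

namespace UCtx

/-- The other end of an edge. -/
theorem ends2 (_h : UCtx a) {e : a.E} {u v : a.V} (huv : u ≠ v) (hu : e ∈ star a u)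
    (hv : e ∈ star a v) : (a.fst e = u ∧ a.snd e = v) ∨ (a.fst e = v ∧ a.snd e = u) := by
  rw [mem_star] at hu hv
  rcases hu with h1 | h1 <;> rcases hv with h2 | h2
  · exact absurd (h1.symm.trans h2) huv
  · exact Or.inl ⟨h1, h2⟩
  · exact Or.inr ⟨h2, h1⟩
  · exact absurd (h1.symm.trans h2) huv

/-- Two parallel edges in a universal core: the third edges agree and the graph is small. -/
theorem exists_pm (h : UCtx a) : ∃ M : Finset a.E, ∀ v, (M ∩ star a v).card = 1 := by
  by_cases hs : ∀ e e' : a.E, ∀ u v : a.V, u ≠ v → e ∈ star a u → e ∈ star a v → e' ∈ star a u →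
      e' ∈ star a v → e = e'
  · exact exists_matching a h.loopless h.cubic hs h.br
  · push Not at hs
    obtain ⟨e, e', u, v, huv, h1, h2, h3, h4, hne⟩ := hs
    obtain ⟨g, hg⟩ := exists_third (h.cubic u) h1 h3 hne
    obtain ⟨g', hg'⟩ := exists_third (h.cubic v) h2 h4 hne
    have hgg : g = g' := by
      apply h.ev_inj
      exact (z2_eq (h.tri_ev hg)).symm.trans (z2_eq (h.tri_ev hg'))
    subst hgg
    -- every vertex is u or v
    classical
    have hst : ∀ x, x ∈ star a u ↔ x ∈ star a v := by
      intro x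
      rw [hg.1, hg'.1]
    have hz : ∀ x, (if a.fst x = u ∨ a.fst x = v then (1 : ZMod 2) else 0) =
        if a.snd x = u ∨ a.snd x = v then 1 else 0 := by
      intro x
      have key : (a.fst x = u ∨ a.fst x = v) ↔ (a.snd x = u ∨ a.snd x = v) := by
        constructor
        · rintro (k | k)
          · have m1 : x ∈ star a u := by rw [mem_star]; exact Or.inl k
            rcases h.ends2 huv m1 ((hst x).mp m1) with ⟨_, k2⟩ | ⟨_, k2⟩
            · exact Or.inr k2
            · exact Or.inl k2
          · have m1 : x ∈ star a v := by rw [mem_star]; exact Or.inl k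
            rcases h.ends2 huv ((hst x).mpr m1) m1 with ⟨_, k2⟩ | ⟨_, k2⟩
            · exact Or.inr k2
            · exact Or.inl k2
        · rintro (k | k)
          · have m1 : x ∈ star a u := by rw [mem_star]; exact Or.inr k
            rcases h.ends2 huv m1 ((hst x).mp m1) with ⟨k2, _⟩ | ⟨k2, _⟩
            · exact Or.inl k2
            · exact Or.inr k2
          · have m1 : x ∈ star a v := by rw [mem_star]; exact Or.inr k
            rcases h.ends2 huv ((hst x).mpr m1) m1 with ⟨k2, _⟩ | ⟨k2, _⟩
            · exact Or.inl k2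
            · exact Or.inr k2
      simp only [key]
    have hconn := h.conn (fun w => if w = u ∨ w = v then 1 else 0) hz
    have hall : ∀ w, w = u ∨ w = v := by
      intro w
      have h5 := hconn w u
      simp only [true_or, if_true] at h5
      by_contra hcon
      rw [if_neg hcon] at h5
      exact absurd h5.symm one_ne_zero
    refine ⟨{e}, fun w => ?_⟩
    rcases hall w with rfl | rfl
    · rw [singleton_inter_of_mem h1, card_singleton]
    · rw [singleton_inter_of_mem h2, card_singleton]

theorem le_petersen (h : UCtx a) : Le a Petersen := by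
  classical
  obtain ⟨f, hf⟩ := h.univ Petersen petersen_bridgeless
  -- the vertex map
  have hstar : ∀ x : Petersen.V, ∃ (v : a.V) (p q r : Petersen.E), Tri Petersen x p q r ∧
      Tri a v (f p) (f q) (f r) := by
    intro x
    obtain ⟨p, q, r, h1, h2, h3, h4⟩ := card_eq_three.mp (petersen_star x)
    have ht : Tri Petersen x p q r := ⟨h4, h1, h2, h3⟩
    have h5 := cc_iff.mp hf x
    rw [bd_eq_star petersen_loopless (fun e => ev a (f e)), ht.sum] at h5
    obtain ⟨v, hv⟩ := h.tri_of_sum h5
    exact ⟨v, p, q, r, ht, hv⟩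
  choose g P Q S hT hT' using hstar
  have hfg : ∀ v e, e ∈ star Petersen v → f e ∈ star a (g v) := by
    intro v e he
    rcases (hT v).cases he with k | k | k
    · rw [k]; exact (hT' v).mem1
    · rw [k]; exact (hT' v).mem2
    · rw [k]; exact (hT' v).mem3
  have hinj : ∀ v e e', e ∈ star Petersen v → e' ∈ star Petersen v → f e = f e' → e = e' := by
    intro v e e' he he' hee
    have hd := (hT' v).2
    rcases (hT v).cases he with k | k | k <;> rcases (hT v).cases he' with k' | k' | k' <;>
      rw [k, k'] at hee ⊢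
    · exact absurd hee hd.1
    · exact absurd hee hd.2.1
    · exact absurd hee.symm hd.1
    · exact absurd hee hd.2.2
    · exact absurd hee.symm hd.2.1
    · exact absurd hee.symm hd.2.2
  have hback : ∀ v, ∀ e ∈ star a (g v), ∃ e' ∈ star Petersen v, e = f e' := by
    intro v e he
    rcases (hT' v).cases he with k | k | k
    · exact ⟨_, (hT v).mem1, k⟩
    · exact ⟨_, (hT v).mem2, k⟩
    · exact ⟨_, (hT v).mem3, k⟩
  obtain ⟨M, hM⟩ := h.exists_pm
  have hMex : ∀ v, ∃ m, m ∈ M ∧ m ∈ star a v ∧ ∀ m' ∈ M, m' ∈ star a v → m' = m := by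
    intro v
    obtain ⟨m, hm⟩ := card_eq_one.mp (hM v)
    have h1 : m ∈ M ∩ star a v := by rw [hm]; simp
    rw [mem_inter] at h1
    refine ⟨m, h1.1, h1.2, fun m' k1 k2 => ?_⟩
    have h2 : m' ∈ M ∩ star a v := mem_inter.mpr ⟨k1, k2⟩
    rw [hm, mem_singleton] at h2
    exact h2
  have h1 : ∀ v e e', ¬ e ∉ M → ¬ e' ∉ M → e ∈ star a v → e' ∈ star a v → e = e' := by
    intro v e e' he he' k k'
    rw [not_not] at he he'
    obtain ⟨m, _, _, h3⟩ := hMex v
    rw [h3 e he k, h3 e' he' k']
  have h2 : ∀ v e e' e'', e ∉ M → e' ∉ M → e'' ∉ M → e ∈ star a v → e' ∈ star a v →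
      e'' ∈ star a v → e = e' ∨ e = e'' ∨ e' = e'' := by
    intro v e e' e'' k1 k2 k3 l1 l2 l3
    by_contra hcon
    push Not at hcon
    have ht := tri_of_mem (h.cubic v) l1 l2 l3 hcon.1 hcon.2.1 hcon.2.2
    obtain ⟨m, hm1, hm2, _⟩ := hMex v
    rcases ht.cases hm2 with k | k | k
    · exact k1 (k ▸ hm1)
    · exact k2 (k ▸ hm1)
    · exact k3 (k ▸ hm1)
  have htri : ∀ u v w p q r, u ≠ v → u ≠ w → v ≠ w → p ∉ M → q ∉ M → r ∉ M →
      p ∈ star a u → p ∈ star a v → q ∈ star a v → q ∈ star a w → r ∈ star a w →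
      r ∈ star a u → False := by
    intro u v w p q r huv huw hvw hp hq hr pu pv qv qw rw' ru
    have hpq : p ≠ q := by
      rintro rfl
      rcases ends3 a pu pv qw with k | k | k
      · exact huv k
      · exact huw k
      · exact hvw k
    have hqr : q ≠ r := by
      rintro rfl
      rcases ends3 a qv qw ru with k | k | k
      · exact hvw k
      · exact huv k.symm
      · exact huw k.symm
    have hpr : p ≠ r := by
      rintro rfl
      rcases ends3 a pu pv rw' with k | k | k
      · exact huv k
      · exact huw k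
      · exact hvw k
    obtain ⟨mu, mu1, mu2, _⟩ := hMex u
    obtain ⟨mv, mv1, mv2, _⟩ := hMex v
    obtain ⟨mw, mw1, mw2, _⟩ := hMex w
    have tu : Tri a u p r mu := tri_of_mem (h.cubic u) pu ru mu2 hpr
      (fun k => hp (k ▸ mu1)) (fun k => hr (k ▸ mu1))
    have tv : Tri a v p q mv := tri_of_mem (h.cubic v) pv qv mv2 hpq
      (fun k => hp (k ▸ mv1)) (fun k => hq (k ▸ mv1))
    have tw : Tri a w q r mw := tri_of_mem (h.cubic w) qw rw' mw2 hqr
      (fun k => hq (k ▸ mw1)) (fun k => hr (k ▸ mw1))
    have su := z2_eq (h.tri_ev tu)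
    have sv := z2_eq (h.tri_ev tv)
    have sw := z2_eq (h.tri_ev tw)
    have hsum : ev a mu + ev a mv + ev a mw = 0 := by
      rw [← su, ← sv, ← sw]
      calc ev a p + ev a r + (ev a p + ev a q) + (ev a q + ev a r) =
          (ev a p + ev a p) + (ev a q + ev a q) + (ev a r + ev a r) := by abel
        _ = 0 := by rw [z2_self (ev a p), z2_self (ev a q), z2_self (ev a r), add_zero, add_zero]
    obtain ⟨t, ht⟩ := h.tri_of_sum hsum
    have := h1 t mu mv (not_not.mpr mu1) (not_not.mpr mv1) ht.mem1 ht.mem2
    exact ht.2.1 this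
  -- the preimage of the matching
  obtain ⟨x, y, X, Y, Z, hs, hZ, hX, hY⟩ := exists_pstr (fun e => f e ∈ M) (by
    intro v
    obtain ⟨m, hm1, hm2, hm3⟩ := hMex (g v)
    obtain ⟨e, he, rfl⟩ := hback v m hm2
    refine ⟨e, he, hm1, fun e' he' hN => ?_⟩
    exact hinj v _ _ he' he (hm3 _ hN (hfg v e' he')))
  have hg : Function.Injective g := pet_inj42 a (fun e => e ∉ M) h2 h1 htri f g hfg hinj x y X Y Z
    hs (fun i => not_not.mpr (hZ i)) hX hY
  -- f is injective
  have hfi : Function.Injective f := by
    intro e e' hee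
    have k1 := hfg _ e (fst_mem_star e)
    have k2 := hfg _ e (snd_mem_star e)
    have k3 := hfg _ e' (fst_mem_star e')
    rw [← hee] at k3
    have hne : g (Petersen.fst e) ≠ g (Petersen.snd e) :=
      fun h => petersen_loopless e (hg h)
    rcases ends3 a k1 k2 k3 with k | k | k
    · exact absurd k hne
    · have := hg k
      apply hinj (Petersen.fst e) e e' (fst_mem_star e) _ hee
      rw [this]
      exact fst_mem_star e'
    · have := hg k
      apply hinj (Petersen.snd e) e e' (snd_mem_star e) _ hee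
      rw [this]
      exact fst_mem_star e'
  -- every vertex is in the image
  have hall : ∀ u, ∃ x, g x = u := by
    have key : ∀ e, (∃ x, g x = a.fst e) ↔ (∃ x, g x = a.snd e) := by
      intro e
      have half : ∀ u w : a.V, e ∈ star a u → e ∈ star a w → (∃ x, g x = u) → ∃ x, g x = w := by
        rintro u w hu hw ⟨x, rfl⟩
        obtain ⟨e', he', rfl⟩ := hback x e hu
        have k1 := hfg _ e' (fst_mem_star e')
        have k2 := hfg _ e' (snd_mem_star e')
        rcases ends3 a k1 k2 hw with k | k | k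
        · exact absurd (hg k) (petersen_loopless e')
        · exact ⟨_, k⟩
        · exact ⟨_, k⟩
      exact ⟨half _ _ (fst_mem_star e) (snd_mem_star e), half _ _ (snd_mem_star e) (fst_mem_star e)⟩
    have hconn := h.conn (fun u => if ∃ x, g x = u then 1 else 0) (fun e => by simp only [key e])
    intro u
    have h5 := hconn u (g (x 0))
    have h6 : ∃ x', g x' = g (x 0) := ⟨_, rfl⟩
    simp only [h6, if_true] at h5
    by_contra hcon
    rw [if_neg hcon] at h5
    exact absurd h5.symm one_ne_zero
  have hfs : Function.Surjective f := by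
    intro e
    obtain ⟨x', hx'⟩ := hall (a.fst e)
    have : e ∈ star a (g x') := by rw [hx']; exact fst_mem_star e
    obtain ⟨e', _, he'⟩ := hback x' e this
    exact ⟨e', he'.symm⟩
  obtain ⟨k, hk1, hk2⟩ := Function.bijective_iff_has_inverse.mp ⟨hfi, hfs⟩
  refine ⟨k, fun φ hφ u => ?_⟩
  obtain ⟨x', rfl⟩ := hall u
  rw [bd_eq_star h.loopless, (hT' x').sum, hk1, hk1, hk1, ← (hT x').sum,
    ← bd_eq_star petersen_loopless]
  exact hφ x'

end UCtx

/-- A bridgeless graph to which all bridgeless graphs map maps to the Petersen graph. -/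
theorem univ_petersen (U : FinGraph) (hU : Bridgeless U)
    (h : ∀ G : FinGraph, Bridgeless G → Le G U) : Le U Petersen := by
  obtain ⟨a', h1, h2, hcore, hiso⟩ := exists_core U
  have hbr : Bridgeless a' := by
    rw [bridgeless_iff] at hU ⊢
    obtain ⟨f, hf⟩ := h2
    intro e
    obtain ⟨φ, hφ, h3⟩ := hU (f e)
    exact ⟨fun e => φ (f e), hf φ hφ, h3⟩
  have hc : UCtx a' := ⟨hcore, hiso, hbr, fun G hG => le_trans' (h G hG) h1⟩
  exact le_trans' h1 hc.le_petersen

end Pool.Agent.CCP
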