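import Pool.Agent.CCP.Base

set_option autoImplicit false

namespace Pool.Agent.CCP

open Finset Pool.Agent.CCO

theorem ends3 (a : FinGraph) {e : a.E} {u v w : a.V} (hu : e ∈ star a u) (hv : e ∈ star a v)
    (hw : e ∈ star a w) : u = v ∨ u = w ∨ v = w := by
  rw [mem_star] at hu hv hw
  rcases hu with h1 | h1 <;> rcases hv with h2 | h2 <;> rcases hw with h3 | h3
  · exact Or.inl (h1.symm.trans h2)
  · exact Or.inl (h1.symm.trans h2)
  · exact Or.inr (Or.inl (h1.symm.trans h3))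
  · exact Or.inr (Or.inr (h2.symm.trans h3))
  · exact Or.inr (Or.inr (h2.symm.trans h3))
  · exact Or.inr (Or.inl (h1.symm.trans h3))
  · exact Or.inl (h1.symm.trans h2)
  · exact Or.inl (h1.symm.trans h2)

theorem zcase : ∀ i j : ZMod 5, i ≠ j → j = i + 1 ∨ j = i + 2 ∨ i = j + 1 ∨ i = j + 2 := by
  decide

section
variable (a : FinGraph) (R : a.E → Prop)
  (h2 : ∀ v e e' e'', R e → R e' → R e'' → e ∈ star a v → e' ∈ star a v → e'' ∈ star a v →
      e = e' ∨ e = e'' ∨ e' = e'')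
  (htri : ∀ u v w p q r, u ≠ v → u ≠ w → v ≠ w → R p → R q → R r → p ∈ star a u → p ∈ star a v →
      q ∈ star a v → q ∈ star a w → r ∈ star a w → r ∈ star a u → False)

include h2 htri in
theorem nofold0 {v0 v1 v2 v3 v4 : a.V} {e0 e1 e2 e3 e4 : a.E}
    (a0 : e0 ∈ star a v0) (b0 : e0 ∈ star a v1) (a1 : e1 ∈ star a v1) (b1 : e1 ∈ star a v2)
    (a2 : e2 ∈ star a v2) (b2 : e2 ∈ star a v3) (a3 : e3 ∈ star a v3) (b3 : e3 ∈ star a v4)
    (a4 : e4 ∈ star a v4) (b4 : e4 ∈ star a v0)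
    (n0 : e0 ≠ e1) (n1 : e1 ≠ e2) (n2 : e2 ≠ e3) (n3 : e3 ≠ e4) (n4 : e4 ≠ e0)
    (r0 : R e0) (r1 : R e1) (r2 : R e2) (r3 : R e3) (r4 : R e4) : v0 ≠ v1 := by
  rintro rfl
  -- three distinct edges at a vertex are impossible
  have no3 : ∀ v e e' e'', R e → R e' → R e'' → e ∈ star a v → e' ∈ star a v →
      e'' ∈ star a v → e ≠ e' → e ≠ e'' → e' ≠ e'' → False := by
    intro v e e' e'' x1 x2 x3 y1 y2 y3 z1 z2 z3
    rcases h2 v e e' e'' x1 x2 x3 y1 y2 y3 with h | h | h
    · exact z1 h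
    · exact z2 h
    · exact z3 h
  have h41 : e4 = e1 := by
    by_contra h
    exact no3 v0 e4 e0 e1 r4 r0 r1 b4 a0 a1 n4 h n0
  subst h41
  rcases ends3 a a1 b1 a4 with h | h | h
  · -- v0 = v2
    subst h
    have h02 : e0 = e2 := by
      by_contra h
      exact no3 v0 e0 e4 e2 r0 r1 r2 a0 a1 a2 n0 h n1
    subst h02
    by_cases k1 : v0 = v3
    · subst k1
      exact no3 v0 e0 e4 e3 r0 r1 r3 a0 a1 a3 n0 n2 n3.symm
    by_cases k2 : v0 = v4
    · subst k2
      exact no3 v0 e0 e4 e3 r0 r1 r3 a0 a1 b3 n0 n2 n3.symm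
    by_cases k3 : v3 = v4
    · subst k3
      exact no3 v3 e0 e3 e4 r0 r3 r4 b2 a3 a4 n2 n0 n3
    exact htri v0 v3 v4 e0 e3 e4 k1 k2 k3 r0 r3 r4 a0 b2 a3 b3 a4 b4
  · -- v0 = v4
    subst h
    have h03 : e0 = e3 := by
      by_contra h
      exact no3 v0 e0 e4 e3 r0 r1 r3 a0 a1 b3 n0 h n3.symm
    subst h03
    by_cases k1 : v0 = v2
    · subst k1
      exact no3 v0 e0 e4 e2 r0 r1 r2 a0 a1 a2 n0 n2.symm n1
    by_cases k2 : v0 = v3
    · subst k2
      exact no3 v0 e0 e4 e2 r0 r1 r2 a0 a1 b2 n0 n2.symm n1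
    by_cases k3 : v2 = v3
    · subst k3
      exact no3 v2 e4 e2 e0 r4 r2 r0 b1 a2 a3 n1 n0.symm n2
    exact htri v0 v2 v3 e4 e2 e0 k1 k2 k3 r4 r2 r0 a1 b1 a2 b2 a3 a0
  · -- v2 = v4
    subst h
    exact no3 v2 e4 e2 e3 r4 r2 r3 b1 a2 b3 n1 n3.symm n2

include h2 htri in
/-- A closed walk of length five in a 2-regular graph without triangle is a circuit. -/
theorem five_inj (v : ZMod 5 → a.V) (e : ZMod 5 → a.E)
    (he : ∀ i, e i ∈ star a (v i) ∧ e i ∈ star a (v (i + 1)))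
    (hne : ∀ i, e i ≠ e (i + 1)) (hR : ∀ i, R (e i)) : Function.Injective v := by
  have hfold : ∀ i, v i ≠ v (i + 1) := by
    intro i
    have q2 : i + 1 + 1 = i + 2 := by ring
    have q3 : i + 2 + 1 = i + 3 := by ring
    have q4 : i + 3 + 1 = i + 4 := by ring
    have q5 : i + 4 + 1 = i := by
      have : (5 : ZMod 5) = 0 := by decide
      calc i + 4 + 1 = i + 5 := by ring
        _ = i := by rw [this, add_zero]
    have c0 := he i
    have c1 := he (i + 1)
    have c2 := he (i + 2)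
    have c3 := he (i + 3)
    have c4 := he (i + 4)
    have d0 := hne i
    have d1 := hne (i + 1)
    have d2 := hne (i + 2)
    have d3 := hne (i + 3)
    have d4 := hne (i + 4)
    rw [q2] at c1 d1
    rw [q3] at c2 d2
    rw [q4] at c3 d3
    rw [q5] at c4 d4
    exact nofold0 a R h2 htri c0.1 c0.2 c1.1 c1.2 c2.1 c2.2 c3.1 c3.2 c4.1 c4.2 d0 d1 d2 d3 d4
      (hR _) (hR _) (hR _) (hR _) (hR _)
  have no3 : ∀ v e e' e'', R e → R e' → R e'' → e ∈ star a v → e' ∈ star a v →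
      e'' ∈ star a v → e ≠ e' → e ≠ e'' → e' ≠ e'' → False := by
    intro v e e' e'' x1 x2 x3 y1 y2 y3 z1 z2 z3
    rcases h2 v e e' e'' x1 x2 x3 y1 y2 y3 with h | h | h
    · exact z1 h
    · exact z2 h
    · exact z3 h
  have htwo : ∀ i, v i ≠ v (i + 2) := by
    intro i hi
    have q2 : i + 1 + 1 = i + 2 := by ring
    have q3 : i + 2 + 1 = i + 3 := by ring
    have q4 : i + 3 + 1 = i + 4 := by ring
    have q5 : i + 4 + 1 = i := by
      have : (5 : ZMod 5) = 0 := by decide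
      calc i + 4 + 1 = i + 5 := by ring
        _ = i := by rw [this, add_zero]
    have c0 := he i
    have c1 := he (i + 1)
    have c2 := he (i + 2)
    have c3 := he (i + 3)
    have c4 := he (i + 4)
    have d0 := hne i
    have d1 := hne (i + 1)
    have d2 := hne (i + 2)
    have d3 := hne (i + 3)
    have d4 := hne (i + 4)
    have f0 := hfold i
    have f1 := hfold (i + 1)
    have f2 := hfold (i + 2)
    have f3 := hfold (i + 3)
    have f4 := hfold (i + 4)
    rw [q2] at c1 d1 f1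
    rw [q3] at c2 d2 f2
    rw [q4] at c3 d3 f3
    rw [q5] at c4 d4 f4
    rw [← hi] at c1 c2 f1 f2
    have g1 : e (i + 4) = e (i + 1) := by
      by_contra h
      exact no3 (v i) _ _ _ (hR (i + 4)) (hR i) (hR (i + 1)) c4.2 c0.1 c1.2 d4 h d0
    have g2 : e i = e (i + 2) := by
      by_contra h
      exact no3 (v i) _ _ _ (hR i) (hR (i + 1)) (hR (i + 2)) c0.1 c1.2 c2.1 d0 h d1
    have k1 : v (i + 1) = v (i + 3) := by
      have m1 : e i ∈ star a (v (i + 3)) := by rw [g2]; exact c2.2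
      rcases ends3 a c0.1 c0.2 m1 with h | h | h
      · exact absurd h f0
      · exact absurd h f2
      · exact h
    have k2 : v (i + 1) = v (i + 4) := by
      have m1 : e (i + 1) ∈ star a (v (i + 4)) := by rw [← g1]; exact c4.1
      rcases ends3 a c1.1 c1.2 m1 with h | h | h
      · exact absurd h f1
      · exact h
      · exact absurd h.symm f4
    exact f3 (k1.symm.trans k2)
  intro i j hij
  by_contra hne'
  have hcase := zcase i j hne'
  rcases hcase with h | h | h | h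
  · exact hfold i (by rw [hij, h])
  · exact htwo i (by rw [hij, h])
  · exact hfold j (by rw [← hij, h])
  · exact htwo j (by rw [← hij, h])

end

end Pool.Agent.CCP
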