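import Pool.Agent.CCP.Cubic

set_option autoImplicit false

namespace Pool.Agent.CCP

open Finset Pool.Agent.CCO

variable {a : FinGraph}

/-- The non-loop edges at `v` are detached from `v`: the edge `e` is attached to the new vertex
`i e` instead. -/
@[reducible] def cutoff (H : FinGraph) (v : H.V) {N : Type} [Fintype N] [DecidableEq N]
    (i : H.E → N) : FinGraph where
  V := H.V ⊕ N
  E := H.E
  fintypeV := inferInstance
  fintypeE := inferInstance
  decV := inferInstance
  decE := inferInstance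
  fst := fun e => if H.fst e = v ∧ H.snd e ≠ v then Sum.inr (i e) else Sum.inl (H.fst e)
  snd := fun e => if H.snd e = v ∧ H.fst e ≠ v then Sum.inr (i e) else Sum.inl (H.snd e)
  nonempty := H.nonempty

theorem bd_cutoff_inl {A : Type} [AddCommMonoid A] (H : FinGraph) (v : H.V) {N : Type}
    [Fintype N] [DecidableEq N] (i : H.E → N) (φ : H.E → A) (x : H.V) (hx : x ≠ v) :
    bd (cutoff H v i) φ (Sum.inl x) = bd H φ x := by
  unfold bd
  apply sum_congr rfl
  intro e _
  congr 1
  · by_cases h1 : H.fst e = v ∧ H.snd e ≠ v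
    · have h2 : H.fst e ≠ x := by rw [h1.1]; exact hx.symm
      simp [h1, hx.symm]
    · simp [h1]
  · by_cases h1 : H.snd e = v ∧ H.fst e ≠ v
    · have h2 : H.snd e ≠ x := by rw [h1.1]; exact hx.symm
      simp [h1, hx.symm]
    · simp [h1]

theorem bd_cutoff_v {A : Type} [AddCommGroup A] [Module (ZMod 2) A] (H : FinGraph) (v : H.V)
    {N : Type} [Fintype N] [DecidableEq N] (i : H.E → N) (φ : H.E → A) :
    bd (cutoff H v i) φ (Sum.inl v) = 0 := by
  unfold bd
  apply sum_eq_zero
  intro e _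
  by_cases h1 : H.fst e = v
  · by_cases h2 : H.snd e = v
    · simp [h1, h2, z2_self]
    · simp [h1, h2]
  · by_cases h2 : H.snd e = v
    · simp [h1, h2]
    · simp [h1, h2]

theorem bd_cutoff_inr {A : Type} [AddCommMonoid A] (H : FinGraph) (v : H.V)
    {N : Type} [Fintype N] [DecidableEq N] (i : H.E → N) (φ : H.E → A) (n : N) :
    bd (cutoff H v i) φ (Sum.inr n) =
      ∑ e, if (¬ (H.fst e = v ↔ H.snd e = v)) ∧ i e = n then φ e else 0 := by
  unfold bd
  apply sum_congr rfl
  intro e _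
  by_cases h1 : H.fst e = v
  · by_cases h2 : H.snd e = v
    · simp [h1, h2]
    · simp [h1, h2]
  · by_cases h2 : H.snd e = v
    · simp [h1, h2]
    · simp [h1, h2]

/-- The gluing of `H` at `v` and `K` at `w`. -/
@[reducible] def glue (H K : FinGraph) (v : H.V) (w : K.V) {N : Type} [Fintype N]
    [DecidableEq N] (i : H.E → N) (j : K.E → N) : FinGraph :=
  mapV (union (cutoff H v i) (cutoff K w j)) (W := (H.V ⊕ K.V) ⊕ N)
    (Sum.elim (Sum.elim (fun x => Sum.inl (Sum.inl x)) Sum.inr)
      (Sum.elim (fun y => Sum.inl (Sum.inr y)) Sum.inr))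

section
variable {H K : FinGraph} {v : H.V} {w : K.V} {N : Type} [Fintype N] [DecidableEq N]
  {i : H.E → N} {j : K.E → N}

theorem bd_glue_l {A : Type} [AddCommMonoid A] (φ : H.E ⊕ K.E → A) (x : H.V) :
    bd (glue H K v w i j) φ (Sum.inl (Sum.inl x)) =
      bd (cutoff H v i) (fun e => φ (Sum.inl e)) (Sum.inl x) := by
  rw [bd_mapV, Fintype.sum_sum_type, Fintype.sum_sum_type, Fintype.sum_sum_type]
  simp only [Sum.elim_inl, Sum.elim_inr, Sum.inl.injEq, reduceCtorEq, if_false, sum_const_zero,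
    add_zero, sum_ite_eq', mem_univ, if_true]
  exact bd_union_inl _ _ _ _

theorem bd_glue_r {A : Type} [AddCommMonoid A] (φ : H.E ⊕ K.E → A) (y : K.V) :
    bd (glue H K v w i j) φ (Sum.inl (Sum.inr y)) =
      bd (cutoff K w j) (fun e => φ (Sum.inr e)) (Sum.inl y) := by
  rw [bd_mapV, Fintype.sum_sum_type, Fintype.sum_sum_type, Fintype.sum_sum_type]
  simp only [Sum.elim_inl, Sum.elim_inr, Sum.inl.injEq, Sum.inr.injEq, reduceCtorEq, if_false,
    sum_const_zero, add_zero, zero_add, sum_ite_eq', mem_univ, if_true]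
  exact bd_union_inr _ _ _ _

theorem bd_glue_n {A : Type} [AddCommMonoid A] (φ : H.E ⊕ K.E → A) (n : N) :
    bd (glue H K v w i j) φ (Sum.inr n) =
      bd (cutoff H v i) (fun e => φ (Sum.inl e)) (Sum.inr n) +
      bd (cutoff K w j) (fun e => φ (Sum.inr e)) (Sum.inr n) := by
  rw [bd_mapV, Fintype.sum_sum_type, Fintype.sum_sum_type, Fintype.sum_sum_type]
  simp only [Sum.elim_inl, Sum.elim_inr, Sum.inr.injEq, reduceCtorEq, if_false,
    sum_const_zero, zero_add, sum_ite_eq', mem_univ, if_true]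
  rw [bd_union_inl, bd_union_inr]

end

end Pool.Agent.CCP
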