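import Mathlib

set_option autoImplicit false

namespace Pool.Agent.CCP.OldNoUpperCover

open Finset

/-- A finite graph with at least one edge; loops and parallel edges are allowed.
The edge `e` joins the (possibly equal) vertices `fst e` and `snd e`. -/
structure FinGraph where
  /-- vertices -/
  V : Type
  /-- edges -/
  E : Type
  fintypeV : Fintype V
  fintypeE : Fintype E
  decV : DecidableEq V
  decE : DecidableEq E
  /-- one end of an edge -/
  fst : E → V
  /-- the other end of an edge -/
  snd : E → V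
  nonempty : Nonempty E

attribute [instance] FinGraph.fintypeV FinGraph.fintypeE FinGraph.decV FinGraph.decE
  FinGraph.nonempty

/-- The sum of `φ` over the edges at `v` (a loop at `v` is counted twice). -/
def bd (G : FinGraph) (φ : G.E → ZMod 2) (v : G.V) : ZMod 2 :=
  ∑ e, ((if G.fst e = v then φ e else 0) + (if G.snd e = v then φ e else 0))

/-- `φ` is a `ℤ₂`-flow on `G`. -/
def IsFlow (G : FinGraph) (φ : G.E → ZMod 2) : Prop := ∀ v, bd G φ v = 0

/-- `f : E(G) → E(H)` is cycle-continuous. -/
def CC (G H : FinGraph) (f : G.E → H.E) : Prop :=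
  ∀ φ : H.E → ZMod 2, IsFlow H φ → IsFlow G (fun e => φ (f e))

/-- `G → H`: there is a cycle-continuous map from `G` to `H`. -/
def Le (G H : FinGraph) : Prop := ∃ f : G.E → H.E, CC G H f

/-- `G < H` in the cc order: `G → H` but not `H → G`. -/
def Lt (G H : FinGraph) : Prop := Le G H ∧ ¬ Le H G

/-- The edge cut of a vertex set `W`: the edges with exactly one end in `W`. -/
def cut (G : FinGraph) (W : Finset G.V) : Finset G.E :=
  univ.filter (fun e => ¬ (G.fst e ∈ W ↔ G.snd e ∈ W))

/-! ### Basic facts -/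

theorem zmod2_add_self (x : ZMod 2) : x + x = 0 := CharTwo.add_self_eq_zero x

theorem bd_add (G : FinGraph) (φ ψ : G.E → ZMod 2) (v : G.V) :
    bd G (fun e => φ e + ψ e) v = bd G φ v + bd G ψ v := by
  unfold bd
  rw [← sum_add_distrib]
  apply sum_congr rfl
  intro e _
  split <;> split <;> ring

/-- Pairing of a boundary with a potential. -/
theorem bd_pair (G : FinGraph) (φ : G.E → ZMod 2) (w : G.V → ZMod 2) :
    ∑ v, w v * bd G φ v = ∑ e, (w (G.fst e) + w (G.snd e)) * φ e := by
  unfold bd
  simp only [mul_sum]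
  rw [sum_comm]
  apply sum_congr rfl
  intro e _
  simp only [mul_add, mul_ite, mul_zero, sum_add_distrib, sum_ite_eq, mem_univ, if_true]
  ring

theorem sum_bd (G : FinGraph) (φ : G.E → ZMod 2) : ∑ v, bd G φ v = 0 := by
  have h := bd_pair G φ (fun _ => 1)
  simp only [one_mul] at h
  rw [h]
  apply sum_eq_zero
  intro e _
  have : (1 + 1 : ZMod 2) = 0 := by decide
  rw [this, zero_mul]

theorem le_refl (G : FinGraph) : Le G G := ⟨id, fun _ h => h⟩

theorem le_trans' {G H K : FinGraph} (h1 : Le G H) (h2 : Le H K) : Le G K := by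
  obtain ⟨f, hf⟩ := h1
  obtain ⟨g, hg⟩ := h2
  exact ⟨fun e => g (f e), fun φ hφ => hf _ (hg φ hφ)⟩

/-- Orthogonality to all flows implies being a cut. -/
theorem exists_potential (G : FinGraph) (ψ : G.E → ZMod 2)
    (h : ∀ φ, IsFlow G φ → ∑ e, ψ e * φ e = 0) :
    ∃ w : G.V → ZMod 2, ∀ e, ψ e = w (G.fst e) + w (G.snd e) := by
  classical
  set δ : (G.V → ZMod 2) →ₗ[ZMod 2] (G.E → ZMod 2) :=
    { toFun := fun w e => w (G.fst e) + w (G.snd e)
      map_add' := by
        intro w w'
        funext e
        simp only [Pi.add_apply]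
        ring
      map_smul' := by
        intro c w
        funext e
        simp only [Pi.smul_apply, smul_eq_mul, RingHom.id_apply]
        ring } with hδ
  by_contra hcon
  have hψ : ψ ∉ LinearMap.range δ := by
    rintro ⟨w, hw⟩
    apply hcon
    refine ⟨w, fun e => ?_⟩
    rw [← hw]
    rfl
  obtain ⟨f, hf1, hf2⟩ := Submodule.exists_le_ker_of_notMem hψ
  set φ : G.E → ZMod 2 := fun e => f (fun j => if e = j then 1 else 0) with hφ
  have hrep : ∀ x : G.E → ZMod 2, f x = ∑ e, x e * φ e := by
    intro x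
    rw [LinearMap.pi_apply_eq_sum_univ f x]
    rfl
  have hflow : IsFlow G φ := by
    intro v
    have h1 : f (δ (fun x => if x = v then 1 else 0)) = 0 :=
      hf2 ⟨_, rfl⟩
    rw [hrep] at h1
    rw [← h1]
    unfold bd
    apply sum_congr rfl
    intro e _
    simp only [hδ, LinearMap.coe_mk, AddHom.coe_mk]
    split <;> split <;> ring
  apply hf1
  rw [hrep]
  exact h φ hflow

theorem four_aux {α : Type} [DecidableEq α] (x1 x2 y1 y2 : α)
    (e1 : (if x1 = x1 then 1 else 0) + (if x2 = x1 then 1 else 0) +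
      (if y1 = x1 then 1 else 0) + (if y2 = x1 then 1 else 0) = (0 : ZMod 2))
    (e2 : (if x1 = x2 then 1 else 0) + (if x2 = x2 then 1 else 0) +
      (if y1 = x2 then 1 else 0) + (if y2 = x2 then 1 else 0) = (0 : ZMod 2))
    (e3 : (if x1 = y1 then 1 else 0) + (if x2 = y1 then 1 else 0) +
      (if y1 = y1 then 1 else 0) + (if y2 = y1 then 1 else 0) = (0 : ZMod 2)) :
    (x1 = x2 ∧ y1 = y2) ∨ (x1 = y1 ∧ x2 = y2) ∨ (x1 = y2 ∧ x2 = y1) := by
  by_cases h12 : x2 = x1
  · subst h12
    left
    refine ⟨rfl, ?_⟩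
    by_contra hne
    by_cases h13 : y1 = x2
    · have h14 : ¬ y2 = x2 := fun h => hne (h13.trans h.symm)
      simp only [h13, h14, if_true, if_false] at e1
      revert e1; decide
    · by_cases h14 : y2 = x2
      · simp only [h13, h14, if_true, if_false] at e1
        revert e1; decide
      · have h31 : ¬ x2 = y1 := fun h => h13 h.symm
        have h43 : ¬ y2 = y1 := fun h => hne h.symm
        simp only [h31, h43, if_true, if_false] at e3
        revert e3; decide
  · have h21 : ¬ x1 = x2 := fun h => h12 h.symm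
    by_cases h13 : y1 = x1
    · subst h13
      right; left
      refine ⟨rfl, ?_⟩
      by_contra hne
      have h42 : ¬ y2 = x2 := fun h => hne h.symm
      simp only [h21, h42, if_true, if_false] at e2
      revert e2; decide
    · by_cases h14 : y2 = x1
      · subst h14
        right; right
        refine ⟨rfl, ?_⟩
        by_contra hne
        have h32 : ¬ y1 = x2 := fun h => hne h.symm
        simp only [h21, h32, if_true, if_false] at e2
        revert e2; decide
      · exfalso
        simp only [h12, h13, h14, if_true, if_false] at e1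
        revert e1; decide

/-- In a graph without edge cuts of size 2 or 4, four edges whose sum is a cut match up. -/
theorem four (a : FinGraph) (ha : ∀ W : Finset a.V, (cut a W).card ≠ 2 ∧ (cut a W).card ≠ 4)
    (x1 x2 y1 y2 : a.E) (h : ∀ φ, IsFlow a φ → φ x1 + φ x2 + φ y1 + φ y2 = 0) :
    (x1 = x2 ∧ y1 = y2) ∨ (x1 = y1 ∧ x2 = y2) ∨ (x1 = y2 ∧ x2 = y1) := by
  classical
  set ψ : a.E → ZMod 2 := fun e => (if x1 = e then 1 else 0) + (if x2 = e then 1 else 0) +
    (if y1 = e then 1 else 0) + (if y2 = e then 1 else 0) with hψ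
  have hpair : ∀ φ : a.E → ZMod 2, ∑ e, ψ e * φ e = φ x1 + φ x2 + φ y1 + φ y2 := by
    intro φ
    simp only [hψ, add_mul, ite_mul, one_mul, zero_mul, sum_add_distrib, sum_ite_eq, mem_univ,
      if_true]
  obtain ⟨w, hw⟩ := exists_potential a ψ (fun φ hφ => by rw [hpair]; exact h φ hφ)
  have hz : ∀ z : ZMod 2, z = 0 ∨ z = 1 := by decide
  -- the support of `ψ` is a cut
  set W : Finset a.V := univ.filter (fun v => w v = 1) with hW
  have hcut : cut a W = univ.filter (fun e => ψ e ≠ 0) := by
    ext e
    simp only [cut, mem_filter, mem_univ, true_and, hW, hw e]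
    rcases hz (w (a.fst e)) with h1 | h1 <;> rcases hz (w (a.snd e)) with h2 | h2 <;>
      simp [h1, h2]
    decide
  have hsub : univ.filter (fun e => ψ e ≠ 0) ⊆ {x1, x2, y1, y2} := by
    intro e he
    simp only [mem_filter, mem_univ, true_and] at he
    by_contra hcon
    simp only [mem_insert, mem_singleton, not_or] at hcon
    apply he
    simp only [hψ]
    rw [if_neg (Ne.symm hcon.1), if_neg (Ne.symm hcon.2.1), if_neg (Ne.symm hcon.2.2.1),
      if_neg (Ne.symm hcon.2.2.2)]
    ring
  have hle4 : (univ.filter (fun e => ψ e ≠ 0)).card ≤ 4 :=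
    le_trans (card_le_card hsub) card_le_four
  have hpar : (((univ.filter (fun e => ψ e ≠ 0)).card : ℕ) : ZMod 2) = 0 := by
    have h1 : ∑ e, ψ e = 0 := by
      have h2 := hpair (fun _ => 1)
      simp only [mul_one] at h2
      rw [h2]
      decide
    have h4 : (((univ.filter (fun e => ψ e ≠ 0)).card : ℕ) : ZMod 2) = ∑ e, ψ e := by
      rw [card_filter]
      push_cast
      apply sum_congr rfl
      intro e _
      rcases hz (ψ e) with h3 | h3 <;> rw [h3] <;> decide
    rw [h4, h1]
  have heven : 2 ∣ (univ.filter (fun e => ψ e ≠ 0)).card :=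
    (ZMod.natCast_eq_zero_iff _ _).mp hpar
  have hcard0 : (univ.filter (fun e => ψ e ≠ 0)).card = 0 := by
    have h1 := (ha W).1
    have h2 := (ha W).2
    rw [hcut] at h1 h2
    omega
  have hzero : ∀ e, ψ e = 0 := by
    intro e
    by_contra hcon
    have : e ∈ univ.filter (fun e => ψ e ≠ 0) := by simp [hcon]
    rw [card_eq_zero.mp hcard0] at this
    simp at this
  exact four_aux x1 x2 y1 y2 (hzero x1) (hzero x2) (hzero y1)

/-! ### The construction: five copies of `B`, a pentagon through the copies of `v` and a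
pentagram through the copies of `u`. -/

/-- Five disjoint copies of `B` together with a 5-cycle `v₀v₁v₂v₃v₄` through the copies of `v` and
a 5-cycle `u₀u₂u₄u₁u₃` through the copies of `u`. -/
@[reducible] def lift (B : FinGraph) (u v : B.V) : FinGraph where
  V := B.V × ZMod 5
  E := (B.E × ZMod 5) ⊕ (ZMod 5 ⊕ ZMod 5)
  fintypeV := inferInstance
  fintypeE := inferInstance
  decV := inferInstance
  decE := inferInstance
  fst := Sum.elim (fun p => (B.fst p.1, p.2)) (Sum.elim (fun i => (v, i)) (fun i => (u, i)))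
  snd := Sum.elim (fun p => (B.snd p.1, p.2))
    (Sum.elim (fun i => (v, i + 1)) (fun i => (u, i + 2)))
  nonempty := ⟨Sum.inr (Sum.inl 0)⟩

theorem bd_lift (B : FinGraph) (u v : B.V) (ψ : (lift B u v).E → ZMod 2) (w : B.V) (i : ZMod 5) :
    bd (lift B u v) ψ (w, i) = bd B (fun e => ψ (Sum.inl (e, i))) w +
      (if v = w then ψ (Sum.inr (Sum.inl i)) + ψ (Sum.inr (Sum.inl (i - 1))) else 0) +
      (if u = w then ψ (Sum.inr (Sum.inr i)) + ψ (Sum.inr (Sum.inr (i - 2))) else 0) := by
  have key1 : ∀ (c : ZMod 5 → ZMod 2) (k : ZMod 5) (p : B.V),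
      ∑ j : ZMod 5, ((if (p, j) = (w, i) then c j else 0) +
        (if (p, j + k) = (w, i) then c j else 0)) =
      if p = w then c i + c (i - k) else 0 := by
    intro c k p
    rw [sum_add_distrib]
    by_cases hp : p = w
    · subst hp
      simp only [Prod.mk.injEq, true_and, if_true]
      rw [sum_ite_eq' univ i c]
      have : ∀ j : ZMod 5, (j + k = i) ↔ (j = i - k) := fun j => eq_sub_iff_add_eq.symm
      simp only [this]
      rw [sum_ite_eq' univ (i - k) c]
      simp
    · simp [hp]
  have key2 : ∀ e : B.E, ∑ j : ZMod 5,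
      ((if (B.fst e, j) = (w, i) then ψ (Sum.inl (e, j)) else 0) +
        (if (B.snd e, j) = (w, i) then ψ (Sum.inl (e, j)) else 0)) =
      (if B.fst e = w then ψ (Sum.inl (e, i)) else 0) +
        (if B.snd e = w then ψ (Sum.inl (e, i)) else 0) := by
    intro e
    rw [sum_add_distrib]
    congr 1
    · by_cases hp : B.fst e = w
      · simp only [hp, Prod.mk.injEq, true_and, if_true]
        rw [sum_ite_eq' univ i (fun j => ψ (Sum.inl (e, j)))]
        simp
      · simp [hp]
    · by_cases hp : B.snd e = w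
      · simp only [hp, Prod.mk.injEq, true_and, if_true]
        rw [sum_ite_eq' univ i (fun j => ψ (Sum.inl (e, j)))]
        simp
      · simp [hp]
  have expand : bd (lift B u v) ψ (w, i) =
      (∑ e : B.E, ∑ j : ZMod 5, ((if (B.fst e, j) = (w, i) then ψ (Sum.inl (e, j)) else 0) +
        (if (B.snd e, j) = (w, i) then ψ (Sum.inl (e, j)) else 0))) +
      ((∑ j : ZMod 5, ((if (v, j) = (w, i) then ψ (Sum.inr (Sum.inl j)) else 0) +
        (if (v, j + 1) = (w, i) then ψ (Sum.inr (Sum.inl j)) else 0))) +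
      (∑ j : ZMod 5, ((if (u, j) = (w, i) then ψ (Sum.inr (Sum.inr j)) else 0) +
        (if (u, j + 2) = (w, i) then ψ (Sum.inr (Sum.inr j)) else 0)))) := by
    have h1 := Fintype.sum_sum_type (fun e : (B.E × ZMod 5) ⊕ (ZMod 5 ⊕ ZMod 5) =>
      ((if (lift B u v).fst e = (w, i) then ψ e else 0) +
        (if (lift B u v).snd e = (w, i) then ψ e else 0)))
    have h2 := Fintype.sum_sum_type (fun e : ZMod 5 ⊕ ZMod 5 =>
      ((if (lift B u v).fst (Sum.inr e) = (w, i) then ψ (Sum.inr e) else 0) +
        (if (lift B u v).snd (Sum.inr e) = (w, i) then ψ (Sum.inr e) else 0)))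
    have h3 := Fintype.sum_prod_type (fun e : B.E × ZMod 5 =>
      ((if (lift B u v).fst (Sum.inl e) = (w, i) then ψ (Sum.inl e) else 0) +
        (if (lift B u v).snd (Sum.inl e) = (w, i) then ψ (Sum.inl e) else 0)))
    unfold bd
    rw [h1, h2, h3]
    rfl
  rw [expand, key1 (fun j => ψ (Sum.inr (Sum.inl j))) 1 v,
    key1 (fun j => ψ (Sum.inr (Sum.inr j))) 2 u, sum_congr rfl (fun e _ => key2 e)]
  unfold bd
  ring

/-- The complete graph `K₅`, split into a pentagon and a pentagram, has no decomposition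
compatible with this splitting. -/
theorem k5 {α : Type} (x0 x1 x2 x3 x4 y0 y1 y2 y3 y4 : α)
    (n0 : x4 ≠ x0) (n1 : x0 ≠ x1) (n2 : x1 ≠ x2) (n3 : x2 ≠ x3) (n4 : x3 ≠ x4)
    (h0 : (x0 = y0 ∧ x4 = y3) ∨ (x0 = y3 ∧ x4 = y0))
    (h1 : (x1 = y1 ∧ x0 = y4) ∨ (x1 = y4 ∧ x0 = y1))
    (h2 : (x2 = y2 ∧ x1 = y0) ∨ (x2 = y0 ∧ x1 = y2))
    (h3 : (x3 = y3 ∧ x2 = y1) ∨ (x3 = y1 ∧ x2 = y3))
    (h4 : (x4 = y4 ∧ x3 = y2) ∨ (x4 = y2 ∧ x3 = y4)) : False := by
  rcases h0 with ⟨a0, b0⟩ | ⟨a0, b0⟩ <;> rcases h1 with ⟨a1, b1⟩ | ⟨a1, b1⟩ <;>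
    rcases h2 with ⟨a2, b2⟩ | ⟨a2, b2⟩ <;> rcases h3 with ⟨a3, b3⟩ | ⟨a3, b3⟩ <;>
    rcases h4 with ⟨a4, b4⟩ | ⟨a4, b4⟩ <;> simp_all

/-- If `B` does not map to `a` and `a` has no edge cuts of size 2 or 4, then the lift of `B` does
not map to `a`. -/
theorem lift_not_le (a B : FinGraph)
    (ha : ∀ W : Finset a.V, (cut a W).card ≠ 2 ∧ (cut a W).card ≠ 4)
    (u v : B.V) (hB : ¬ Le B a) : ¬ Le (lift B u v) a := by
  rintro ⟨g, hg⟩
  -- boundary identity
  have hbd : ∀ φ, IsFlow a φ → ∀ w i, bd B (fun e => φ (g (Sum.inl (e, i)))) w +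
      (if v = w then φ (g (Sum.inr (Sum.inl i))) + φ (g (Sum.inr (Sum.inl (i - 1)))) else 0) +
      (if u = w then φ (g (Sum.inr (Sum.inr i))) + φ (g (Sum.inr (Sum.inr (i - 2)))) else 0)
        = 0 := by
    intro φ hφ w i
    have h1 := hg φ hφ (w, i)
    rw [bd_lift] at h1
    exact h1
  have hsum : ∀ i, ∀ φ, IsFlow a φ → φ (g (Sum.inr (Sum.inl i))) +
      φ (g (Sum.inr (Sum.inl (i - 1)))) + φ (g (Sum.inr (Sum.inr i))) +
      φ (g (Sum.inr (Sum.inr (i - 2)))) = 0 := by
    intro i φ hφ
    have h1 : ∑ w, (bd B (fun e => φ (g (Sum.inl (e, i)))) w +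
      (if v = w then φ (g (Sum.inr (Sum.inl i))) + φ (g (Sum.inr (Sum.inl (i - 1)))) else 0) +
      (if u = w then φ (g (Sum.inr (Sum.inr i))) + φ (g (Sum.inr (Sum.inr (i - 2)))) else 0))
        = 0 := sum_eq_zero (fun w _ => hbd φ hφ w i)
    rw [sum_add_distrib, sum_add_distrib, sum_bd, sum_ite_eq, sum_ite_eq] at h1
    simp only [mem_univ, if_true] at h1
    rw [← h1]
    ring
  have hfour := fun i => four a ha _ _ _ _ (hsum i)
  have hne : ∀ i, g (Sum.inr (Sum.inl i)) ≠ g (Sum.inr (Sum.inl (i - 1))) := by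
    intro i heq
    have heq2 : g (Sum.inr (Sum.inr i)) = g (Sum.inr (Sum.inr (i - 2))) := by
      rcases hfour i with ⟨_, h⟩ | ⟨h1, h2⟩ | ⟨h1, h2⟩
      · exact h
      · rw [← h1, ← h2, heq]
      · rw [← h1, ← h2, heq]
    apply hB
    refine ⟨fun e => g (Sum.inl (e, i)), fun φ hφ w => ?_⟩
    have h1 := hbd φ hφ w i
    rw [heq, heq2, zmod2_add_self, zmod2_add_self] at h1
    simpa using h1
  have hpair : ∀ i, (g (Sum.inr (Sum.inl i)) = g (Sum.inr (Sum.inr i)) ∧
      g (Sum.inr (Sum.inl (i - 1))) = g (Sum.inr (Sum.inr (i - 2)))) ∨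
      (g (Sum.inr (Sum.inl i)) = g (Sum.inr (Sum.inr (i - 2))) ∧
      g (Sum.inr (Sum.inl (i - 1))) = g (Sum.inr (Sum.inr i))) := by
    intro i
    rcases hfour i with ⟨h, _⟩ | h | h
    · exact absurd h (hne i)
    · exact Or.inl h
    · exact Or.inr h
  have c0 : (0 : ZMod 5) - 1 = 4 := by decide
  have c1 : (1 : ZMod 5) - 1 = 0 := by decide
  have c2 : (2 : ZMod 5) - 1 = 1 := by decide
  have c3 : (3 : ZMod 5) - 1 = 2 := by decide
  have c4 : (4 : ZMod 5) - 1 = 3 := by decide
  have d0 : (0 : ZMod 5) - 2 = 3 := by decide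
  have d1 : (1 : ZMod 5) - 2 = 4 := by decide
  have d2 : (2 : ZMod 5) - 2 = 0 := by decide
  have d3 : (3 : ZMod 5) - 2 = 1 := by decide
  have d4 : (4 : ZMod 5) - 2 = 2 := by decide
  have m0 := hne 0
  have m1 := hne 1
  have m2 := hne 2
  have m3 := hne 3
  have m4 := hne 4
  have p0 := hpair 0
  have p1 := hpair 1
  have p2 := hpair 2
  have p3 := hpair 3
  have p4 := hpair 4
  rw [c0] at m0 p0
  rw [c1] at m1 p1
  rw [c2] at m2 p2
  rw [c3] at m3 p3
  rw [c4] at m4 p4
  rw [d0] at p0
  rw [d1] at p1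
  rw [d2] at p2
  rw [d3] at p3
  rw [d4] at p4
  exact k5 (g (Sum.inr (Sum.inl 0))) (g (Sum.inr (Sum.inl 1))) (g (Sum.inr (Sum.inl 2)))
    (g (Sum.inr (Sum.inl 3))) (g (Sum.inr (Sum.inl 4))) (g (Sum.inr (Sum.inr 0)))
    (g (Sum.inr (Sum.inr 1))) (g (Sum.inr (Sum.inr 2))) (g (Sum.inr (Sum.inr 3)))
    (g (Sum.inr (Sum.inr 4))) m0.symm m1.symm m2.symm m3.symm m4.symm p0 p1 p2 p3 p4

/-- The projection of the lift onto `B`; the pentagon and pentagram edges go to `ε`. -/
def proj (B : FinGraph) (u v : B.V) (ε : B.E) : (lift B u v).E → B.E :=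
  Sum.elim (fun p => p.1) (fun _ => ε)

theorem proj_cc (B : FinGraph) (u v : B.V) (ε : B.E) : CC (lift B u v) B (proj B u v ε) := by
  intro φ hφ
  rintro ⟨w, i⟩
  rw [bd_lift]
  simp only [proj, Sum.elim_inl, Sum.elim_inr, zmod2_add_self, ite_self, add_zero]
  exact hφ w

/-- Flows on the lift supported on the fibre over an edge `ε` joining `u` and `v`. -/
theorem fibre_flow (B : FinGraph) (ε : B.E) (x : (lift B (B.fst ε) (B.snd ε)).E)
    (hx : proj B (B.fst ε) (B.snd ε) ε x = ε) :
    ∃ ψ : (lift B (B.fst ε) (B.snd ε)).E → ZMod 2, IsFlow (lift B (B.fst ε) (B.snd ε)) ψ ∧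
      ψ x = 1 ∧ ∀ y, proj B (B.fst ε) (B.snd ε) ε y ≠ ε → ψ y = 0 := by
  rcases x with ⟨e, i⟩ | (i | i)
  · simp only [proj, Sum.elim_inl] at hx
    subst hx
    refine ⟨Sum.elim (fun p => if p.1 = e ∧ (p.2 = i ∨ p.2 = i + 2) then 1 else 0)
      (Sum.elim (fun j => if j = i ∨ j = i + 1 then 1 else 0) (fun j => if j = i then 1 else 0)),
      ?_, ?_, ?_⟩
    · rintro ⟨w, j⟩
      rw [bd_lift]
      simp only [Sum.elim_inl, Sum.elim_inr]
      have h1 : bd B (fun e' => if e' = e ∧ (j = i ∨ j = i + 2) then (1 : ZMod 2) else 0) w =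
          if (j = i ∨ j = i + 2) then (if B.fst e = w then 1 else 0) +
            (if B.snd e = w then 1 else 0) else 0 := by
        unfold bd
        by_cases hj : (j = i ∨ j = i + 2)
        · simp only [hj, and_true, if_true]
          rw [sum_eq_single e]
          · simp
          · intro b _ hb
            simp [hb]
          · simp
        · simp [hj]
      rw [h1]
      have h2 : ∀ i j : ZMod 5,
          ((if (j = i ∨ j = i + 1) then (1 : ZMod 2) else 0) +
            (if (j - 1 = i ∨ j - 1 = i + 1) then 1 else 0)) =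
          (if (j = i ∨ j = i + 2) then 1 else 0) := by decide
      have h3 : ∀ i j : ZMod 5,
          ((if j = i then (1 : ZMod 2) else 0) + (if j - 2 = i then 1 else 0)) =
          (if (j = i ∨ j = i + 2) then 1 else 0) := by decide
      rw [h2, h3]
      have hd : (1 : ZMod 2) + 1 = 0 := by decide
      by_cases hj : (j = i ∨ j = i + 2) <;> by_cases h4 : B.fst e = w <;>
        by_cases h5 : B.snd e = w <;> simp [hj, h4, h5, hd]
    · simp
    · intro y hy
      rcases y with ⟨e', i'⟩ | (i' | i')
      · simp only [proj, Sum.elim_inl] at hy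
        simp [hy]
      · simp [proj] at hy
      · simp [proj] at hy
  · refine ⟨Sum.elim (fun _ => 0) (Sum.elim (fun _ => 1) (fun _ => 0)), ?_, ?_, ?_⟩
    · rintro ⟨w, j⟩
      rw [bd_lift]
      simp only [Sum.elim_inl, Sum.elim_inr, bd]
      have hd : (1 : ZMod 2) + 1 = 0 := by decide
      simp [hd]
    · simp
    · intro y hy
      rcases y with ⟨e', i'⟩ | (i' | i')
      · simp
      · simp [proj] at hy
      · simp
  · refine ⟨Sum.elim (fun _ => 0) (Sum.elim (fun _ => 0) (fun _ => 1)), ?_, ?_, ?_⟩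
    · rintro ⟨w, j⟩
      rw [bd_lift]
      simp only [Sum.elim_inl, Sum.elim_inr, bd]
      have hd : (1 : ZMod 2) + 1 = 0 := by decide
      simp [hd]
    · simp
    · intro y hy
      rcases y with ⟨e', i'⟩ | (i' | i')
      · simp
      · simp
      · simp [proj] at hy

/-! ### Disjoint union, contraction, deletion -/

/-- The disjoint union. -/
@[reducible] def union (G H : FinGraph) : FinGraph where
  V := G.V ⊕ H.V
  E := G.E ⊕ H.E
  fintypeV := inferInstance
  fintypeE := inferInstance
  decV := inferInstance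
  decE := inferInstance
  fst := Sum.elim (fun e => Sum.inl (G.fst e)) (fun e => Sum.inr (H.fst e))
  snd := Sum.elim (fun e => Sum.inl (G.snd e)) (fun e => Sum.inr (H.snd e))
  nonempty := ⟨Sum.inl (Classical.choice G.nonempty)⟩

theorem bd_union (G H : FinGraph) (φ : (union G H).E → ZMod 2) :
    (∀ v, bd (union G H) φ (Sum.inl v) = bd G (fun e => φ (Sum.inl e)) v) ∧
    (∀ v, bd (union G H) φ (Sum.inr v) = bd H (fun e => φ (Sum.inr e)) v) := by
  constructor
  · intro v
    have h := Fintype.sum_sum_type (fun e : G.E ⊕ H.E =>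
      ((if (union G H).fst e = Sum.inl v then φ e else 0) +
        (if (union G H).snd e = Sum.inl v then φ e else 0)))
    unfold bd
    rw [h]
    simp
  · intro v
    have h := Fintype.sum_sum_type (fun e : G.E ⊕ H.E =>
      ((if (union G H).fst e = Sum.inr v then φ e else 0) +
        (if (union G H).snd e = Sum.inr v then φ e else 0)))
    unfold bd
    rw [h]
    simp

theorem isFlow_union (G H : FinGraph) (φ : (union G H).E → ZMod 2) :
    IsFlow (union G H) φ ↔
      IsFlow G (fun e => φ (Sum.inl e)) ∧ IsFlow H (fun e => φ (Sum.inr e)) := by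
  constructor
  · intro h
    refine ⟨fun v => ?_, fun v => ?_⟩
    · rw [← (bd_union G H φ).1]; exact h _
    · rw [← (bd_union G H φ).2]; exact h _
  · rintro ⟨h1, h2⟩ v
    rcases v with v | v
    · rw [(bd_union G H φ).1]; exact h1 v
    · rw [(bd_union G H φ).2]; exact h2 v

theorem le_union_left (G H : FinGraph) : Le G (union G H) :=
  ⟨Sum.inl, fun φ hφ => ((isFlow_union G H φ).mp hφ).1⟩

theorem le_union_right (G H : FinGraph) : Le H (union G H) :=
  ⟨Sum.inr, fun φ hφ => ((isFlow_union G H φ).mp hφ).2⟩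

theorem union_le {G H K : FinGraph} (h1 : Le G K) (h2 : Le H K) : Le (union G H) K := by
  obtain ⟨f, hf⟩ := h1
  obtain ⟨g, hg⟩ := h2
  refine ⟨Sum.elim f g, fun φ hφ => ?_⟩
  rw [isFlow_union]
  exact ⟨hf φ hφ, hg φ hφ⟩

/-- The subgraph with the edges satisfying `P`. -/
@[reducible] def restrict (B : FinGraph) (P : B.E → Prop) [DecidablePred P]
    (h : Nonempty {e : B.E // P e}) : FinGraph where
  V := B.V
  E := {e : B.E // P e}
  fintypeV := inferInstance
  fintypeE := inferInstance
  decV := inferInstance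
  decE := inferInstance
  fst := fun e => B.fst e
  snd := fun e => B.snd e
  nonempty := h

theorem bd_restrict (B : FinGraph) (P : B.E → Prop) [DecidablePred P]
    (h : Nonempty {e : B.E // P e}) (φ : {e : B.E // P e} → ZMod 2) (ψ : B.E → ZMod 2)
    (h1 : ∀ e (he : P e), ψ e = φ ⟨e, he⟩) (h2 : ∀ e, ¬ P e → ψ e = 0) (v : B.V) :
    bd (restrict B P h) φ v = bd B ψ v := by
  unfold bd
  have e1 : ∑ e : {e : B.E // P e}, ((if B.fst e = v then φ e else 0) +
      (if B.snd e = v then φ e else 0)) =
      ∑ e : {e : B.E // P e}, ((if B.fst e = v then ψ e else 0) +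
      (if B.snd e = v then ψ e else 0)) := by
    apply sum_congr rfl
    rintro ⟨e, he⟩ _
    rw [h1 e he]
  have e2 : ∑ e : {e : B.E // P e}, ((if B.fst e = v then ψ e else 0) +
      (if B.snd e = v then ψ e else 0)) =
      ∑ e ∈ univ.filter P, ((if B.fst e = v then ψ e else 0) +
      (if B.snd e = v then ψ e else 0)) := by
    rw [← Finset.sum_subtype_eq_sum_filter, Finset.subtype_univ]
  have e3 : ∑ e ∈ univ.filter P, ((if B.fst e = v then ψ e else 0) +
      (if B.snd e = v then ψ e else 0)) =
      ∑ e, ((if B.fst e = v then ψ e else 0) + (if B.snd e = v then ψ e else 0)) := by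
    apply sum_subset (subset_univ _)
    intro e _ he
    have : ¬ P e := by simpa using he
    rw [h2 e this]
    simp
  rw [← e3, ← e2, ← e1]

/-- Contraction of the edge `ε`. -/
@[reducible] def contract (B : FinGraph) (ε : B.E) (h : Nonempty {e : B.E // e ≠ ε}) :
    FinGraph where
  V := B.V
  E := {e : B.E // e ≠ ε}
  fintypeV := inferInstance
  fintypeE := inferInstance
  decV := inferInstance
  decE := inferInstance
  fst := fun e => if B.fst e = B.fst ε then B.snd ε else B.fst e
  snd := fun e => if B.snd e = B.fst ε then B.snd ε else B.snd e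
  nonempty := h

theorem bd_contract (B : FinGraph) (ε : B.E) (h : Nonempty {e : B.E // e ≠ ε})
    (φ : {e : B.E // e ≠ ε} → ZMod 2) (ψ : B.E → ZMod 2)
    (h1 : ∀ e (he : e ≠ ε), ψ e = φ ⟨e, he⟩) (v : B.V) :
    bd (contract B ε h) φ v =
      ∑ x, (if (if x = B.fst ε then B.snd ε else x) = v then 1 else 0) * bd B ψ x := by
  rw [bd_pair]
  set q : B.V → B.V := fun x => if x = B.fst ε then B.snd ε else x with hq
  have hqe : q (B.fst ε) = q (B.snd ε) := by
    simp only [hq, if_true]
    split
    · rfl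
    · rfl
  have e0 : ∑ e, ((if q (B.fst e) = v then (1 : ZMod 2) else 0) +
      (if q (B.snd e) = v then 1 else 0)) * ψ e =
      ∑ e ∈ univ.filter (fun e => e ≠ ε), ((if q (B.fst e) = v then (1 : ZMod 2) else 0) +
      (if q (B.snd e) = v then 1 else 0)) * ψ e := by
    symm
    apply sum_subset (subset_univ _)
    intro e _ he
    have : e = ε := by simpa using he
    rw [this, hqe, zmod2_add_self, zero_mul]
  change _ = ∑ e, ((if q (B.fst e) = v then (1 : ZMod 2) else 0) +
      (if q (B.snd e) = v then 1 else 0)) * ψ e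
  rw [e0, ← Finset.sum_subtype_eq_sum_filter, Finset.subtype_univ]
  unfold bd
  apply sum_congr rfl
  rintro ⟨e, he⟩ _
  rw [← h1 e he]
  simp only [hq, add_mul, ite_mul, one_mul, zero_mul]

theorem contract_le (B : FinGraph) (ε : B.E) (h : Nonempty {e : B.E // e ≠ ε}) :
    Le (contract B ε h) B := by
  refine ⟨fun e => e, fun φ hφ v => ?_⟩
  rw [bd_contract B ε h (fun e => φ e) φ (fun e he => rfl)]
  apply sum_eq_zero
  intro x _
  rw [hφ x, mul_zero]

/-- Every flow on the contraction extends to a flow on the graph. -/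
theorem extend_contract (B : FinGraph) (ε : B.E) (h : Nonempty {e : B.E // e ≠ ε})
    (φ : {e : B.E // e ≠ ε} → ZMod 2) (hφ : IsFlow (contract B ε h) φ) :
    ∃ ψ : B.E → ZMod 2, IsFlow B ψ ∧ ∀ e (he : e ≠ ε), ψ e = φ ⟨e, he⟩ := by
  set ψ0 : B.E → ZMod 2 := fun e => if he : e ≠ ε then φ ⟨e, he⟩ else 0 with hψ0
  set t := bd B ψ0 (B.fst ε) with ht
  set ψ : B.E → ZMod 2 := fun e => ψ0 e + (if e = ε then t else 0) with hψ
  have hext : ∀ e (he : e ≠ ε), ψ e = φ ⟨e, he⟩ := by
    intro e he
    simp only [hψ, hψ0]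
    rw [dif_pos he, if_neg he, add_zero]
  have hε : ∀ x, bd B (fun e => if e = ε then t else 0) x =
      (if B.fst ε = x then t else 0) + (if B.snd ε = x then t else 0) := by
    intro x
    unfold bd
    rw [sum_eq_single ε]
    · simp
    · intro b _ hb
      simp [hb]
    · simp
  refine ⟨ψ, ?_, hext⟩
  have hbd : ∀ x, bd B ψ x = bd B ψ0 x +
      ((if B.fst ε = x then t else 0) + (if B.snd ε = x then t else 0)) := by
    intro x
    rw [hψ, bd_add, hε]
  have hc : ∀ v, ∑ x, (if (if x = B.fst ε then B.snd ε else x) = v then 1 else 0) *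
      bd B ψ x = 0 := by
    intro v
    rw [← bd_contract B ε h φ ψ hext v]
    exact hφ v
  -- at the first end
  by_cases hloop : B.fst ε = B.snd ε
  · intro v
    have h1 := hc v
    rw [sum_eq_single v] at h1
    · have : (if v = B.fst ε then B.snd ε else v) = v := by
        split
        · next h2 => rw [← hloop, h2]
        · rfl
      rw [this] at h1
      simpa using h1
    · intro b _ hb
      have : (if b = B.fst ε then B.snd ε else b) = b := by
        split
        · next h2 => rw [← hloop, h2]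
        · rfl
      rw [this, if_neg hb, zero_mul]
    · simp
  · have hfst : bd B ψ (B.fst ε) = 0 := by
      rw [hbd, if_pos rfl, if_neg (Ne.symm hloop), add_zero, ← ht]
      exact zmod2_add_self t
    have hother : ∀ x, x ≠ B.fst ε → bd B ψ x = 0 := by
      intro v hv
      have h1 := hc v
      rw [sum_eq_single v] at h1
      · rw [if_neg hv, if_pos rfl, one_mul] at h1
        exact h1
      · intro b _ hb
        by_cases hb2 : b = B.fst ε
        · rw [hb2, hfst, mul_zero]
        · rw [if_neg hb2, if_neg hb, zero_mul]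
      · simp
    intro v
    by_cases hv : v = B.fst ε
    · rw [hv]; exact hfst
    · exact hother v hv

/-! ### The main theorem -/

theorem bd_single_loop (B : FinGraph) (ε : B.E) (h : IsFlow B (fun e => if e = ε then 1 else 0)) :
    B.fst ε = B.snd ε := by
  have h1 := h (B.fst ε)
  unfold bd at h1
  rw [sum_eq_single ε] at h1
  · by_contra hne
    rw [if_pos rfl, if_neg (Ne.symm hne)] at h1
    simp only [if_true, add_zero] at h1
    revert h1; decide
  · intro b _ hb
    simp [hb]
  · simp

/-- If `a` is a graph without edge cuts of size 2 or 4 then `a` is not the lower end of an empty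
interval of the cc order: whenever `a < b` there is a graph `x` with `a < x < b`. -/
theorem result (a b : FinGraph)
    (ha : ∀ W : Finset a.V, (cut a W).card ≠ 2 ∧ (cut a W).card ≠ 4) (hab : Lt a b) :
    ∃ x : FinGraph, Lt a x ∧ Lt x b := by
  classical
  by_contra hcon
  push Not at hcon
  obtain ⟨hab1, hab2⟩ := hab
  -- graphs `B` with `B → b` and `b → a ⊔ B`
  have hex : ∃ n : ℕ, ∃ B : FinGraph, (Le B b ∧ Le b (union a B)) ∧ Fintype.card B.E = n :=
    ⟨_, b, ⟨le_refl b, le_union_right a b⟩, rfl⟩
  obtain ⟨B, ⟨hB1, hB2⟩, hBn⟩ := Nat.find_spec hex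
  have hmin : ∀ C : FinGraph, Le C b → Le b (union a C) →
      Fintype.card B.E ≤ Fintype.card C.E := by
    intro C h1 h2
    rw [hBn]
    exact Nat.find_min' hex ⟨C, ⟨h1, h2⟩, rfl⟩
  -- `B` does not map to `a`
  have hBa : ¬ Le B a := fun h => hab2 (le_trans' hB2 (union_le (le_refl a) h))
  -- every cc endomorphism of `B` is surjective
  have hsurj : ∀ h : B.E → B.E, CC B B h → Function.Surjective h := by
    intro h hh ε
    by_contra hε
    push Not at hε
    have hne : Nonempty {e : B.E // e ≠ ε} :=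
      ⟨⟨h (Classical.choice B.nonempty), hε _⟩⟩
    have hle : Le B (contract B ε hne) := by
      refine ⟨fun e => ⟨h e, hε e⟩, fun φ hφ => ?_⟩
      obtain ⟨ψ, hψ1, hψ2⟩ := extend_contract B ε hne φ hφ
      have h1 := hh ψ hψ1
      have h2 : (fun e => ψ (h e)) = (fun e => φ ⟨h e, hε e⟩) := by
        funext e
        exact hψ2 (h e) (hε e)
      rw [h2] at h1
      exact h1
    have hcard := hmin (contract B ε hne) (le_trans' (contract_le B ε hne) hB1)
      (le_trans' hB2 (union_le (le_union_left _ _) (le_trans' hle (le_union_right _ _))))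
    have : Fintype.card {e : B.E // e ≠ ε} < Fintype.card B.E :=
      Fintype.card_subtype_lt (x := ε) (by simp)
    change Fintype.card B.E ≤ Fintype.card {e : B.E // e ≠ ε} at hcard
    omega
  -- `B` has no loops
  have hloop : ∀ ε : B.E, B.fst ε ≠ B.snd ε := by
    intro ε hε
    by_cases hex2 : ∃ ε' : B.E, ε' ≠ ε
    · obtain ⟨ε', hε'⟩ := hex2
      have h1 : CC B B (fun e => if e = ε then ε' else e) := by
        intro φ hφ v
        rw [← hφ v]
        -- the values differ only at the loop `ε`
        have h2 : (fun e => φ (if e = ε then ε' else e)) =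
            (fun e => φ e + (if e = ε then (φ ε + φ ε') else 0)) := by
          funext e
          by_cases he : e = ε
          · rw [if_pos he, if_pos he, he, ← add_assoc, zmod2_add_self, zero_add]
          · rw [if_neg he, if_neg he, add_zero]
        rw [h2, bd_add]
        have h3 : bd B (fun e => if e = ε then (φ ε + φ ε') else 0) v = 0 := by
          unfold bd
          rw [sum_eq_single ε]
          · rw [hε, zmod2_add_self]
          · intro b' _ hb
            simp [hb]
          · simp
        rw [h3, add_zero]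
      obtain ⟨e, he⟩ := hsurj _ h1 ε
      by_cases hee : e = ε
      · simp only [hee, if_true] at he
        exact hε' he
      · simp only [hee, if_false] at he
    · push Not at hex2
      apply hBa
      refine ⟨fun _ => Classical.choice a.nonempty, fun φ _ v => ?_⟩
      unfold bd
      apply sum_eq_zero
      intro e _
      rw [hex2 e, hε, zmod2_add_self]
  -- the lift
  set ε1 : B.E := Classical.choice B.nonempty with hε1
  set c : FinGraph := lift B (B.fst ε1) (B.snd ε1) with hc
  have hca : ¬ Le c a := lift_not_le a B ha _ _ hBa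
  have hcB : Le c B := ⟨_, proj_cc B (B.fst ε1) (B.snd ε1) ε1⟩
  have hax : Lt a (union a c) :=
    ⟨le_union_left a c, fun h => hca (le_trans' (le_union_right a c) h)⟩
  have hxb : Le (union a c) b := union_le hab1 (le_trans' hcB hB1)
  have hbx : Le b (union a c) := by
    by_contra h
    exact hcon (union a c) hax ⟨hxb, h⟩
  obtain ⟨f, hf⟩ := le_trans' hB1 hbx
  -- `f` avoids `a`
  have hright : ∀ e, (f e).isRight = true := by
    by_contra hnot
    push Not at hnot
    obtain ⟨e0, he0⟩ := hnot
    have hne : Nonempty {e : B.E // (f e).isRight = true} := by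
      by_contra hempty
      have hall : ∀ e, (f e).isLeft = true := by
        intro e
        by_contra h1
        apply hempty
        refine ⟨⟨e, ?_⟩⟩
        simpa using h1
      apply hBa
      refine ⟨fun e => (f e).getLeft (hall e), fun φ hφ => ?_⟩
      have h1 := hf (Sum.elim φ (fun _ => 0)) (by
        rw [isFlow_union]
        refine ⟨hφ, fun v => ?_⟩
        simp [bd])
      have h2 : (fun e => Sum.elim φ (fun _ => 0) (f e)) =
          (fun e => φ ((f e).getLeft (hall e))) := by
        funext e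
        obtain ⟨y, hy⟩ := Sum.isLeft_iff.mp (hall e)
        simp only [hy, Sum.elim_inl, Sum.getLeft_inl]
      rw [h2] at h1
      exact h1
    have hle1 : Le (restrict B (fun e => (f e).isRight = true) hne) c := by
      refine ⟨fun e => (f e).getRight e.2, fun φ hφ => ?_⟩
      have h1 := hf (Sum.elim (fun _ => 0) φ) (by
        rw [isFlow_union]
        refine ⟨fun v => ?_, hφ⟩
        simp [bd])
      intro v
      rw [bd_restrict B _ hne _ (fun e => Sum.elim (fun _ => 0) φ (f e))]
      · exact h1 v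
      · intro e he
        obtain ⟨y, hy⟩ := Sum.isRight_iff.mp he
        simp only [hy, Sum.elim_inr, Sum.getRight_inr]
      · intro e he
        have h2 : (f e).isLeft = true := by simpa using he
        obtain ⟨y, hy⟩ := Sum.isLeft_iff.mp h2
        simp only [hy, Sum.elim_inl]
    have hle2 : Le B (union a (restrict B (fun e => (f e).isRight = true) hne)) := by
      refine ⟨fun e => if h : (f e).isRight = true then Sum.inr ⟨e, h⟩ else
        Sum.inl ((f e).getLeft (by simpa using h)), fun φ hφ => ?_⟩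
      rw [isFlow_union] at hφ
      obtain ⟨hφ1, hφ2⟩ := hφ
      -- split into two flows
      have h1 := hf (Sum.elim (fun e => φ (Sum.inl e)) (fun _ => 0)) (by
        rw [isFlow_union]
        refine ⟨hφ1, fun v => ?_⟩
        simp [bd])
      intro v
      have h2 : (fun e => φ (if h : (f e).isRight = true then Sum.inr ⟨e, h⟩ else
          Sum.inl ((f e).getLeft (by simpa using h)))) =
          (fun e => Sum.elim (fun e => φ (Sum.inl e)) (fun _ => 0) (f e) +
            (if h : (f e).isRight = true then φ (Sum.inr ⟨e, h⟩) else 0)) := by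
        funext e
        by_cases h : (f e).isRight = true
        · rw [dif_pos h, dif_pos h]
          obtain ⟨y, hy⟩ := Sum.isRight_iff.mp h
          have : Sum.elim (fun e => φ (Sum.inl e)) (fun _ => 0) (f e) = 0 := by
            simp only [hy, Sum.elim_inr]
          rw [this, zero_add]
        · rw [dif_neg h, dif_neg h, add_zero]
          have h3 : (f e).isLeft = true := by simpa using h
          obtain ⟨y, hy⟩ := Sum.isLeft_iff.mp h3
          simp only [hy, Sum.elim_inl, Sum.getLeft_inl]
      rw [h2, bd_add]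
      have h3 := h1 v
      have h4 := hφ2 v
      rw [bd_restrict B _ hne _ (fun e => if h : (f e).isRight = true then φ (Sum.inr ⟨e, h⟩)
        else 0) (fun e he => by rw [dif_pos he]) (fun e he => by rw [dif_neg he])] at h4
      rw [h3, h4, add_zero]
    have hcard := hmin (restrict B (fun e => (f e).isRight = true) hne)
      (le_trans' hle1 (le_trans' hcB hB1))
      (le_trans' hB2 (union_le (le_union_left _ _) hle2))
    have : Fintype.card {e : B.E // (f e).isRight = true} < Fintype.card B.E :=
      Fintype.card_subtype_lt (x := e0) he0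
    change Fintype.card B.E ≤ Fintype.card {e : B.E // (f e).isRight = true} at hcard
    omega
  -- hence `f` gives a map `B → c`
  set g : B.E → c.E := fun e => (f e).getRight (hright e) with hg
  have hfg : ∀ e, f e = Sum.inr (g e) := by
    intro e
    simp [hg]
  have hgcc : CC B c g := by
    intro φ hφ
    have h1 := hf (Sum.elim (fun _ => 0) φ) (by
      rw [isFlow_union]
      refine ⟨fun v => ?_, hφ⟩
      simp [bd])
    have h2 : (fun e => Sum.elim (fun _ => 0) φ (f e)) = (fun e => φ (g e)) := by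
      funext e
      rw [hfg e, Sum.elim_inr]
    rw [h2] at h1
    exact h1
  -- the composition with the projection is bijective
  have hcomp : CC B B (fun e => proj B (B.fst ε1) (B.snd ε1) ε1 (g e)) := by
    intro φ hφ
    exact hgcc _ (proj_cc B (B.fst ε1) (B.snd ε1) ε1 φ hφ)
  have hs := hsurj _ hcomp
  have hi : Function.Injective (fun e => proj B (B.fst ε1) (B.snd ε1) ε1 (g e)) :=
    Finite.injective_iff_surjective.mpr hs
  obtain ⟨e1, he1⟩ := hs ε1
  obtain ⟨ψ, hψ1, hψ2, hψ3⟩ := fibre_flow B ε1 (g e1) he1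
  have hfl := hgcc ψ hψ1
  have hone : (fun e => ψ (g e)) = (fun e => if e = e1 then 1 else 0) := by
    funext e
    by_cases he : e = e1
    · rw [if_pos he, he]; exact hψ2
    · rw [if_neg he]
      apply hψ3
      intro h1
      apply he
      apply hi
      simp only
      rw [h1]
      exact he1.symm
  rw [hone] at hfl
  exact hloop e1 (bd_single_loop B e1 hfl)

end Pool.Agent.CCP.OldNoUpperCover
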