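import Pool.Agent.CCP.Classif65
import Pool.Agent.CCP.Final

/-!
# CCP: a greatest bridgeless graph is the Petersen graph; consequences for the two classifications
-/

set_option autoImplicit false

namespace Pool.Agent.CCP

open Pool.Agent.CCO

/-- A greatest element of the bridgeless graphs is equivalent to the Petersen graph. -/
theorem greatest (U : FinGraph) (hU : Bridgeless U)
    (h : ∀ G : FinGraph, Bridgeless G → Le G U) : Le U Petersen ∧ Le Petersen U :=
  ⟨univ_petersen U hU h, h _ petersen_bridgeless⟩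

theorem petersen_lt_K2 : Lt Petersen K2 :=
  ⟨bridgeless_of_le_of_bridge Classif.K2_bridge,
    fun h => Classif.K2_bridge (Classif.bridgeless_of_le h petersen_bridgeless)⟩

theorem special_iff (a b : FinGraph) :
    ((∀ G : FinGraph, Le G a ↔ Bridgeless G) ∧ (Le b K2 ∧ Le K2 b)) ↔
      ((Le a Petersen ∧ Le Petersen a) ∧ (Le b K2 ∧ Le K2 b) ∧
        ∀ G : FinGraph, Bridgeless G → Le G Petersen) := by
  constructor
  · rintro ⟨hu, hb⟩
    have ha : Bridgeless a := (hu a).1 (le_refl a)
    have hg := greatest a ha (fun G hG => (hu G).2 hG)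
    exact ⟨hg, hb, fun G hG => le_trans' ((hu G).2 hG) hg.1⟩
  · rintro ⟨⟨h1, h2⟩, hb, hJ⟩
    exact ⟨fun G => ⟨fun h => Classif.bridgeless_of_le (le_trans' h h1) petersen_bridgeless,
      fun h => le_trans' (hJ G h) h2⟩, hb⟩

end Pool.Agent.CCP
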