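import Pool.Agent.CCO.Cubic1

/-!
# [CCP-Seven] a universal graph of the right kind is the Petersen graph (helper33)

`Nice C`: cubic without loops, without cuts of one or two edges, all cuts of three edges are stars, connected.
`seven`: if `M` is a perfect matching of `C` and the Petersen graph maps to `C` then `C` maps to the Petersen graph.
-/

set_option autoImplicit false
set_option maxRecDepth 20000
set_option synthInstance.maxSize 100000
set_option synthInstance.maxHeartbeats 4000000
set_option linter.unusedSimpArgs false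

namespace Pool.Agent.CCP

open Finset Pool.Agent.CCO

/-- the Petersen graph: the vertices `(0, i)`, `(1, i)`, the edges `(0, i)` from `(0, i)` to `(0, i + 1)`, `(1, i)` from
`(0, i)` to `(1, i)` and `(2, i)` from `(1, i)` to `(1, i + 2)`, `i` modulo `5` -/
@[reducible] def Pet : FinGraph where
  V := Fin 2 × Fin 5
  E := Fin 3 × Fin 5
  fintypeV := inferInstance
  fintypeE := inferInstance
  decV := inferInstance
  decE := inferInstance
  fst := fun e => if e.1 = 2 then (1, e.2) else (0, e.2)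
  snd := fun e => if e.1 = 0 then (0, e.2 + 1) else if e.1 = 1 then (1, e.2) else (1, e.2 + 2)
  nonempty := ⟨(0, 0)⟩

/-- the properties of a minimal universal graph -/
structure Nice (C : FinGraph) : Prop where
  noloop : ∀ e, C.fst e ≠ C.snd e
  deg : ∀ v, (star C v).card = 0 ∨ (star C v).card = 3
  one : ∀ W, (cut C W).card ≠ 1
  two : ∀ W, (cut C W).card ≠ 2
  three : ∀ W, (cut C W).card = 3 → ∃ v, cut C W = star C v
  conn : ∀ W, cut C W = ∅ → (∀ e, C.fst e ∈ W) ∨ (∀ e, C.fst e ∉ W)

/-! ### Cuts -/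

theorem cut_of_orth (C : FinGraph) (S : Finset C.E) (h : ∀ φ, IsFlow C φ → ∑ e ∈ S, φ e = 0) :
    ∃ W, cut C W = S := by
  obtain ⟨w, hw⟩ := exists_potential C (fun e => if e ∈ S then 1 else 0) (by
    intro φ hφ
    simp only [ite_mul, one_mul, zero_mul]
    rw [← sum_filter]
    simp only [filter_mem_eq_inter, univ_inter]
    exact h φ hφ)
  refine ⟨univ.filter (fun v => w v = 1), ?_⟩
  ext x
  simp only [cut, mem_filter, mem_univ, true_and]
  have hx := hw x
  rcases zmod2_cases (w (C.fst x)) with h1 | h1 <;>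
    rcases zmod2_cases (w (C.snd x)) with h2 | h2 <;> rw [h1, h2] at hx <;>
    by_cases hxe : x ∈ S <;> simp [hxe, h1, h2] at hx ⊢

theorem img3 {C : FinGraph} (hC : Nice C) {p q r : C.E} (h : ∀ φ, IsFlow C φ → φ p + φ q + φ r = 0) :
    ∃ v, Tri C v p q r := by
  have key : ∀ {x : C.E}, (∀ φ, IsFlow C φ → φ x = 0) → False := by
    intro x hx
    obtain ⟨W, hW⟩ := cut_of_orth C {x} (fun φ hφ => by rw [sum_singleton]; exact hx φ hφ)
    exact hC.one W (by rw [hW, card_singleton])
  have hpq : p ≠ q := by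
    rintro rfl
    refine key (x := r) fun φ hφ => ?_
    have := h φ hφ
    rwa [z2_self, zero_add] at this
  have hpr : p ≠ r := by
    rintro rfl
    refine key (x := q) fun φ hφ => ?_
    have := h φ hφ
    rwa [add_right_comm, z2_self, zero_add] at this
  have hqr : q ≠ r := by
    rintro rfl
    refine key (x := p) fun φ hφ => ?_
    have := h φ hφ
    rwa [add_assoc, z2_self, add_zero] at this
  obtain ⟨W, hW⟩ := cut_of_orth C {p, q, r} (fun φ hφ => by
    rw [sum_insert (by simp [hpq, hpr]), sum_insert (by simp [hqr]), sum_singleton, ← add_assoc]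
    exact h φ hφ)
  have hc : (cut C W).card = 3 := by
    rw [hW, card_insert_of_notMem (by simp [hpq, hpr]), card_insert_of_notMem (by simp [hqr]), card_singleton]
  obtain ⟨v, hv⟩ := hC.three W hc
  exact ⟨v, by rw [← hv, hW], hpq, hpr, hqr⟩

/-- an edge has two ends -/
theorem ends2 {C : FinGraph} {e : C.E} {u v x : C.V} (huv : u ≠ v) (hu : e ∈ star C u) (hv : e ∈ star C v)
    (hx : e ∈ star C x) : x = u ∨ x = v := by
  rw [mem_star] at hu hv hx
  rcases hu with hu | hu <;> rcases hv with hv | hv <;> rcases hx with hx | hx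
  · exact absurd (hu.symm.trans hv) huv
  · exact absurd (hu.symm.trans hv) huv
  · exact Or.inl (hx.symm.trans hu)
  · exact Or.inr (hx.symm.trans hv)
  · exact Or.inr (hx.symm.trans hv)
  · exact Or.inl (hx.symm.trans hu)
  · exact absurd (hu.symm.trans hv) huv
  · exact absurd (hu.symm.trans hv) huv

theorem mem_cut_of {C : FinGraph} {e : C.E} {u v : C.V} (huv : u ≠ v) (hu : e ∈ star C u) (hv : e ∈ star C v)
    (W : Finset C.V) : e ∈ cut C W ↔ ¬ (u ∈ W ↔ v ∈ W) := by
  simp only [cut, mem_filter, mem_univ, true_and]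
  rw [mem_star] at hu hv
  rcases hu with hu | hu <;> rcases hv with hv | hv
  · exact absurd (hu.symm.trans hv) huv
  · rw [hu, hv]
  · rw [hu, hv]
    tauto
  · exact absurd (hu.symm.trans hv) huv

theorem exists_end {C : FinGraph} (hC : Nice C) {e : C.E} {u : C.V} (hu : e ∈ star C u) :
    ∃ v, u ≠ v ∧ e ∈ star C v := by
  rw [mem_star] at hu
  rcases hu with hu | hu
  · exact ⟨C.snd e, fun h => hC.noloop e (hu.trans h), snd_mem_star e⟩
  · exact ⟨C.fst e, fun h => hC.noloop e (hu.trans h).symm, fst_mem_star e⟩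

/-! ### The Petersen graph -/

/-- the first edge at a vertex -/
def pa (x : Fin 2 × Fin 5) : Fin 3 × Fin 5 := if x.1 = 0 then (0, x.2 + 4) else (2, x.2 + 3)

/-- the second edge at a vertex -/
def pb (x : Fin 2 × Fin 5) : Fin 3 × Fin 5 := if x.1 = 0 then (0, x.2) else (2, x.2)

/-- the third edge at a vertex -/
def pn (x : Fin 2 × Fin 5) : Fin 3 × Fin 5 := (1, x.2)

theorem tri_pet (x : Fin 2 × Fin 5) : Tri Pet x (pa x) (pb x) (pn x) := by
  refine ⟨?_, ?_, ?_, ?_⟩
  · revert x
    decide
  · revert x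
    decide
  · revert x
    decide
  · revert x
    decide

theorem pet_noloop : ∀ e : Fin 3 × Fin 5, Pet.fst e ≠ Pet.snd e := by decide

theorem pet_simple : ∀ e e' : Fin 3 × Fin 5, (Pet.fst e = Pet.fst e' ∨ Pet.fst e = Pet.snd e') →
    (Pet.snd e = Pet.fst e' ∨ Pet.snd e = Pet.snd e') → e = e' := by decide

theorem bd_pet (φ : Fin 3 × Fin 5 → ZMod 2) (x : Fin 2 × Fin 5) : bd Pet φ x = φ (pa x) + φ (pb x) + φ (pn x) := by
  rw [bd_eq_star pet_noloop]
  exact (tri_pet x).sum φ

/-! ### Perfect matchings of the Petersen graph -/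

/-- exactly one of three -/
def one3 (p q r : Bool) : Bool := (p && !q && !r) || (!p && q && !r) || (!p && !q && r)

theorem pm_aux : ∀ a4 a0 s0 : Bool, one3 a4 a0 s0 = true → ∀ a1 s1 : Bool, one3 a0 a1 s1 = true →
    ∀ a2 s2 : Bool, one3 a1 a2 s2 = true → ∀ a3 s3 : Bool, one3 a2 a3 s3 = true → ∀ s4 : Bool, one3 a3 a4 s4 = true →
    ∀ b3 b0 : Bool, one3 b3 b0 s0 = true → ∀ b2 : Bool, one3 b0 b2 s2 = true → ∀ b4 : Bool, one3 b2 b4 s4 = true →
    ∀ b1 : Bool, one3 b4 b1 s1 = true → one3 b1 b3 s3 = true →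
    [a0, a1, a2, a3, a4, s0, s1, s2, s3, s4, b0, b1, b2, b3, b4] =
      [false, false, false, false, false, true, true, true, true, true, false, false, false, false, false] ∨
    [a0, a1, a2, a3, a4, s0, s1, s2, s3, s4, b0, b1, b2, b3, b4] =
      [false, true, false, true, false, true, false, false, false, false, false, true, true, false, false] ∨
    [a1, a2, a3, a4, a0, s1, s2, s3, s4, s0, b1, b2, b3, b4, b0] =
      [false, true, false, true, false, true, false, false, false, false, false, true, true, false, false] ∨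
    [a2, a3, a4, a0, a1, s2, s3, s4, s0, s1, b2, b3, b4, b0, b1] =
      [false, true, false, true, false, true, false, false, false, false, false, true, true, false, false] ∨
    [a3, a4, a0, a1, a2, s3, s4, s0, s1, s2, b3, b4, b0, b1, b2] =
      [false, true, false, true, false, true, false, false, false, false, false, true, true, false, false] ∨
    [a4, a0, a1, a2, a3, s4, s0, s1, s2, s3, b4, b0, b1, b2, b3] =
      [false, true, false, true, false, true, false, false, false, false, false, true, true, false, false] := by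
  decide

/-- an automorphism on the vertices -/
def tV (x : Fin 2 × Fin 5) : Fin 2 × Fin 5 :=
  if x.1 = 0 then (if x.2 = 2 then (1, 1) else if x.2 = 3 then (1, 4) else x)
  else (if x.2 = 0 then (1, 0) else if x.2 = 1 then (0, 2) else if x.2 = 2 then (1, 3) else if x.2 = 3 then (1, 2)
    else (0, 3))

/-- the automorphism on the edges -/
def tE (e : Fin 3 × Fin 5) : Fin 3 × Fin 5 :=
  if e.1 = 0 then (if e.2 = 0 then (0, 0) else if e.2 = 1 then (1, 1) else if e.2 = 2 then (2, 4) else
    if e.2 = 3 then (1, 4) else (0, 4))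
  else if e.1 = 1 then (if e.2 = 0 then (1, 0) else if e.2 = 1 then (0, 1) else if e.2 = 2 then (2, 1) else
    if e.2 = 3 then (2, 2) else (0, 3))
  else (if e.2 = 0 then (2, 3) else if e.2 = 1 then (1, 2) else if e.2 = 2 then (1, 3) else if e.2 = 3 then (2, 0)
    else (0, 2))

/-- the rotated automorphism -/
def tEk (k : Fin 5) (e : Fin 3 × Fin 5) : Fin 3 × Fin 5 := ((tE e).1, (tE e).2 + k)

/-- the rotated automorphism -/
def tVk (k : Fin 5) (e : Fin 2 × Fin 5) : Fin 2 × Fin 5 := ((tV e).1, (tV e).2 + k)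

theorem tE_star : ∀ (k : Fin 5) (x : Fin 2 × Fin 5),
    ({tEk k (pa x), tEk k (pb x), tEk k (pn x)} : Finset (Fin 3 × Fin 5)) =
      {pa (tVk k x), pb (tVk k x), pn (tVk k x)} ∧ tEk k (pa x) ≠ tEk k (pb x) ∧ tEk k (pa x) ≠ tEk k (pn x) ∧
        tEk k (pb x) ≠ tEk k (pn x) := by
  decide

theorem cc_tEk (k : Fin 5) : CC Pet Pet (tEk k) := by
  intro φ hφ x
  have h1 := hφ (tVk k x)
  rw [bd_pet] at h1
  have h2 := bd_pet (fun e => φ (tEk k e)) x
  refine h2.trans ?_
  rw [← h1]
  obtain ⟨h3, h4, h5, h6⟩ := tE_star k x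
  have h7 : Tri Pet (tVk k x) (tEk k (pa x)) (tEk k (pb x)) (tEk k (pn x)) :=
    ⟨(tri_pet (tVk k x)).1.trans h3.symm, h4, h5, h6⟩
  exact (h7.sum φ).symm.trans ((tri_pet (tVk k x)).sum φ)

theorem tri_tEk (k : Fin 5) (x : Fin 2 × Fin 5) : ∃ y, Tri Pet y (tEk k (pa x)) (tEk k (pb x)) (tEk k (pn x)) := by
  obtain ⟨h3, h4, h5, h6⟩ := tE_star k x
  exact ⟨tVk k x, (tri_pet (tVk k x)).1.trans h3.symm, h4, h5, h6⟩

theorem pm_std (χ : Fin 3 × Fin 5 → Bool) (h : ∀ x, one3 (χ (pa x)) (χ (pb x)) (χ (pn x)) = true) :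
    ∃ σ : Fin 3 × Fin 5 → Fin 3 × Fin 5, CC Pet Pet σ ∧ (∀ x, ∃ y, Tri Pet y (σ (pa x)) (σ (pb x)) (σ (pn x))) ∧
      ∀ e, χ (σ e) = decide (e.1 = 1) := by
  have h0 := pm_aux (χ (0, 4)) (χ (0, 0)) (χ (1, 0)) (h (0, 0)) (χ (0, 1)) (χ (1, 1)) (h (0, 1)) (χ (0, 2)) (χ (1, 2))
    (h (0, 2)) (χ (0, 3)) (χ (1, 3)) (h (0, 3)) (χ (1, 4)) (h (0, 4)) (χ (2, 3)) (χ (2, 0)) (h (1, 0)) (χ (2, 2))
    (h (1, 2)) (χ (2, 4)) (h (1, 4)) (χ (2, 1)) (h (1, 1)) (h (1, 3))
  rcases h0 with h0 | h0 | h0 | h0 | h0 | h0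
  · refine ⟨id, cc_id Pet, fun x => ⟨x, tri_pet x⟩, ?_⟩
    simp only [List.cons.injEq, and_true] at h0
    obtain ⟨a1, a2, a3, a4, a5, a6, a7, a8, a9, a10, a11, a12, a13, a14, a15⟩ := h0
    rintro ⟨i, j⟩
    fin_cases i <;> fin_cases j <;> simpa
  · refine ⟨tEk 0, cc_tEk 0, tri_tEk 0, ?_⟩
    simp only [List.cons.injEq, and_true] at h0
    obtain ⟨a1, a2, a3, a4, a5, a6, a7, a8, a9, a10, a11, a12, a13, a14, a15⟩ := h0
    rintro ⟨i, j⟩
    fin_cases i <;> fin_cases j <;> simpa [tEk, tE]
  · refine ⟨tEk 1, cc_tEk 1, tri_tEk 1, ?_⟩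
    simp only [List.cons.injEq, and_true] at h0
    obtain ⟨a1, a2, a3, a4, a5, a6, a7, a8, a9, a10, a11, a12, a13, a14, a15⟩ := h0
    rintro ⟨i, j⟩
    fin_cases i <;> fin_cases j <;> simpa [tEk, tE]
  · refine ⟨tEk 2, cc_tEk 2, tri_tEk 2, ?_⟩
    simp only [List.cons.injEq, and_true] at h0
    obtain ⟨a1, a2, a3, a4, a5, a6, a7, a8, a9, a10, a11, a12, a13, a14, a15⟩ := h0
    rintro ⟨i, j⟩
    fin_cases i <;> fin_cases j <;> simpa [tEk, tE]
  · refine ⟨tEk 3, cc_tEk 3, tri_tEk 3, ?_⟩
    simp only [List.cons.injEq, and_true] at h0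
    obtain ⟨a1, a2, a3, a4, a5, a6, a7, a8, a9, a10, a11, a12, a13, a14, a15⟩ := h0
    rintro ⟨i, j⟩
    fin_cases i <;> fin_cases j <;> simpa [tEk, tE]
  · refine ⟨tEk 4, cc_tEk 4, tri_tEk 4, ?_⟩
    simp only [List.cons.injEq, and_true] at h0
    obtain ⟨a1, a2, a3, a4, a5, a6, a7, a8, a9, a10, a11, a12, a13, a14, a15⟩ := h0
    rintro ⟨i, j⟩
    fin_cases i <;> fin_cases j <;> simpa [tEk, tE]

theorem one3_of_ne : ∀ p q r : Fin 3, p ≠ q → p ≠ r → q ≠ r →
    one3 (decide (p = 0)) (decide (q = 0)) (decide (r = 0)) = true := by decide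

theorem five_odd : ∀ a0 a1 a2 a3 a4 : Fin 3, a0 ≠ 0 → a1 ≠ 0 → a2 ≠ 0 → a3 ≠ 0 → a4 ≠ 0 → a0 ≠ a1 → a1 ≠ a2 →
    a2 ≠ a3 → a3 ≠ a4 → a4 ≠ a0 → False := by decide

/-- the Petersen graph has no 3-edge-colouring -/
theorem pet_not3 (c : Fin 3 × Fin 5 → Fin 3)
    (h : ∀ x, c (pa x) ≠ c (pb x) ∧ c (pa x) ≠ c (pn x) ∧ c (pb x) ≠ c (pn x)) : False := by
  obtain ⟨σ, -, h2, h3⟩ := pm_std (fun e => decide (c e = 0)) (fun x => one3_of_ne _ _ _ (h x).1 (h x).2.1 (h x).2.2)
  have h4 : ∀ x, c (σ (pa x)) ≠ c (σ (pb x)) := by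
    intro x
    obtain ⟨y, hy⟩ := h2 x
    obtain ⟨g1, g2, g3⟩ := h y
    have e1 := (tri_pet y).cases hy.mem1
    have e2 := (tri_pet y).cases hy.mem2
    have hne := hy.2.1
    rcases e1 with e1 | e1 | e1 <;> rcases e2 with e2 | e2 | e2 <;> rw [e1, e2] at hne ⊢
    · exact absurd rfl hne
    · exact g1
    · exact g2
    · exact g1.symm
    · exact absurd rfl hne
    · exact g3
    · exact g2.symm
    · exact g3.symm
    · exact absurd rfl hne
  have h5 : ∀ i : Fin 5, c (σ (0, i)) ≠ 0 := by
    intro i hi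
    have := h3 (0, i)
    simp [hi] at this
  exact five_odd _ _ _ _ _ (h5 0) (h5 1) (h5 2) (h5 3) (h5 4) (h4 (0, 1)) (h4 (0, 2)) (h4 (0, 3)) (h4 (0, 4)) (h4 (0, 0))

/-! ### Simple, without triangles -/

/-- a map from the Petersen graph with stars mapped to stars excludes 3-edge-colourings -/
theorem no_col {C : FinGraph} (f : Fin 3 × Fin 5 → C.E) (Φ : Fin 2 × Fin 5 → C.V)
    (hf : ∀ x, Tri C (Φ x) (f (pa x)) (f (pb x)) (f (pn x))) (c : C.E → Fin 3)
    (hc : ∀ v, ∀ e ∈ star C v, ∀ e' ∈ star C v, e ≠ e' → c e ≠ c e') : False := by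
  refine pet_not3 (fun e => c (f e)) fun x => ?_
  have h := hf x
  exact ⟨hc _ _ h.mem1 _ h.mem2 h.2.1, hc _ _ h.mem1 _ h.mem3 h.2.2.1, hc _ _ h.mem2 _ h.mem3 h.2.2.2⟩

theorem third {C : FinGraph} (hC : Nice C) {v : C.V} {p q : C.E} (hp : p ∈ star C v) (hq : q ∈ star C v)
    (hpq : p ≠ q) : ∃ r, Tri C v p q r := by
  have hc : (star C v).card = 3 := by
    rcases hC.deg v with h | h
    · rw [card_eq_zero] at h
      rw [h] at hp
      exact absurd hp (notMem_empty _)
    · exact h
  have h1 : (((star C v).erase p).erase q).card = 1 := by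
    rw [card_erase_of_mem (mem_erase.2 ⟨hpq.symm, hq⟩), card_erase_of_mem hp, hc]
  obtain ⟨r, hr⟩ := card_eq_one.1 h1
  have h2 : r ∈ ((star C v).erase p).erase q := by rw [hr]; exact mem_singleton_self r
  rw [mem_erase, mem_erase] at h2
  exact ⟨r, tri_of_mem hc hp hq h2.2.2 hpq h2.2.1.symm h2.1.symm⟩

/-- no parallel edges -/
theorem nice_par {C : FinGraph} (hC : Nice C)
    (hn : ∀ c : C.E → Fin 3, (∀ v, ∀ e ∈ star C v, ∀ e' ∈ star C v, e ≠ e' → c e ≠ c e') → False)
    {p r : C.V} {e e' : C.E} (hpr : p ≠ r) (h1 : e ∈ star C p) (h2 : e ∈ star C r) (h3 : e' ∈ star C p)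
    (h4 : e' ∈ star C r) : e = e' := by
  by_contra hne
  obtain ⟨g, hg⟩ := third hC h1 h3 hne
  obtain ⟨g', hg'⟩ := third hC h2 h4 hne
  have hcut : ∀ x : C.E, x ∈ cut C {p, r} → x = g ∨ x = g' := by
    intro x hx
    have hx2 := hx
    simp only [cut, mem_filter, mem_univ, true_and, mem_insert, mem_singleton] at hx
    have : x ∈ star C p ∨ x ∈ star C r := by
      rw [mem_star, mem_star]
      tauto
    have hee : e ∉ cut C {p, r} := by
      rw [mem_cut_of hpr h1 h2]
      simp
    have hee' : e' ∉ cut C {p, r} := by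
      rw [mem_cut_of hpr h3 h4]
      simp
    rcases this with h | h
    · rcases hg.cases h with h | h | h
      · rw [h] at hx2; exact absurd hx2 hee
      · rw [h] at hx2; exact absurd hx2 hee'
      · exact Or.inl h
    · rcases hg'.cases h with h | h | h
      · rw [h] at hx2; exact absurd hx2 hee
      · rw [h] at hx2; exact absurd hx2 hee'
      · exact Or.inr h
  by_cases hgg : g = g'
  · -- three parallel edges
    have h0 : cut C {p, r} = ∅ := by
      rw [eq_empty_iff_forall_notMem]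
      intro x hx
      have hxg : x = g := by
        rcases hcut x hx with h | h
        · exact h
        · rw [h, hgg]
      rw [hxg, mem_cut_of hpr hg.mem3 (by rw [hgg]; exact hg'.mem3)] at hx
      simp at hx
    have hall : ∀ x : C.E, x = e ∨ x = e' ∨ x = g := by
      rcases hC.conn _ h0 with h | h
      · intro x
        have hx := h x
        rw [mem_insert, mem_singleton] at hx
        rcases hx with hx | hx
        · apply hg.cases
          rw [← hx]
          exact fst_mem_star x
        · rw [hgg]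
          apply hg'.cases
          rw [← hx]
          exact fst_mem_star x
      · exfalso
        apply h e
        rw [mem_insert, mem_singleton]
        exact ends2 hpr h1 h2 (fst_mem_star e)
    apply hn (fun x => if x = e then 0 else if x = e' then 1 else 2)
    intro v x _ y _ hxy
    rcases hall x with rfl | rfl | rfl <;> rcases hall y with rfl | rfl | rfl <;>
      simp [hne, Ne.symm hne, hg.2.2.1, hg.2.2.1.symm, hg.2.2.2, hg.2.2.2.symm] at hxy ⊢
  · apply hC.two {p, r}
    have h0 : cut C {p, r} = {g, g'} := by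
      ext x
      rw [mem_insert, mem_singleton]
      refine ⟨hcut x, ?_⟩
      rintro (rfl | rfl)
      · obtain ⟨u, hu, hgu⟩ := exists_end hC hg.mem3
        rw [mem_cut_of hu hg.mem3 hgu]
        have : u ≠ r := by
          rintro rfl
          rcases hg'.cases hgu with h | h | h
          · exact hg.2.2.1 h.symm
          · exact hg.2.2.2 h.symm
          · exact hgg h
        simp [this, hu.symm]
      · obtain ⟨u, hu, hgu⟩ := exists_end hC hg'.mem3
        rw [mem_cut_of hu hg'.mem3 hgu]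
        have : u ≠ p := by
          rintro rfl
          rcases hg.cases hgu with h | h | h
          · exact hg'.2.2.1 h.symm
          · exact hg'.2.2.2 h.symm
          · exact hgg h.symm
        simp [this, hu.symm]
    rw [h0, card_pair hgg]

/-- no triangles -/
theorem nice_tri {C : FinGraph} (hC : Nice C)
    (hn : ∀ c : C.E → Fin 3, (∀ v, ∀ e ∈ star C v, ∀ e' ∈ star C v, e ≠ e' → c e ≠ c e') → False)
    {p r s : C.V} {e1 e2 e3 : C.E} (hpr : p ≠ r) (hrs : r ≠ s) (hsp : s ≠ p) (h1p : e1 ∈ star C p) (h1s : e1 ∈ star C s)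
    (h2p : e2 ∈ star C p) (h2r : e2 ∈ star C r) (h3r : e3 ∈ star C r) (h3s : e3 ∈ star C s) : False := by
  have h12 : e1 ≠ e2 := by
    rintro rfl
    rcases ends2 hpr h2p h2r h1s with h | h
    · exact hsp h
    · exact hrs h.symm
  have h23 : e2 ≠ e3 := by
    rintro rfl
    rcases ends2 hpr h2p h2r h3s with h | h
    · exact hsp h
    · exact hrs h.symm
  have h13 : e1 ≠ e3 := by
    rintro rfl
    rcases ends2 hsp.symm h1p h1s h3r with h | h
    · exact hpr h.symm
    · exact hrs h
  obtain ⟨g1, hg1⟩ := third hC h1p h2p h12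
  obtain ⟨g2, hg2⟩ := third hC h2r h3r h23
  obtain ⟨g3, hg3⟩ := third hC h3s h1s h13.symm
  -- the third edges leave the triangle
  have o1 : ∀ u, u ≠ p → g1 ∈ star C u → u ≠ r ∧ u ≠ s := by
    intro u hu hgu
    refine ⟨?_, ?_⟩
    · rintro rfl
      exact hg1.2.2.2 (nice_par hC hn hpr h2p h2r hg1.mem3 hgu)
    · rintro rfl
      exact hg1.2.2.1 (nice_par hC hn hsp.symm h1p h1s hg1.mem3 hgu)
  have o2 : ∀ u, u ≠ r → g2 ∈ star C u → u ≠ p ∧ u ≠ s := by
    intro u hu hgu
    refine ⟨?_, ?_⟩
    · rintro rfl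
      exact hg2.2.2.1 (nice_par hC hn hpr h2p h2r hgu hg2.mem3)
    · rintro rfl
      exact hg2.2.2.2 (nice_par hC hn hrs h3r h3s hg2.mem3 hgu)
  have o3 : ∀ u, u ≠ s → g3 ∈ star C u → u ≠ p ∧ u ≠ r := by
    intro u hu hgu
    refine ⟨?_, ?_⟩
    · rintro rfl
      exact hg3.2.2.2 (nice_par hC hn hsp.symm h1p h1s hgu hg3.mem3)
    · rintro rfl
      exact hg3.2.2.1 (nice_par hC hn hrs h3r h3s hgu hg3.mem3)
  have hg12 : g1 ≠ g2 := by
    intro h
    exact (o1 r hpr.symm (by rw [h]; exact hg2.mem3)).1 rfl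
  have hg13 : g1 ≠ g3 := by
    intro h
    exact (o1 s hsp (by rw [h]; exact hg3.mem3)).2 rfl
  have hg23 : g2 ≠ g3 := by
    intro h
    exact (o2 s hrs.symm (by rw [h]; exact hg3.mem3)).2 rfl
  have hcut : cut C {p, r, s} = {g1, g2, g3} := by
    ext x
    rw [mem_insert, mem_insert, mem_singleton]
    constructor
    · intro hx
      have hx2 := hx
      simp only [cut, mem_filter, mem_univ, true_and, mem_insert, mem_singleton] at hx
      have hx3 : x ∈ star C p ∨ x ∈ star C r ∨ x ∈ star C s := by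
        rw [mem_star, mem_star, mem_star]
        tauto
      have n1 : e1 ∉ cut C {p, r, s} := by
        rw [mem_cut_of hsp.symm h1p h1s]
        simp
      have n2 : e2 ∉ cut C {p, r, s} := by
        rw [mem_cut_of hpr h2p h2r]
        simp
      have n3 : e3 ∉ cut C {p, r, s} := by
        rw [mem_cut_of hrs h3r h3s]
        simp
      rcases hx3 with h | h | h
      · rcases hg1.cases h with h | h | h
        · rw [h] at hx2; exact absurd hx2 n1
        · rw [h] at hx2; exact absurd hx2 n2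
        · exact Or.inl h
      · rcases hg2.cases h with h | h | h
        · rw [h] at hx2; exact absurd hx2 n2
        · rw [h] at hx2; exact absurd hx2 n3
        · exact Or.inr (Or.inl h)
      · rcases hg3.cases h with h | h | h
        · rw [h] at hx2; exact absurd hx2 n3
        · rw [h] at hx2; exact absurd hx2 n1
        · exact Or.inr (Or.inr h)
    · rintro (rfl | rfl | rfl)
      · obtain ⟨u, hu, hgu⟩ := exists_end hC hg1.mem3
        rw [mem_cut_of hu hg1.mem3 hgu]
        have := o1 u hu.symm hgu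
        simp [this.1, this.2, hu.symm]
      · obtain ⟨u, hu, hgu⟩ := exists_end hC hg2.mem3
        rw [mem_cut_of hu hg2.mem3 hgu]
        have := o2 u hu.symm hgu
        simp [this.1, this.2, hu.symm]
      · obtain ⟨u, hu, hgu⟩ := exists_end hC hg3.mem3
        rw [mem_cut_of hu hg3.mem3 hgu]
        have := o3 u hu.symm hgu
        simp [this.1, this.2, hu.symm]
  obtain ⟨v, hv⟩ := hC.three {p, r, s} (by
    rw [hcut, card_insert_of_notMem (by simp [hg12, hg13]), card_insert_of_notMem (by simp [hg23]), card_singleton])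
  have hv1 : g1 ∈ star C v := by rw [← hv, hcut]; simp
  have hv2 : g2 ∈ star C v := by rw [← hv, hcut]; simp
  have hv3 : g3 ∈ star C v := by rw [← hv, hcut]; simp
  have hvT : Tri C v g1 g2 g3 := ⟨by rw [← hv, hcut], hg12, hg13, hg23⟩
  have hvp : v ≠ p := by
    rintro rfl
    exact (o2 v hpr hv2).1 rfl
  have hvr : v ≠ r := by
    rintro rfl
    exact (o1 v hpr.symm hv1).1 rfl
  have hvs : v ≠ s := by
    rintro rfl
    exact (o1 v hsp hv1).2 rfl
  have h0 : cut C {p, r, s, v} = ∅ := by
    rw [eq_empty_iff_forall_notMem]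
    intro x hx
    have hx2 := hx
    simp only [cut, mem_filter, mem_univ, true_and, mem_insert, mem_singleton] at hx
    have hx3 : x ∈ star C p ∨ x ∈ star C r ∨ x ∈ star C s ∨ x ∈ star C v := by
      rw [mem_star, mem_star, mem_star, mem_star]
      tauto
    have n1 : e1 ∉ cut C {p, r, s, v} := by
      rw [mem_cut_of hsp.symm h1p h1s]
      simp
    have n2 : e2 ∉ cut C {p, r, s, v} := by
      rw [mem_cut_of hpr h2p h2r]
      simp
    have n3 : e3 ∉ cut C {p, r, s, v} := by
      rw [mem_cut_of hrs h3r h3s]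
      simp
    have m1 : g1 ∉ cut C {p, r, s, v} := by
      rw [mem_cut_of hvp hv1 hg1.mem3]
      simp
    have m2 : g2 ∉ cut C {p, r, s, v} := by
      rw [mem_cut_of hvr hv2 hg2.mem3]
      simp
    have m3 : g3 ∉ cut C {p, r, s, v} := by
      rw [mem_cut_of hvs hv3 hg3.mem3]
      simp
    rcases hx3 with h | h | h | h
    · rcases hg1.cases h with h | h | h <;> rw [h] at hx2
      · exact n1 hx2
      · exact n2 hx2
      · exact m1 hx2
    · rcases hg2.cases h with h | h | h <;> rw [h] at hx2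
      · exact n2 hx2
      · exact n3 hx2
      · exact m2 hx2
    · rcases hg3.cases h with h | h | h <;> rw [h] at hx2
      · exact n3 hx2
      · exact n1 hx2
      · exact m3 hx2
    · rcases hvT.cases h with h | h | h <;> rw [h] at hx2
      · exact m1 hx2
      · exact m2 hx2
      · exact m3 hx2
  -- all vertices with edges are in `{p, r, s, v}`
  have hall : ∀ u x, x ∈ star C u → u = p ∨ u = r ∨ u = s ∨ u = v := by
    have h00 : ∀ x, C.fst x ∈ ({p, r, s, v} : Finset C.V) := by
      rcases hC.conn _ h0 with h | h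
      · exact h
      · exfalso
        apply h e1
        rcases ends2 hsp.symm h1p h1s (fst_mem_star e1) with h | h <;> rw [h] <;> simp
    intro u x hx
    rw [mem_star] at hx
    have h01 : C.snd x ∈ ({p, r, s, v} : Finset C.V) := by
      by_contra hcon
      have : x ∈ cut C {p, r, s, v} := by
        simp only [cut, mem_filter, mem_univ, true_and]
        intro h
        exact hcon (h.1 (h00 x))
      rw [h0] at this
      exact notMem_empty _ this
    have h02 : u ∈ ({p, r, s, v} : Finset C.V) := by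
      rcases hx with hx | hx
      · rw [← hx]; exact h00 x
      · rw [← hx]; exact h01
    simpa using h02
  have a1 : e1 ≠ g2 := by
    rintro rfl
    exact (o2 p hpr h1p).1 rfl
  have a2 : e2 ≠ g3 := by
    rintro rfl
    exact (o3 p hsp.symm h2p).1 rfl
  have a3 : e3 ≠ g1 := by
    rintro rfl
    exact (o1 r hpr.symm h3r).1 rfl
  have b1 := hg1.2.2.1
  have b2 := hg1.2.2.2
  have b3 := hg2.2.2.1
  have b4 := hg2.2.2.2
  have b5 := hg3.2.2.1
  have b6 := hg3.2.2.2
  apply hn (fun x => if x = e1 ∨ x = g2 then 0 else if x = e2 ∨ x = g3 then 1 else 2)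
  intro u x hx y hy hxy
  rcases hall u x hx with rfl | rfl | rfl | rfl
  · rcases hg1.cases hx with rfl | rfl | rfl <;> rcases hg1.cases hy with rfl | rfl | rfl <;>
      simp_all [Ne.symm h12, Ne.symm h23, Ne.symm h13, Ne.symm hg12, Ne.symm hg13, Ne.symm hg23, Ne.symm b1, Ne.symm b2,
        Ne.symm b3, Ne.symm b4, Ne.symm b5, Ne.symm b6]
  · rcases hg2.cases hx with rfl | rfl | rfl <;> rcases hg2.cases hy with rfl | rfl | rfl <;>
      simp_all [Ne.symm h12, Ne.symm h23, Ne.symm h13, Ne.symm hg12, Ne.symm hg13, Ne.symm hg23, Ne.symm b1, Ne.symm b2,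
        Ne.symm b3, Ne.symm b4, Ne.symm b5, Ne.symm b6]
  · rcases hg3.cases hx with rfl | rfl | rfl <;> rcases hg3.cases hy with rfl | rfl | rfl <;>
      simp_all [Ne.symm h12, Ne.symm h23, Ne.symm h13, Ne.symm hg12, Ne.symm hg13, Ne.symm hg23, Ne.symm b1, Ne.symm b2,
        Ne.symm b3, Ne.symm b4, Ne.symm b5, Ne.symm b6]
  · rcases hvT.cases hx with rfl | rfl | rfl <;> rcases hvT.cases hy with rfl | rfl | rfl <;>
      simp_all [Ne.symm h12, Ne.symm h23, Ne.symm h13, Ne.symm hg12, Ne.symm hg13, Ne.symm hg23, Ne.symm b1, Ne.symm b2,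
        Ne.symm b3, Ne.symm b4, Ne.symm b5, Ne.symm b6]

/-! ### A 5-cycle outside the matching is mapped injectively -/

theorem fin5_pairs : ∀ i j : Fin 5, i = j ∨ (∃ k, i = k + 1 ∧ j = k + 2) ∨ (∃ k, i = k + 2 ∧ j = k + 1) ∨
    (∃ k, i = k + 1 ∧ j = k + 3) ∨ (∃ k, i = k + 3 ∧ j = k + 1) := by decide

theorem fin5_a : ∀ i : Fin 5, i + 1 + 1 = i + 2 := by decide
theorem fin5_b : ∀ i : Fin 5, i + 2 + 1 = i + 3 := by decide
theorem fin5_c : ∀ i : Fin 5, i + 3 + 1 = i + 4 := by decide
theorem fin5_d : ∀ i : Fin 5, i + 4 + 1 = i := by decide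

theorem five {C : FinGraph} (hpar : ∀ {p r : C.V} {e e' : C.E}, p ≠ r → e ∈ star C p → e ∈ star C r → e' ∈ star C p →
      e' ∈ star C r → e = e')
    (htri : ∀ {p r s : C.V} {e1 e2 e3 : C.E}, p ≠ r → r ≠ s → s ≠ p → e1 ∈ star C p → e1 ∈ star C s → e2 ∈ star C p →
      e2 ∈ star C r → e3 ∈ star C r → e3 ∈ star C s → False)
    (M : C.E → Prop) (v : Fin 5 → C.V) (a n : Fin 5 → C.E) (h : ∀ i, Tri C (v (i + 1)) (a i) (a (i + 1)) (n (i + 1)))
    (ha : ∀ i, ¬ M (a i)) (hn : ∀ i, M (n i)) : Function.Injective v := by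
  have han : ∀ i j, a i ≠ n j := by
    intro i j hij
    exact ha i (by rw [hij]; exact hn j)
  have hfold : ∀ i, v (i + 1) ≠ v (i + 2) := by
    intro i hi
    have H0 := h i
    have H1 := h (i + 1)
    have H2 := h (i + 2)
    have H3 := h (i + 3)
    have H4 := h (i + 4)
    rw [fin5_a] at H1
    rw [fin5_b] at H2
    rw [fin5_c] at H3
    rw [fin5_d] at H4
    have e0 : a (i + 2) = a i := by
      have := H1.mem2
      rw [← hi] at this
      rcases H0.cases this with h | h | h
      · exact h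
      · exact absurd h.symm H1.2.1
      · exact absurd h (han _ _)
    have n1 : v (i + 3) ≠ v (i + 4) := by
      intro h
      have h1 := H3.mem2
      rw [← h] at h1
      rcases H2.cases h1 with h | h | h
      · exact H4.2.1 (h.trans e0)
      · exact H3.2.1 h.symm
      · exact han _ _ h
    have n2 : v (i + 4) ≠ v i := by
      intro h
      have h1 := H4.mem2
      rw [← h] at h1
      rcases H3.cases h1 with h | h | h
      · exact H2.2.1 (e0.trans h)
      · exact H4.2.1 h.symm
      · exact han _ _ h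
    have n3 : v i ≠ v (i + 3) := by
      intro h
      have h1 := H2.mem2
      rw [← h] at h1
      rcases H4.cases h1 with h | h | h
      · exact H3.2.1 h
      · exact H2.2.1 (e0.trans h.symm)
      · exact han _ _ h
    exact htri n1 n2 n3 (by rw [← e0]; exact H2.mem1) H4.mem2 H2.mem2 H3.mem1 H3.mem2 H4.mem1
  have hskip : ∀ i, v (i + 1) ≠ v (i + 3) := by
    intro i hi
    have H0 := h i
    have H1 := h (i + 1)
    have H2 := h (i + 2)
    rw [fin5_a] at H1
    rw [fin5_b] at H2
    have h1 := H2.mem1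
    rw [← hi] at h1
    exact H1.2.1 (hpar (hfold i) H0.mem2 H1.mem1 h1 H1.mem2)
  intro i j hij
  rcases fin5_pairs i j with h1 | ⟨k, rfl, rfl⟩ | ⟨k, rfl, rfl⟩ | ⟨k, rfl, rfl⟩ | ⟨k, rfl, rfl⟩
  · exact h1
  · exact absurd hij (hfold k)
  · exact absurd hij.symm (hfold k)
  · exact absurd hij (hskip k)
  · exact absurd hij.symm (hskip k)

/-! ### The main step -/

theorem fin5_e : ∀ i : Fin 5, i + 1 + 4 = i := by decide
theorem fin5_f : ∀ i : Fin 5, i + 2 + 3 = i := by decide
theorem fin5_g : ∀ i : Fin 5, i + 4 + 4 = i + 3 := by decide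
theorem fin5_h : ∀ i : Fin 5, 2 * (i + 1) = 2 * i + 2 := by decide
theorem fin5_i : ∀ i : Fin 5, 2 * i + 2 + 3 = 2 * i := by decide
theorem fin5_j : ∀ i j : Fin 5, i + (j + 1) = i + j + 1 := by decide
theorem fin5_k : ∀ i j : Fin 5, i + 2 * (j + 1) = i + 2 * j + 2 := by decide
theorem fin5_l : ∀ i j : Fin 5, i + 4 * (j + 1) = i + 4 * j + 4 := by decide

theorem fin5_ind {P : Fin 5 → Prop} (h0 : P 0) (h : ∀ i, P i → P (i + 1)) : ∀ i, P i := by
  have h1 := h 0 h0
  have h2 := h _ h1
  have h3 := h _ h2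
  have h4 := h _ h3
  intro i
  fin_cases i
  · exact h0
  · exact h1
  · exact h2
  · exact h3
  · exact h4

theorem fin5_plus : ∀ i0 j0 : Fin 5, ∃ k l : Fin 5, j0 + 2 * k = i0 + l ∧ i0 + k ≠ i0 + l ∧ i0 + l ≠ j0 + 2 * l ∧
    i0 + k ≠ j0 + 2 * l := by decide

theorem fin5_minus : ∀ i0 j0 : Fin 5, ∃ k l : Fin 5, j0 + 2 * k = i0 + 4 * l ∧ i0 + 4 * k ≠ i0 + 4 * l ∧
    i0 + 4 * l ≠ j0 + 2 * l ∧ i0 + 4 * k ≠ j0 + 2 * l := by decide

/-- the images of the two 5-cycles are disjoint -/
theorem disj {C : FinGraph} (M : C.E → Prop) (z y : Fin 5 → C.V) (A B m : Fin 5 → C.E)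
    (hz : ∀ i, Tri C (z i) (A (i + 4)) (A i) (m i)) (hy : ∀ i, Tri C (y i) (B (i + 3)) (B i) (m i))
    (hA : ∀ i, ¬ M (A i)) (hB : ∀ i, ¬ M (B i)) (hm : ∀ i, M (m i)) (hzi : Function.Injective z)
    (hyi : Function.Injective y) (i0 j0 : Fin 5) : z i0 ≠ y j0 := by
  intro h0
  have hAm : ∀ i j, A i ≠ m j := by
    intro i j h
    exact hA i (by rw [h]; exact hm j)
  have hBm : ∀ i j, B i ≠ m j := by
    intro i j h
    exact hB i (by rw [h]; exact hm j)
  have hmm : ∀ i j, z i = y j → m i = m j := by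
    intro i j h
    have h1 := (hy j).mem3
    rw [← h] at h1
    rcases (hz i).cases h1 with h2 | h2 | h2
    · exact absurd h2.symm (hAm _ _)
    · exact absurd h2.symm (hAm _ _)
    · exact h2.symm
  have h3 : ∀ i j l, i ≠ j → j ≠ l → i ≠ l → m i = m j → m j = m l → False := by
    intro i j l hij hjl hil e1 e2
    have h1 := (hz i).mem3
    have h2 := (hz j).mem3
    have h4 := (hz l).mem3
    rw [e1] at h1
    rw [← e2] at h4
    rcases ends2 (fun h => hij (hzi h)) h1 h2 h4 with h | h
    · exact hil (hzi h).symm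
    · exact hjl (hzi h).symm
  have h1 := (hy j0).mem2
  rw [← h0] at h1
  rcases (hz i0).cases h1 with h2 | h2 | h2
  · -- the opposite direction
    have key : ∀ k, z (i0 + 4 * k) = y (j0 + 2 * k) ∧ B (j0 + 2 * k) = A (i0 + 4 * k + 4) := by
      apply fin5_ind
      · simpa using ⟨h0, h2⟩
      · rintro k ⟨e1, e2⟩
        rw [fin5_k, fin5_l]
        set i := i0 + 4 * k
        set j := j0 + 2 * k
        have f1 : A (i + 4) ∈ star C (z (i + 4)) := (hz (i + 4)).mem2
        have f2 : A (i + 4) ∈ star C (z i) := (hz i).mem1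
        have f3 : B j ∈ star C (y (j + 2)) := by
          have := (hy (j + 2)).mem1
          rwa [fin5_f] at this
        rw [e2] at f3
        have f4 : z (i + 4) = y (j + 2) := by
          have hne : z i ≠ z (i + 4) := by
            intro h
            have := hzi h
            revert this
            generalize i = t
            revert t
            decide
          rcases ends2 hne f2 f1 f3 with h | h
          · exfalso
            have := hyi (h.trans e1)
            revert this
            generalize j = t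
            revert t
            decide
          · exact h.symm
        refine ⟨f4, ?_⟩
        have f5 := (hy (j + 2)).mem2
        rw [← f4] at f5
        rcases (hz (i + 4)).cases f5 with h | h | h
        · exact h
        · exfalso
          have := (hy (j + 2)).2.1
          rw [fin5_f, e2] at this
          exact this h.symm
        · exact absurd h (hBm _ _)
    obtain ⟨k, l, g1, g2, g3, g4⟩ := fin5_minus i0 j0
    have e1 := hmm _ _ (key k).1
    have e2 := hmm _ _ (key l).1
    rw [g1] at e1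
    exact h3 _ _ _ g2 g3 g4 e1 e2
  · have key : ∀ k, z (i0 + k) = y (j0 + 2 * k) ∧ B (j0 + 2 * k) = A (i0 + k) := by
      apply fin5_ind
      · simpa using ⟨h0, h2⟩
      · rintro k ⟨e1, e2⟩
        rw [fin5_k, fin5_j]
        set i := i0 + k
        set j := j0 + 2 * k
        have f1 : A i ∈ star C (z (i + 1)) := by
          have := (hz (i + 1)).mem1
          rwa [fin5_e] at this
        have f2 : A i ∈ star C (z i) := (hz i).mem2
        have f3 : B j ∈ star C (y (j + 2)) := by
          have := (hy (j + 2)).mem1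
          rwa [fin5_f] at this
        rw [e2] at f3
        have f4 : z (i + 1) = y (j + 2) := by
          have hne : z i ≠ z (i + 1) := by
            intro h
            have := hzi h
            revert this
            generalize i = t
            revert t
            decide
          rcases ends2 hne f2 f1 f3 with h | h
          · exfalso
            have := hyi (h.trans e1)
            revert this
            generalize j = t
            revert t
            decide
          · exact h.symm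
        refine ⟨f4, ?_⟩
        have f5 := (hy (j + 2)).mem2
        rw [← f4] at f5
        rcases (hz (i + 1)).cases f5 with h | h | h
        · exfalso
          have := (hy (j + 2)).2.1
          rw [fin5_f, e2] at this
          rw [fin5_e] at h
          exact this h.symm
        · exact h
        · exact absurd h (hBm _ _)
    obtain ⟨k, l, g1, g2, g3, g4⟩ := fin5_plus i0 j0
    have e1 := hmm _ _ (key k).1
    have e2 := hmm _ _ (key l).1
    rw [g1] at e1
    exact h3 _ _ _ g2 g3 g4 e1 e2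
  · exact hBm _ _ h2

/-- the vertex map is injective -/
theorem inj_of {C : FinGraph} (hC : Nice C) (M : C.E → Prop) (f : Fin 3 × Fin 5 → C.E) (Φ : Fin 2 × Fin 5 → C.V)
    (hf : ∀ x, Tri C (Φ x) (f (pa x)) (f (pb x)) (f (pn x))) (hM : ∀ e, M (f e) ↔ e.1 = 1) : Function.Injective Φ := by
  have hn : ∀ c : C.E → Fin 3, (∀ v, ∀ e ∈ star C v, ∀ e' ∈ star C v, e ≠ e' → c e ≠ c e') → False :=
    fun c hc => no_col f Φ hf c hc
  have hX : Function.Injective (fun i : Fin 5 => Φ (0, i)) := by
    refine five (nice_par hC hn) (nice_tri hC hn) M _ (fun i => f (0, i)) (fun i => f (1, i)) (fun i => ?_)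
      (fun i => ?_) (fun i => ?_)
    · have := hf (0, i + 1)
      simp only [pa, pb, pn, if_true, fin5_e] at this
      exact this
    · rw [hM]
      simp
    · rw [hM]
  have hY0 : Function.Injective (fun i : Fin 5 => Φ (1, 2 * i)) := by
    refine five (nice_par hC hn) (nice_tri hC hn) M _ (fun i => f (2, 2 * i)) (fun i => f (1, 2 * i)) (fun i => ?_)
      (fun i => ?_) (fun i => ?_)
    · have := hf (1, 2 * (i + 1))
      simp only [pa, pb, pn, fin5_h, fin5_i] at this
      simp only [fin5_h]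
      exact this
    · rw [hM]
      simp
    · rw [hM]
  have hY : Function.Injective (fun i : Fin 5 => Φ (1, i)) := by
    intro i j hij
    have h2 : ∀ t : Fin 5, 2 * (3 * t) = t := by decide
    have h3 : (3 : Fin 5) * i = 3 * j := by
      apply hY0
      show Φ (1, 2 * (3 * i)) = Φ (1, 2 * (3 * j))
      rw [h2, h2]
      exact hij
    rw [← h2 i, ← h2 j, h3]
  have hXY : ∀ i j, Φ (0, i) ≠ Φ (1, j) := by
    refine disj M (fun i => Φ (0, i)) (fun i => Φ (1, i)) (fun i => f (0, i)) (fun i => f (2, i)) (fun i => f (1, i))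
      (fun i => ?_) (fun i => ?_) (fun i => ?_) (fun i => ?_) (fun i => ?_) hX hY
    · exact hf (0, i)
    · exact hf (1, i)
    · rw [hM]
      simp
    · rw [hM]
      simp
    · rw [hM]
  rintro ⟨s, i⟩ ⟨t, j⟩ h
  fin_cases s <;> fin_cases t
  · exact congrArg (Prod.mk 0) (hX h)
  · exact absurd h (hXY i j)
  · exact absurd h.symm (hXY j i)
  · exact congrArg (Prod.mk 1) (hY h)

end Pool.Agent.CCP
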