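import Pool.Agent.CCP.Steps

set_option autoImplicit false

namespace Pool.Agent.CCP

open Finset Pool.Agent.CCO

variable {a : FinGraph}

theorem push3 {G : FinGraph} {σ : G.E → a.E} (hσ : CC G a σ) {p q r : G.E}
    (hs : ev G p + ev G q + ev G r = 0) : ev a (σ p) + ev a (σ q) + ev a (σ r) = 0 := by
  apply LinearMap.ext
  intro φ
  exact congrArg (fun F : D G => F ⟨fun e => φ.1 (σ e), hσ φ.1 φ.2⟩) hs

/-- The edges `e1, e2` are split off at `x`. -/
@[reducible] def split (a : FinGraph) (x : a.V) (e1 e2 : a.E) : FinGraph where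
  V := a.V ⊕ Unit
  E := a.E ⊕ Unit
  fintypeV := inferInstance
  fintypeE := inferInstance
  decV := inferInstance
  decE := inferInstance
  fst := Sum.elim (fun e => if (e = e1 ∨ e = e2) ∧ a.fst e = x then Sum.inr () else
    Sum.inl (a.fst e)) (fun _ => Sum.inl x)
  snd := Sum.elim (fun e => if (e = e1 ∨ e = e2) ∧ a.snd e = x then Sum.inr () else
    Sum.inl (a.snd e)) (fun _ => Sum.inr ())
  nonempty := ⟨Sum.inr ()⟩

theorem bd_split_inl {A : Type} [AddCommMonoid A] (x : a.V) (e1 e2 : a.E)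
    (φ : a.E ⊕ Unit → A) (y : a.V) (hy : y ≠ x) :
    bd (split a x e1 e2) φ (Sum.inl y) = bd a (fun e => φ (Sum.inl e)) y := by
  unfold bd
  rw [Fintype.sum_sum_type]
  simp only [Sum.elim_inl, Sum.elim_inr, univ_unique, sum_singleton, Sum.inl.injEq, hy.symm,
    if_false, reduceCtorEq, add_zero]
  apply sum_congr rfl
  intro e _
  congr 1
  · by_cases h1 : (e = e1 ∨ e = e2) ∧ a.fst e = x
    · have h2 : a.fst e ≠ y := by rw [h1.2]; exact hy.symm
      simp [h1, hy.symm]
    · simp [h1]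
  · by_cases h1 : (e = e1 ∨ e = e2) ∧ a.snd e = x
    · simp [h1, hy.symm]
    · simp [h1]

theorem bd_split_inr {A : Type} [AddCommMonoid A] (hl : ∀ e : a.E, a.fst e ≠ a.snd e) (x : a.V)
    (e1 e2 : a.E) (h12 : e1 ≠ e2) (h1 : e1 ∈ star a x) (h2 : e2 ∈ star a x)
    (φ : a.E ⊕ Unit → A) :
    bd (split a x e1 e2) φ (Sum.inr ()) =
      φ (Sum.inl e1) + φ (Sum.inl e2) + φ (Sum.inr ()) := by
  unfold bd
  rw [Fintype.sum_sum_type]
  simp only [Sum.elim_inl, Sum.elim_inr, univ_unique, sum_singleton, reduceCtorEq, if_false,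
    if_true, zero_add]
  congr 1
  have h3 : ∀ e : a.E, ((if (if (e = e1 ∨ e = e2) ∧ a.fst e = x then (Sum.inr () : a.V ⊕ Unit) else
      Sum.inl (a.fst e)) = Sum.inr () then φ (Sum.inl e) else 0) +
      (if (if (e = e1 ∨ e = e2) ∧ a.snd e = x then (Sum.inr () : a.V ⊕ Unit) else
      Sum.inl (a.snd e)) = Sum.inr () then φ (Sum.inl e) else 0)) =
      if e ∈ ({e1, e2} : Finset a.E) then φ (Sum.inl e) else 0 := by
    intro e
    by_cases he : e = e1 ∨ e = e2
    · have h4 : e ∈ star a x := by rcases he with rfl | rfl <;> assumption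
      rw [mem_star] at h4
      have h5 : e ∈ ({e1, e2} : Finset a.E) := by simpa using he
      rw [if_pos h5]
      rcases h4 with h6 | h6
      · have h7 : a.snd e ≠ x := fun h => hl e (h6.trans h.symm)
        simp [he, h6, h7]
      · have h7 : a.fst e ≠ x := fun h => hl e (h.trans h6.symm)
        simp [he, h6, h7]
    · have h5 : e ∉ ({e1, e2} : Finset a.E) := by simpa using he
      rw [if_neg h5]
      simp [he]
  have h4 : ∑ e : a.E, (if e ∈ ({e1, e2} : Finset a.E) then φ (Sum.inl e) else 0) =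
      φ (Sum.inl e1) + φ (Sum.inl e2) := by
    rw [sum_ite_mem, univ_inter, sum_pair h12]
  rw [← h4]
  exact sum_congr rfl (fun e _ => h3 e)

namespace UCtx

theorem split_third (h : UCtx a) {x : a.V} {e1 e2 : a.E} (h12 : e1 ≠ e2) (h1 : e1 ∈ star a x)
    (h2 : e2 ∈ star a x) : ∃ g, ev a e1 + ev a e2 + ev a g = 0 := by
  -- extension of flows
  have hext : ∀ φ : a.E → ZMod 2, IsFlow a φ →
      IsFlow (split a x e1 e2) (Sum.elim φ (fun _ => φ e1 + φ e2)) := by
    intro φ hφ
    have key : ∀ v : (split a x e1 e2).V, v ≠ Sum.inl x →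
        bd (split a x e1 e2) (Sum.elim φ (fun _ => φ e1 + φ e2)) v = 0 := by
      rintro (y | y) hv
      · have hy : y ≠ x := fun hh => hv (by rw [hh])
        rw [bd_split_inl x e1 e2 _ y hy]
        exact hφ y
      · change bd (split a x e1 e2) (Sum.elim φ (fun _ => φ e1 + φ e2)) (Sum.inr ()) = 0
        rw [bd_split_inr h.loopless x e1 e2 h12 h1 h2]
        exact z2_self _
    exact isFlow_of_off (a := split a x e1 e2) (Sum.inl x) key
  have hbr : Bridgeless (split a x e1 e2) := by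
    rw [bridgeless_iff]
    rintro (e | e)
    · obtain ⟨φ, hφ, he⟩ := (bridgeless_iff a).mp h.br e
      exact ⟨_, hext φ hφ, he⟩
    · have hne : ev a e1 ≠ ev a e2 := fun hh => h12 (h.ev_inj hh)
      have : ∃ φ : Fl a, ev a e1 φ ≠ ev a e2 φ := by
        by_contra hcon
        push Not at hcon
        exact hne (LinearMap.ext hcon)
      obtain ⟨φ, hφ⟩ := this
      refine ⟨_, hext φ.1 φ.2, ?_⟩
      rw [ev_apply, ev_apply] at hφ
      change φ.1 e1 + φ.1 e2 = 1
      rcases zmod2_cases (φ.1 e1) with h3 | h3 <;> rcases zmod2_cases (φ.1 e2) with h4 | h4 <;>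
        rw [h3, h4] at hφ ⊢ <;> simp at hφ ⊢
  obtain ⟨f, hf⟩ := h.univ _ hbr
  have hσ : CC a a (fun e => f (Sum.inl e)) := by
    intro φ hφ
    apply isFlow_of_off x
    intro v hv
    rw [← bd_split_inl x e1 e2 (fun e => φ (f e)) v hv]
    exact hf φ hφ (Sum.inl v)
  obtain ⟨τ, hτ, ht1, ht2⟩ := h.exists_inv hσ
  refine ⟨τ (f (Sum.inr ())), ?_⟩
  have h3 := cc_iff.mp hf (Sum.inr ())
  rw [bd_split_inr h.loopless x e1 e2 h12 h1 h2] at h3
  have h4 := push3 hτ h3
  rw [ht1 e1, ht1 e2] at h4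
  exact h4

end UCtx

end Pool.Agent.CCP
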