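import Pool.Agent.CCP.Base

set_option autoImplicit false

namespace Pool.Agent.CCP

open Finset Pool.Agent.CCO

variable {a : FinGraph}

/-- A relation is a cut. -/
theorem exists_cut0 (a : FinGraph) (s : Finset a.E) (hs : ∑ e ∈ s, ev a e = 0) :
    ∃ w : a.V → ZMod 2, ∀ e, (e ∈ s ↔ w (a.fst e) ≠ w (a.snd e)) := by
  obtain ⟨w, hw⟩ := exists_potential a (fun e => if e ∈ s then 1 else 0) (by
    intro φ hφ
    have h1 := congrArg (fun F : D a => F ⟨φ, hφ⟩) hs
    have h2 := ev_sum_apply s id (⟨φ, hφ⟩ : Fl a)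
    simp only [id] at h2
    rw [h2] at h1
    simp only [ite_mul, one_mul, zero_mul, sum_ite_mem, univ_inter]
    exact h1)
  refine ⟨w, fun e => ?_⟩
  have h1 := hw e
  by_cases he : e ∈ s
  · rw [if_pos he] at h1
    simp only [he, true_iff]
    intro h2
    rw [h2] at h1
    rw [z2_self] at h1
    exact one_ne_zero h1
  · rw [if_neg he] at h1
    simp only [he, false_iff, not_not]
    exact z2_eq h1.symm

/-- A cut is a relation. -/
theorem cut_rel0 (a : FinGraph) (w : a.V → ZMod 2) (s : Finset a.E)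
    (hs : ∀ e, (e ∈ s ↔ w (a.fst e) ≠ w (a.snd e))) : ∑ e ∈ s, ev a e = 0 := by
  have h1 := bd_pair a (ev a) w
  have h2 : ∑ v, w v • bd a (ev a) v = 0 := by
    apply sum_eq_zero
    intro v _
    rw [bd_ev, smul_zero]
  rw [h2] at h1
  rw [h1, ← sum_filter_add_sum_filter_not univ (fun e => e ∈ s)]
  have h3 : ∑ e ∈ univ.filter (fun e => ¬ e ∈ s), (w (a.fst e) + w (a.snd e)) • ev a e = 0 := by
    apply sum_eq_zero
    intro e he
    simp only [mem_filter, mem_univ, true_and] at he
    have h4 := (not_iff_not.mpr (hs e)).mp he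
    rw [not_not] at h4
    rw [h4, z2_self, zero_smul]
  rw [h3, add_zero]
  have h5 : univ.filter (fun e => e ∈ s) = s := by ext; simp
  rw [h5]
  apply sum_congr rfl
  intro e he
  have h4 := (hs e).mp he
  have h6 : w (a.fst e) + w (a.snd e) = 1 := by
    rcases zmod2_cases (w (a.fst e)) with h | h <;> rcases zmod2_cases (w (a.snd e)) with h' | h' <;>
      rw [h, h'] at h4 ⊢ <;> simp at h4 ⊢
  rw [h6, one_smul]

namespace UCtx

theorem ev_ne (h : UCtx a) (e : a.E) : ev a e ≠ 0 := by
  intro he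
  obtain ⟨φ, hφ, h1⟩ := (bridgeless_iff a).mp h.br e
  have h2 := congrArg (fun F : D a => F ⟨φ, hφ⟩) he
  simp only [ev_apply] at h2
  rw [h1] at h2
  exact one_ne_zero h2

theorem ev_inj (h : UCtx a) {e e' : a.E} (hee : ev a e = ev a e') : e = e' := by
  by_contra hne
  have hcc : CC a a (fun x => if x = e then e' else x) := by
    rw [cc_iff]
    intro v
    have : (fun x => ev a (if x = e then e' else x)) = ev a := by
      funext x
      by_cases hx : x = e
      · rw [if_pos hx, hx, hee]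
      · rw [if_neg hx]
    rw [this]
    exact bd_ev v
  have := (h.core _ hcc).1 (a₁ := e) (a₂ := e') (by simp [Ne.symm hne])
  exact hne this

/-- Three parallel edges. -/
@[reducible] def theta : FinGraph where
  V := Bool
  E := Fin 3
  fintypeV := inferInstance
  fintypeE := inferInstance
  decV := inferInstance
  decE := inferInstance
  fst := fun _ => false
  snd := fun _ => true
  nonempty := ⟨0⟩

theorem theta_br : Bridgeless theta := by
  rw [bridgeless_iff]
  intro e
  refine ⟨fun x => if x = e ∨ x = e + 1 then 1 else 0, ?_, by simp⟩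
  intro v
  revert e v
  decide

theorem not_single (h : UCtx a) (e : a.E) : ∃ e', e' ≠ e := by
  by_contra hcon
  push Not at hcon
  obtain ⟨f, hf⟩ := h.univ theta theta_br
  obtain ⟨φ, hφ, h1⟩ := (bridgeless_iff a).mp h.br e
  have h2 := hf φ hφ false
  have h3 : (fun x => φ (f x)) = fun _ => 1 := by
    funext x
    rw [hcon (f x), h1]
  rw [h3] at h2
  revert h2
  decide

theorem loopless (h : UCtx a) (e : a.E) : a.fst e ≠ a.snd e := by
  intro he
  obtain ⟨e', he'⟩ := h.not_single e
  have hcc : CC a a (fun x => if x = e then e' else x) := by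
    rw [cc_iff]
    intro v
    have h2 : (fun x => ev a (if x = e then e' else x)) =
        fun x => ev a x + (if x = e then ev a e + ev a e' else 0) := by
      funext x
      by_cases hx : x = e
      · rw [if_pos hx, if_pos hx, hx, ← add_assoc, z2_self, zero_add]
      · rw [if_neg hx, if_neg hx, add_zero]
    rw [h2, bd_add, bd_ev, bd_ite, he, zero_add]
    exact z2_self _
  have := (h.core _ hcc).1 (a₁ := e) (a₂ := e') (by simp [he'])
  exact he' this.symm

theorem star_sum (h : UCtx a) (v : a.V) : ∑ e ∈ star a v, ev a e = 0 := by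
  rw [← bd_eq_star h.loopless]
  exact bd_ev v

theorem tri_ev (h : UCtx a) {v : a.V} {p q r : a.E} (ht : Tri a v p q r) :
    ev a p + ev a q + ev a r = 0 := by
  rw [← ht.sum]; exact h.star_sum v

theorem exists_inv (h : UCtx a) {σ : a.E → a.E} (hσ : CC a a σ) :
    ∃ τ : a.E → a.E, CC a a τ ∧ (∀ e, τ (σ e) = e) ∧ ∀ e, σ (τ e) = e := by
  have hb := h.core σ hσ
  obtain ⟨τ, h1, h2⟩ := Function.bijective_iff_has_inverse.mp hb
  refine ⟨τ, ?_, h1, h2⟩
  have hfin : Finite (Fl a) := inferInstance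
  set T : Fl a → Fl a := fun φ => ⟨fun e => φ.1 (σ e), hσ φ.1 φ.2⟩ with hT
  have hinj : Function.Injective T := by
    intro φ ψ hφψ
    apply Subtype.ext
    funext e
    have h3 := congrArg (fun χ : Fl a => χ.1 (τ e)) hφψ
    simp only [hT] at h3
    rw [h2 e] at h3
    exact h3
  have hsurj := Finite.surjective_of_injective hinj
  intro φ hφ
  obtain ⟨ψ, hψ⟩ := hsurj ⟨φ, hφ⟩
  have h3 : (fun e => φ (τ e)) = ψ.1 := by
    funext e
    have h4 := congrArg (fun χ : Fl a => χ.1 (τ e)) hψ
    simp only [hT] at h4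
    rw [h2 e] at h4
    exact h4.symm
  rw [h3]
  exact ψ.2

/-- Relations between edges are preserved by cc maps. -/
theorem push (_h : UCtx a) {σ : a.E → a.E} (hσ : CC a a σ) (s : Finset a.E)
    (hs : ∑ e ∈ s, ev a e = 0) : ∑ e ∈ s, ev a (σ e) = 0 := by
  apply LinearMap.ext
  intro φ
  rw [ev_sum_apply s σ φ]
  have h1 := congrArg (fun F : D a => F ⟨fun e => φ.1 (σ e), hσ φ.1 φ.2⟩) hs
  have h2 := ev_sum_apply s id (⟨fun e => φ.1 (σ e), hσ φ.1 φ.2⟩ : Fl a)
  simp only [id] at h2
  rw [h2] at h1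
  exact h1

theorem exists_cut (_h : UCtx a) (s : Finset a.E) (hs : ∑ e ∈ s, ev a e = 0) :
    ∃ w : a.V → ZMod 2, ∀ e, (e ∈ s ↔ w (a.fst e) ≠ w (a.snd e)) := exists_cut0 a s hs

theorem cut_rel (_h : UCtx a) (w : a.V → ZMod 2) (s : Finset a.E)
    (hs : ∀ e, (e ∈ s ↔ w (a.fst e) ≠ w (a.snd e))) : ∑ e ∈ s, ev a e = 0 :=
  cut_rel0 a w s hs

end UCtx

end Pool.Agent.CCP
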