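import Pool.Agent.CCP.Extend

/-!
# Step 6: the cuts with three edges are the stars
-/

set_option autoImplicit false

namespace Pool.Agent.CCP

open Finset Pool.Agent.CCO

variable {a : FinGraph}

namespace UCtx

theorem self_add (x : D a) : x + x = 0 := z2_self x

theorem bd_congr_star {A : Type} [AddCommMonoid A] {φ ψ : a.E → A} {x : a.V}
    (h : ∀ e ∈ star a x, φ e = ψ e) : bd a φ x = bd a ψ x := by
  unfold bd
  apply sum_congr rfl
  intro e _
  by_cases h1 : a.fst e = x <;> by_cases h2 : a.snd e = x
  · rw [h e (mem_star.2 (Or.inl h1))]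
  · rw [h e (mem_star.2 (Or.inl h1))]
  · rw [h e (mem_star.2 (Or.inr h2))]
  · simp [h1, h2]

/-- relations inside a star are trivial -/
theorem sub_star (h : UCtx a) {v : a.V} {p q r : a.E} (ht : Tri a v p q r) (J : Finset a.E)
    (hJ : J ⊆ star a v) :
    (J = ∅ ∨ J = star a v) ∨ ∃ e ∈ star a v, ∑ x ∈ J, ev a x = ev a e := by
  classical
  have hs : ev a p + ev a q + ev a r = 0 := h.tri_ev ht
  have hpq : ev a p + ev a q = ev a r := z2_eq hs
  have hpr : ev a p + ev a r = ev a q := by
    apply z2_eq
    rw [← hs]
    abel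
  have hqr : ev a q + ev a r = ev a p := by
    apply z2_eq
    rw [← hs]
    abel
  obtain ⟨hst, h1, h2, h3⟩ := ht
  rw [hst] at hJ ⊢
  by_cases hp : p ∈ J <;> by_cases hq : q ∈ J <;> by_cases hr : r ∈ J
  · left; right
    apply Subset.antisymm hJ
    intro x hx
    simp only [mem_insert, mem_singleton] at hx
    rcases hx with rfl | rfl | rfl <;> assumption
  · right
    refine ⟨r, by simp, ?_⟩
    have e : J = {p, q} := by
      ext x
      constructor
      · intro hx
        have := hJ hx
        simp only [mem_insert, mem_singleton] at this ⊢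
        rcases this with rfl | rfl | rfl
        · exact Or.inl rfl
        · exact Or.inr rfl
        · exact absurd hx hr
      · intro hx
        simp only [mem_insert, mem_singleton] at hx
        rcases hx with rfl | rfl <;> assumption
    rw [e, sum_pair h1, hpq]
  · right
    refine ⟨q, by simp, ?_⟩
    have e : J = {p, r} := by
      ext x
      constructor
      · intro hx
        have := hJ hx
        simp only [mem_insert, mem_singleton] at this ⊢
        rcases this with rfl | rfl | rfl
        · exact Or.inl rfl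
        · exact absurd hx hq
        · exact Or.inr rfl
      · intro hx
        simp only [mem_insert, mem_singleton] at hx
        rcases hx with rfl | rfl <;> assumption
    rw [e, sum_pair h2, hpr]
  · right
    refine ⟨p, by simp, ?_⟩
    have e : J = {p} := by
      ext x
      constructor
      · intro hx
        have := hJ hx
        simp only [mem_insert, mem_singleton] at this ⊢
        rcases this with rfl | rfl | rfl
        · rfl
        · exact absurd hx hq
        · exact absurd hx hr
      · intro hx
        simp only [mem_singleton] at hx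
        rcases hx with rfl
        assumption
    rw [e, sum_singleton]
  · right
    refine ⟨p, by simp, ?_⟩
    have e : J = {q, r} := by
      ext x
      constructor
      · intro hx
        have := hJ hx
        simp only [mem_insert, mem_singleton] at this ⊢
        rcases this with rfl | rfl | rfl
        · exact absurd hx hp
        · exact Or.inl rfl
        · exact Or.inr rfl
      · intro hx
        simp only [mem_insert, mem_singleton] at hx
        rcases hx with rfl | rfl <;> assumption
    rw [e, sum_pair h3, hqr]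
  · right
    refine ⟨q, by simp, ?_⟩
    have e : J = {q} := by
      ext x
      constructor
      · intro hx
        have := hJ hx
        simp only [mem_insert, mem_singleton] at this ⊢
        rcases this with rfl | rfl | rfl
        · exact absurd hx hp
        · rfl
        · exact absurd hx hr
      · intro hx
        simp only [mem_singleton] at hx
        rcases hx with rfl
        assumption
    rw [e, sum_singleton]
  · right
    refine ⟨r, by simp, ?_⟩
    have e : J = {r} := by
      ext x
      constructor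
      · intro hx
        have := hJ hx
        simp only [mem_insert, mem_singleton] at this ⊢
        rcases this with rfl | rfl | rfl
        · exact absurd hx hp
        · exact absurd hx hq
        · rfl
      · intro hx
        simp only [mem_singleton] at hx
        rcases hx with rfl
        assumption
    rw [e, sum_singleton]
  · left; left
    rw [eq_empty_iff_forall_notMem]
    intro x hx
    have := hJ hx
    simp only [mem_insert, mem_singleton] at this
    rcases this with rfl | rfl | rfl
    · exact hp hx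
    · exact hq hx
    · exact hr hx

/-- one edge is not a combination of edges of another star -/
theorem card_ne_one (h : UCtx a) {v : a.V} {p q r : a.E} (ht : Tri a v p q r) (I : a.E → Prop)
    [DecidablePred I] (hI : ∀ e, I e → e ∉ star a v) (u : a.V) (J : Finset a.E)
    (hJ : J ⊆ star a v)
    (hs : ∑ e ∈ (star a u).filter I, ev a e + ∑ e ∈ J, ev a e = 0) :
    ((star a u).filter I).card ≠ 1 := by
  intro hc
  obtain ⟨e1, he1⟩ := card_eq_one.1 hc
  have h1 : I e1 := by
    have : e1 ∈ (star a u).filter I := by rw [he1]; simp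
    exact (mem_filter.1 this).2
  rw [he1, sum_singleton] at hs
  have hs' := z2_eq hs
  rcases h.sub_star ht J hJ with (h2 | h2) | ⟨e, he, h2⟩
  · rw [h2, sum_empty] at hs'
    exact h.ev_ne e1 hs'
  · rw [h2, h.star_sum v] at hs'
    exact h.ev_ne e1 hs'
  · rw [h2] at hs'
    have h3 := h.ev_inj hs'
    rw [h3] at h1
    exact hI e h1 he

theorem no_split (h : UCtx a) {v : a.V} {p q r : a.E} (ht : Tri a v p q r) (I1 I2 : a.E → Prop)
    [DecidablePred I1] [DecidablePred I2]
    (hcov : ∀ e, e ∉ star a v → I1 e ∨ I2 e) (hdis : ∀ e, I1 e → I2 e → False)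
    (h1 : ∀ e, I1 e → e ∉ star a v) (h2 : ∀ e, I2 e → e ∉ star a v)
    (c1 : ∀ u, ∃ J ⊆ star a v, ∑ e ∈ (star a u).filter I1, ev a e + ∑ e ∈ J, ev a e = 0)
    (c2 : ∀ u, ∃ J ⊆ star a v, ∑ e ∈ (star a u).filter I2, ev a e + ∑ e ∈ J, ev a e = 0)
    (n1 : ∃ e, I1 e) (n2 : ∃ e, I2 e) : False := by
  classical
  -- every vertex sees one class only
  have hone : ∀ u, (∀ e ∈ star a u, ¬ I1 e) ∨ (∀ e ∈ star a u, ¬ I2 e) := by
    intro u
    by_contra hcon
    push Not at hcon
    obtain ⟨⟨e1, he1, hi1⟩, ⟨e2, he2, hi2⟩⟩ := hcon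
    obtain ⟨J1, hJ1, hs1⟩ := c1 u
    obtain ⟨J2, hJ2, hs2⟩ := c2 u
    have k1 := h.card_ne_one ht I1 h1 u J1 hJ1 hs1
    have k2 := h.card_ne_one ht I2 h2 u J2 hJ2 hs2
    have k3 : 0 < ((star a u).filter I1).card := card_pos.2 ⟨e1, mem_filter.2 ⟨he1, hi1⟩⟩
    have k4 : 0 < ((star a u).filter I2).card := card_pos.2 ⟨e2, mem_filter.2 ⟨he2, hi2⟩⟩
    have k5 : ((star a u).filter I1).card + ((star a u).filter I2).card ≤ (star a u).card := by
      rw [← card_union_of_disjoint]
      · apply card_le_card
        exact union_subset (filter_subset _ _) (filter_subset _ _)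
      · rw [Finset.disjoint_left]
        intro e he he'
        exact hdis e (mem_filter.1 he).2 (mem_filter.1 he').2
    have k6 := h.cubic u
    omega
  -- the potential
  set z : a.V → ZMod 2 := fun x => if x ≠ v ∧ ∃ e ∈ star a x, I1 e then 1 else 0 with hz
  have zv : z v = 0 := by simp [hz]
  have z1 : ∀ x e, e ∈ star a x → I1 e → z x = 1 := by
    intro x e he hi
    have : x ≠ v := by
      rintro rfl
      exact h1 e hi he
    simp only [hz]
    rw [if_pos ⟨this, e, he, hi⟩]
  have z0 : ∀ x e, e ∈ star a x → I2 e → z x = 0 := by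
    intro x e he hi
    simp only [hz]
    rw [if_neg]
    rintro ⟨-, e', he', hi'⟩
    rcases hone x with h3 | h3
    · exact h3 e' he' hi'
    · exact h3 e he hi
  have zz : ∀ x, z x = 0 ∨ z x = 1 := fun x => zmod2_cases _
  set C : Finset a.E := Finset.univ.filter (fun e => z (a.fst e) ≠ z (a.snd e)) with hC
  have memC : ∀ e, e ∈ C ↔ z (a.fst e) ≠ z (a.snd e) := by
    intro e
    simp [hC]
  have hCv : C ⊆ star a v := by
    intro e he
    by_contra hev
    have he' : z (a.fst e) ≠ z (a.snd e) := (memC e).1 he
    rcases hcov e hev with hi | hi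
    · exact he' ((z1 _ e (fst_mem_star e) hi).trans (z1 _ e (snd_mem_star e) hi).symm)
    · exact he' ((z0 _ e (fst_mem_star e) hi).trans (z0 _ e (snd_mem_star e) hi).symm)
  have hCs : ∑ e ∈ C, ev a e = 0 := by
    exact h.cut_rel z C memC
  rcases h.sub_star ht C hCv with (hc | hc) | ⟨e, he, hc⟩
  · -- no edge crosses
    have hconn := h.conn z (by
      intro e
      by_contra hne
      have : e ∈ C := (memC e).2 hne
      rw [hc] at this
      simp at this)
    obtain ⟨e0, he0⟩ := n1
    have h3 := z1 _ e0 (fst_mem_star e0) he0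
    rw [hconn (a.fst e0) v, zv] at h3
    exact absurd h3 (by decide)
  · -- all edges at `v` cross
    have hconn := h.conn (fun x => if x = v then 1 else z x) (by
      intro e
      by_cases hev : e ∈ star a v
      · have h3 : e ∈ C := by rw [hc]; exact hev
        have h4 : z (a.fst e) ≠ z (a.snd e) := (memC e).1 h3
        have hl := h.loopless e
        rcases mem_star.1 hev with h5 | h5
        · have h6 : a.snd e ≠ v := fun h' => hl (h5.trans h'.symm)
          rw [if_pos h5, if_neg h6]
          rw [h5, zv] at h4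
          rcases zz (a.snd e) with h7 | h7
          · exact absurd h7.symm h4
          · exact h7.symm
        · have h6 : a.fst e ≠ v := fun h' => hl (h'.trans h5.symm)
          rw [if_neg h6, if_pos h5]
          rw [h5, zv] at h4
          rcases zz (a.fst e) with h7 | h7
          · exact absurd h7 h4
          · exact h7
      · have h5 : a.fst e ≠ v := fun h' => hev (mem_star.2 (Or.inl h'))
        have h6 : a.snd e ≠ v := fun h' => hev (mem_star.2 (Or.inr h'))
        rw [if_neg h5, if_neg h6]
        by_contra hne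
        exact hev (hCv ((memC e).2 hne)))
    obtain ⟨e0, he0⟩ := n2
    have h3 := z0 _ e0 (fst_mem_star e0) he0
    have h4 : a.fst e0 ≠ v := fun h' => h2 e0 he0 (mem_star.2 (Or.inl h'))
    have h5 := hconn (a.fst e0) v
    simp only [if_neg h4, if_true] at h5
    rw [h3] at h5
    exact absurd h5 (by decide)
  · -- impossible: a single edge
    rw [hCs] at hc
    exact h.ev_ne e hc.symm

/-- gluing along a cut with three edges: an automorphism carrying the cut to a star -/
theorem exists_glue (h : UCtx a) (w : a.V → ZMod 2) (t : Fin 3 → a.E)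
    (hinj : Function.Injective t) (ht : ∀ e, w (a.fst e) ≠ w (a.snd e) ↔ ∃ i, e = t i)
    (v : a.V) (p : Fin 3 → a.E) (hp : Tri a v (p 0) (p 1) (p 2)) :
    ∃ f : a.E → a.E, CC a a f ∧ ∀ i, f (t i) = p i := by
  classical
  -- one side
  have side : ∀ c : ZMod 2, ∃ f : a.E → a.E, (∀ φ, IsFlow a φ → ∀ x, w x ≠ c →
      bd a (fun e => φ (f e)) x = 0) ∧ ∀ i, f (t i) = p i := by
    intro c
    have h01 : w (a.fst (t 0)) ≠ w (a.snd (t 0)) := (ht (t 0)).2 ⟨0, rfl⟩
    obtain ⟨w0, hw0⟩ : ∃ x, w x = c := by
      rcases zmod2_cases (w (a.fst (t 0))) with h1 | h1 <;>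
        rcases zmod2_cases (w (a.snd (t 0))) with h2 | h2 <;>
        rcases zmod2_cases c with h3 | h3
      · exact ⟨_, h1.trans h3.symm⟩
      · exact absurd (h1.trans h2.symm) h01
      · exact ⟨_, h1.trans h3.symm⟩
      · exact ⟨_, h2.trans h3.symm⟩
      · exact ⟨_, h2.trans h3.symm⟩
      · exact ⟨_, h1.trans h3.symm⟩
      · exact absurd (h1.trans h2.symm) h01
      · exact ⟨_, h1.trans h3.symm⟩
    set q : a.V → a.V := fun x => if w x = c then w0 else x with hq
    have qiff : ∀ x, q x = w0 ↔ w x = c := by
      intro x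
      simp only [hq]
      by_cases hx : w x = c
      · simp [hx]
      · rw [if_neg hx]
        exact ⟨fun h' => h' ▸ hw0, fun h' => absurd h' hx⟩
    have hG : Bridgeless (mapV a q) := by
      intro W hW
      apply h.br (Finset.univ.filter (fun x => q x ∈ W))
      have e1 : cut a (Finset.univ.filter (fun x => q x ∈ W)) = cut (mapV a q) W := by
        ext e
        simp [cut]
      rw [e1]
      exact hW
    have htw : ∀ e : (mapV a q).E, (¬ ((mapV a q).fst e = w0 ↔ (mapV a q).snd e = w0)) ↔
        ∃ i, e = t i := by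
      intro e
      show (¬ (q (a.fst e) = w0 ↔ q (a.snd e) = w0)) ↔ _
      rw [qiff, qiff, ← ht]
      rcases zmod2_cases (w (a.fst e)) with h1 | h1 <;>
        rcases zmod2_cases (w (a.snd e)) with h2 | h2 <;>
        rcases zmod2_cases c with h3 | h3 <;> rw [h1, h2, h3] <;> decide
    obtain ⟨f, hf, hft⟩ := h.extend (mapV a q) hG w0 t hinj htw v p hp
    refine ⟨f, ?_, hft⟩
    intro φ hφ x hx
    have h1 := hf φ hφ x
    rw [bd_mapV] at h1
    have h2 : ∀ y, (if q y = x then bd a (fun e => φ (f e)) y else 0) =
        if y = x then bd a (fun e => φ (f e)) y else 0 := by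
      intro y
      congr 1
      apply propext
      constructor
      · intro hy
        by_cases hyc : w y = c
        · exfalso
          have h3 := (qiff y).2 hyc
          rw [h3] at hy
          exact hx (hy ▸ hw0)
        · simp only [hq, if_neg hyc] at hy
          exact hy
      · rintro rfl
        simp only [hq, if_neg hx]
    simp only [h2, sum_ite_eq', Finset.mem_univ, if_true] at h1
    exact h1
  obtain ⟨f1, hf1, hf1t⟩ := side 1
  obtain ⟨f2, hf2, hf2t⟩ := side 0
  refine ⟨fun e => if w (a.fst e) = 0 ∨ w (a.snd e) = 0 then f1 e else f2 e, ?_, ?_⟩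
  · intro φ hφ x
    rcases zmod2_cases (w x) with hx | hx
    · have h1 := hf1 φ hφ x (by rw [hx]; decide)
      refine (bd_congr_star ?_).trans h1
      intro e he
      have h2 : w (a.fst e) = 0 ∨ w (a.snd e) = 0 := by
        rcases mem_star.1 he with h3 | h3
        · left; rw [h3, hx]
        · right; rw [h3, hx]
      simp only [if_pos h2]
    · have h1 := hf2 φ hφ x (by rw [hx]; decide)
      refine (bd_congr_star ?_).trans h1
      intro e he
      by_cases h2 : w (a.fst e) = 0 ∨ w (a.snd e) = 0
      · have h3 : w (a.fst e) ≠ w (a.snd e) := by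
          rcases mem_star.1 he with h4 | h4
          · rcases h2 with h5 | h5
            · rw [h4, hx] at h5
              exact absurd h5 (by decide)
            · rw [h4, hx, h5]
              decide
          · rcases h2 with h5 | h5
            · rw [h4, hx, h5]
              decide
            · rw [h4, hx] at h5
              exact absurd h5 (by decide)
        obtain ⟨i, rfl⟩ := (ht e).1 h3
        simp only [if_pos h2]
        rw [hf1t, hf2t]
      · simp only [if_neg h2]
  · intro i
    beta_reduce
    by_cases h2 : w (a.fst (t i)) = 0 ∨ w (a.snd (t i)) = 0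
    · rw [if_pos h2, hf1t]
    · rw [if_neg h2, hf2t]

/-- the trace of a star on one side of the cut -/
theorem side_rel (h : UCtx a) (w : a.V → ZMod 2) {f τ : a.E → a.E} (hf : CC a a f)
    (hτ : CC a a τ) (hτf : ∀ e, τ (f e) = e) (hfτ : ∀ e, f (τ e) = e) (v : a.V)
    (hv : ∀ e, e ∈ star a v ↔ w (a.fst (τ e)) ≠ w (a.snd (τ e))) (c : ZMod 2) (u : a.V) :
    ∃ J ⊆ star a v, ∑ e ∈ (star a u).filter
      (fun e => w (a.fst (τ e)) = c ∧ w (a.snd (τ e)) = c), ev a e + ∑ e ∈ J, ev a e = 0 := by
  classical
  have τinj : Function.Injective τ := fun x y hxy => by rw [← hfτ x, ← hfτ y, hxy]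
  have finj : Function.Injective f := fun x y hxy => by rw [← hτf x, ← hτf y, hxy]
  have h1 : ∑ e ∈ (star a u).image τ, ev a e = 0 := by
    rw [sum_image (fun x _ y _ hxy => τinj hxy)]
    exact h.push hτ (star a u) (h.star_sum u)
  obtain ⟨z, hz⟩ := h.exists_cut _ h1
  set z1 : a.V → ZMod 2 := fun x => if w x = c then z x else 0 with hz1
  set s1 : Finset a.E := Finset.univ.filter (fun e => z1 (a.fst e) ≠ z1 (a.snd e)) with hs1
  have mem1 : ∀ e, e ∈ s1 ↔ z1 (a.fst e) ≠ z1 (a.snd e) := by
    intro e
    simp [hs1]
  have h2 : ∑ e ∈ s1, ev a e = 0 := h.cut_rel z1 s1 mem1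
  have h3 : ∑ e ∈ s1.image f, ev a e = 0 := by
    rw [sum_image (fun x _ y _ hxy => finj hxy)]
    exact h.push hf s1 h2
  have memI : ∀ e, e ∈ s1.image f ↔ τ e ∈ s1 := by
    intro e
    rw [mem_image]
    constructor
    · rintro ⟨e', he', rfl⟩
      rw [hτf]
      exact he'
    · intro he
      exact ⟨τ e, he, hfτ e⟩
  have memτ : ∀ e, τ e ∈ (star a u).image τ ↔ e ∈ star a u := by
    intro e
    rw [mem_image]
    constructor
    · rintro ⟨e', he', hee⟩
      rw [← τinj hee]
      exact he'
    · intro he
      exact ⟨e, he, rfl⟩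
  refine ⟨(s1.image f).filter (fun e => e ∈ star a v), fun e he => (mem_filter.1 he).2, ?_⟩
  have h4 : (star a u).filter (fun e => w (a.fst (τ e)) = c ∧ w (a.snd (τ e)) = c) =
      (s1.image f).filter (fun e => ¬ e ∈ star a v) := by
    ext e
    rw [mem_filter, mem_filter, memI, mem1, hv, not_not]
    constructor
    · rintro ⟨he, hc1, hc2⟩
      refine ⟨?_, hc1.trans hc2.symm⟩
      simp only [hz1, if_pos hc1, if_pos hc2]
      exact (hz (τ e)).1 ((memτ e).2 he)
    · rintro ⟨he, hc⟩
      by_cases hc1 : w (a.fst (τ e)) = c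
      · have hc2 : w (a.snd (τ e)) = c := hc ▸ hc1
        simp only [hz1, if_pos hc1, if_pos hc2] at he
        exact ⟨(memτ e).1 ((hz (τ e)).2 he), hc1, hc2⟩
      · have hc2 : ¬ w (a.snd (τ e)) = c := hc ▸ hc1
        simp only [hz1, if_neg hc1, if_neg hc2] at he
        exact absurd rfl he
  rw [h4, add_comm, sum_filter_add_sum_filter_not]
  exact h3

/-- the cuts with three edges are the stars -/
theorem tri_of_sum (h : UCtx a) {p q r : a.E} (hs : ev a p + ev a q + ev a r = 0) :
    ∃ v, Tri a v p q r := by
  classical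
  by_contra hno
  push Not at hno
  have hpq : p ≠ q := by
    rintro rfl
    rw [self_add, zero_add] at hs
    exact h.ev_ne r hs
  have hqr : q ≠ r := by
    rintro rfl
    rw [add_assoc, self_add, add_zero] at hs
    exact h.ev_ne p hs
  have hpr : p ≠ r := by
    rintro rfl
    rw [add_assoc, add_comm (ev a q), ← add_assoc, self_add, zero_add] at hs
    exact h.ev_ne q hs
  have hsum : ∑ e ∈ ({p, q, r} : Finset a.E), ev a e = 0 := by
    rw [sum_insert (by simp [hpq, hpr]), sum_pair hqr, ← add_assoc]
    exact hs
  obtain ⟨w, hw⟩ := h.exists_cut _ hsum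
  have hcard : ({p, q, r} : Finset a.E).card = 3 := by
    rw [card_insert_of_notMem (by simp [hpq, hpr]), card_pair hqr]
  -- edges inside each side
  have hin : ∀ c : ZMod 2, ∃ e, w (a.fst e) = c ∧ w (a.snd e) = c := by
    intro c
    by_contra hcon
    push Not at hcon
    have hp : w (a.fst p) ≠ w (a.snd p) := (hw p).1 (by simp)
    obtain ⟨x, hx⟩ : ∃ x, w x = c := by
      rcases zmod2_cases (w (a.fst p)) with h1 | h1 <;>
        rcases zmod2_cases (w (a.snd p)) with h2 | h2 <;>
        rcases zmod2_cases c with h3 | h3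
      · exact ⟨_, h1.trans h3.symm⟩
      · exact absurd (h1.trans h2.symm) hp
      · exact ⟨_, h1.trans h3.symm⟩
      · exact ⟨_, h2.trans h3.symm⟩
      · exact ⟨_, h2.trans h3.symm⟩
      · exact ⟨_, h1.trans h3.symm⟩
      · exact absurd (h1.trans h2.symm) hp
      · exact ⟨_, h1.trans h3.symm⟩
    have hsub : star a x ⊆ {p, q, r} := by
      intro e he
      rw [hw]
      intro heq
      rcases mem_star.1 he with h4 | h4
      · exact hcon e (by rw [h4, hx]) (by rw [← heq, h4, hx])
      · exact hcon e (by rw [heq, h4, hx]) (by rw [h4, hx])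
    have heq : star a x = {p, q, r} := by
      apply eq_of_subset_of_card_le hsub
      rw [hcard, h.cubic x]
    exact hno x ⟨heq, hpq, hpr, hqr⟩
  -- the automorphism
  obtain ⟨x, y, z, hxy, hxz, hyz, hst⟩ := card_eq_three.1 (h.cubic (a.fst p))
  set v := a.fst p with hvdef
  have htri : Tri a v x y z := ⟨hst, hxy, hxz, hyz⟩
  obtain ⟨f, hf, hft⟩ := h.exists_glue w ![p, q, r] (by
    intro i j hij
    fin_cases i <;> fin_cases j <;> simp_all [eq_comm]) (by
    intro e
    rw [← hw, Fin.exists_fin_succ, Fin.exists_fin_two]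
    simp) v ![x, y, z] htri
  obtain ⟨τ, hτ, hτf, hfτ⟩ := h.exists_inv hf
  have f0 : f p = x := hft 0
  have f1 : f q = y := hft 1
  have f2 : f r = z := hft 2
  have hv : ∀ e, e ∈ star a v ↔ w (a.fst (τ e)) ≠ w (a.snd (τ e)) := by
    intro e
    rw [← hw, hst]
    simp only [mem_insert, mem_singleton]
    constructor
    · rintro (rfl | rfl | rfl)
      · rw [← f0, hτf]; simp
      · rw [← f1, hτf]; simp
      · rw [← f2, hτf]; simp
    · rintro (h1 | h1 | h1)
      · left; rw [← hfτ e, h1, f0]
      · right; left; rw [← hfτ e, h1, f1]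
      · right; right; rw [← hfτ e, h1, f2]
  refine h.no_split htri (fun e => w (a.fst (τ e)) = 0 ∧ w (a.snd (τ e)) = 0)
    (fun e => w (a.fst (τ e)) = 1 ∧ w (a.snd (τ e)) = 1) ?_ ?_ ?_ ?_
    (h.side_rel w hf hτ hτf hfτ v hv 0) (h.side_rel w hf hτ hτf hfτ v hv 1) ?_ ?_
  · intro e he
    rw [hv, not_not] at he
    rcases zmod2_cases (w (a.fst (τ e))) with h1 | h1
    · exact Or.inl ⟨h1, he ▸ h1⟩
    · exact Or.inr ⟨h1, he ▸ h1⟩
  · rintro e ⟨h1, -⟩ ⟨h2, -⟩
    rw [h1] at h2
    exact absurd h2 (by decide)
  · rintro e ⟨h1, h2⟩ he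
    exact (hv e).1 he (h1.trans h2.symm)
  · rintro e ⟨h1, h2⟩ he
    exact (hv e).1 he (h1.trans h2.symm)
  · obtain ⟨e, he⟩ := hin 0
    exact ⟨f e, by rw [hτf]; exact he⟩
  · obtain ⟨e, he⟩ := hin 1
    exact ⟨f e, by rw [hτf]; exact he⟩

end UCtx

end Pool.Agent.CCP
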